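import Pool.Agent.Lib.MP_fe72db_an.Surf.Fix
import Pool.Agent.Lib.MP_fe72db_an.Main

/-! A diffeomorphism with a Lyapunov function outside a trapping region that contains the
horseshoe of the torus example belongs to `O`. -/

open Filter Topology Set Metric
open scoped Manifold ContDiff

namespace Pool.Agent.Lib.MP_fe72db_an.Surf

set_option linter.unusedSectionVars false

open Pool.Agent.Lib.MP_fe72db_an renaming D → TD, Diff1 → TDiff, IsHyperbolic → THyp

lemma exists_hom : ∃ p ∈ Lam, ∃ x ∈ Lam, f0 p = p ∧ x ≠ p ∧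
    Tendsto (fun n : ℕ => (f0 ^ n) x) atTop (𝓝 p) ∧
    Tendsto (fun n : ℕ => (f0⁻¹ ^ n) x) atTop (𝓝 p) := by
  obtain ⟨t, h⟩ := exists_seq fun _ => false
  obtain ⟨t', h'⟩ := exists_seq fun n => decide (n = 0)
  have hfix : ∀ n, proj (t n, t (n + 1)) = proj (t 0, t (0 + 1)) := fun n =>
    eq_of_half_pow fun j => h.dist_le h j _ _ fun _ _ => rfl
  have hp : f0 (proj (t 0, t (0 + 1))) = proj (t 0, t (0 + 1)) := by rw [h.step, hfix]
  have hd : ∀ (n : ℕ) (m : ℤ), |m| = (n + 1 : ℕ) →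
      dist (proj (t' m, t' (m + 1))) (proj (t 0, t (0 + 1))) ≤ (1 / 2) ^ n := fun n m hm =>
    h'.dist_le h n _ _ fun j hj => by
      rw [decide_eq_false_iff_not]
      intro e
      rw [show m = -j by omega, abs_neg] at hm
      omega
  have hlim := tendsto_pow_atTop_nhds_zero_of_lt_one (show (0 : ℝ) ≤ 1 / 2 by norm_num)
    (by norm_num)
  refine ⟨_, h.mem_Lam, _, h'.mem_Lam, hp, fun e => ?_, ?_, ?_⟩
  · have e1 := congrArg (fun y => (lift y).1) e
    simp only [lift_of_L (h.mem_L _) (h.mem_L _), lift_of_L (h'.mem_L _) (h'.mem_L _)] at e1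
    have a1 := (h 0).2
    have a2 := (h' 0).2
    simp only [br, Bool.false_eq_true, if_false, decide_true, if_true] at a1 a2
    linarith [(h (0 + 1)).1.2, (h (0 - 1)).1.2, (h' (0 + 1)).1.2, (h' (0 - 1)).1.2]
  · rw [tendsto_iff_dist_tendsto_zero, ← tendsto_add_atTop_iff_nat 1]
    refine squeeze_zero (fun _ => dist_nonneg) (fun n => ?_) hlim
    rw [← zpow_natCast, h'.zpow]
    exact hd n _ (abs_of_nonneg (by positivity))
  · rw [tendsto_iff_dist_tendsto_zero, ← tendsto_add_atTop_iff_nat 1]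
    refine squeeze_zero (fun _ => dist_nonneg) (fun n => ?_) hlim
    rw [inv_pow, ← zpow_natCast, ← zpow_neg, h'.zpow]
    exact hd n _ (by rw [abs_neg]; exact abs_of_nonneg (by positivity))

lemma C1_subset : C1 ⊆ Sq := fun x hx =>
  mem_ball_zero_iff.2 (max_lt (by linarith [hx.1]) (by linarith [hx.2]))

lemma C0_subset : C0 ⊆ C1 := fun x hx => ⟨by linarith [hx.1], by linarith [hx.2]⟩

lemma Lam_subset : Lam ⊆ interior C1 := fun x hx =>
  mem_interior_C1 ⟨by linarith [norm_of_mem_Lam hx], by linarith [norm_of_mem_Lam hx]⟩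

lemma pt0_mem : pt0 ∈ interior C0 :=
  mem_interior_C0 (by simp only [pt0, proj, norm_zero']; norm_num)

variable {𝕍 M : Type} [NormedAddCommGroup 𝕍] [NormedSpace ℝ 𝕍] [FiniteDimensional ℝ 𝕍]
  [TopologicalSpace M] [ChartedSpace 𝕍 M] [IsManifold 𝓘(ℝ, 𝕍) ∞ M] [T2Space M]
  [CompactSpace M] {c : Ch 𝕍 M} {g : RMetric 𝕍 M}

lemma noCycles_of_rank {f : Equiv.Perm M} {ι : Type} [Finite ι] (Λ : ι → Set M) (rk : ι → ℝ)
    (h1 : ∀ i, IsClosed (Λ i) ∧ f '' Λ i = Λ i ∧ ∃ x ∈ Λ i, Λ i ⊆ closure (orbit f x))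
    (h2 : ∀ i j, i ≠ j → Disjoint (Λ i) (Λ j)) (h3 : ⋃ i, Λ i = nonwandering f)
    (h4 : ∀ a b, a ≠ b → ∀ x, x ∈ Ws f⁻¹ (Λ a) → x ∈ Ws f (Λ b) → x ∉ nonwandering f →
      rk b < rk a) : NoCycles f := by
  obtain ⟨k, ⟨e⟩⟩ := Finite.exists_equiv_fin ι
  refine ⟨k, fun i => Λ (e.symm i), fun i => h1 _, fun i j hij => h2 _ _ (by simpa using hij),
    (e.symm.surjective.iUnion_comp Λ).trans h3, fun i hi => ?_⟩
  have : ∀ a b, Relation.TransGen (fun a b => a ≠ b ∧
      ((Ws f⁻¹ (Λ (e.symm a)) ∩ Ws f (Λ (e.symm b))) \ nonwandering f).Nonempty) a b →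
      rk (e.symm b) < rk (e.symm a) := by
    intro a b h
    induction h with
    | single h =>
      obtain ⟨a1, x, ⟨a2, a3⟩, a4⟩ := h
      exact h4 _ _ (by simpa using a1) x a2 a3 a4
    | tail _ h ih =>
      obtain ⟨a1, x, ⟨a2, a3⟩, a4⟩ := h
      exact (h4 _ _ (by simpa using a1) x a2 a3 a4).trans ih
  exact lt_irrefl _ (this i i hi)

lemma lyap_pow {f : Equiv.Perm M} {C : Set M} (hm : MapsTo f C C) {h : M → ℝ}
    (hle : ∀ x, x ∉ C → h (f x) ≤ h x) {x : M} (n : ℕ) (hx : (f ^ n) x ∉ C) :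
    h ((f ^ n) x) ≤ h x := by
  induction n with
  | zero => rfl
  | succ n ih =>
    rw [pow_succ', Equiv.Perm.mul_apply] at hx ⊢
    exact (hle _ fun hc => hx (hm hc)).trans (ih fun hc => hx (hm hc))

lemma notMem_nonwandering_of_lyap {f : Equiv.Perm M} (hf : Continuous f) {C : Set M}
    (hC : IsClosed C) (hm : MapsTo f C C) {h : M → ℝ} (hh : Continuous h)
    (hle : ∀ x, x ∉ C → h (f x) ≤ h x) {x : M} (hx : x ∉ C) (hlt : h (f x) < h x) :
    x ∉ nonwandering f := by
  obtain ⟨a, a1, a2⟩ := exists_between hlt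
  intro hΩ
  obtain ⟨n, hn, y, hy, hy'⟩ := hΩ _ (inter_mem (hC.isOpen_compl.mem_nhds hx) (inter_mem
    ((hh.comp hf).continuousAt.eventually_lt continuousAt_const a1)
    (continuousAt_const.eventually_lt hh.continuousAt a2)))
  obtain ⟨m, rfl⟩ := Nat.exists_eq_add_of_le' hn
  rw [pow_succ, Equiv.Perm.mul_apply] at hy'
  have b1 := lyap_pow hm hle m hy'.1
  have b2 : h (f y) < a := hy.2.1
  have b3 : a < h _ := hy'.2.2
  linarith

lemma hyp_finite {f : Equiv.Perm M} {Z A : Set M} (hZ : Z.Finite)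
    (h : ∀ x ∈ Z, f x = x ∧ IsHyperbolic g f {x}) (hA : IsHyperbolic g f A) :
    IsHyperbolic g f (Z ∪ A) := by
  induction Z, hZ using Set.Finite.induction_on with
  | empty => simpa using hA
  | @insert a s _ _ ih =>
    rw [insert_eq, union_assoc]
    refine (h a (mem_insert _ _)).2.union (ih fun x hx => h x (mem_insert_of_mem _ hx)) fun x => ?_
    rw [mem_singleton_iff, mem_singleton_iff, ← f.apply_eq_iff_eq (x := x) (y := a),
      (h a (mem_insert _ _)).1]

lemma mem_closure_j (hc : c.Big) {x : T} (hx : x ∈ interior C1) {A : Set T} (hA : x ∈ closure A) :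
    c.j x ∈ closure (c.j '' (interior C1 ∩ A)) :=
  (hc.continuousAt (C1_subset (interior_subset hx))).continuousWithinAt.mem_closure_image
    (isOpen_interior.inter_closure ⟨hx, hA⟩)

theorem mem_OP_of_lyap (hc : c.Big) {f : Equiv.Perm M} (hf : f ∈ Diff1 𝕍 M) {C : Set M}
    (hC : IsClosed C) (hm : MapsTo f C (interior C)) {h : M → ℝ} (hh : Continuous h) {Z : Set M}
    (hZ : Z.Finite) (hZC : ∀ x ∈ Z, x ∉ C) (hZh : ∀ x ∈ Z, f x = x ∧ IsHyperbolic g f {x})
    (hle : ∀ x, x ∉ C → h (f x) ≤ h x) (hlt : ∀ x, x ∉ C → x ∉ Z → h (f x) < h x)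
    (e : ∀ x ∈ C1, f (c.j x) = c.j (f0 x)) (hin : c.j '' C1 ⊆ C)
    (hfull : ∀ y ∈ C, f (f (f y)) ∈ c.j '' C1) : f ∈ OP g := by
  have hm' : MapsTo f C C := fun x hx => interior_subset (hm hx)
  have hint : ∀ {A : Set T}, A ⊆ C1 → c.j '' interior A ⊆ interior (c.j '' A) := fun hA =>
    interior_maximal (image_mono interior_subset)
      (hc.isOpen_image isOpen_interior (interior_subset.trans (hA.trans C1_subset)))
  have hL1 : Lam ⊆ C1 := Lam_subset.trans interior_subset
  have hp0 : pt0 ∈ interior C1 := interior_mono C0_subset pt0_mem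
  have hfp0 : f (c.j pt0) = c.j pt0 := by rw [e _ (interior_subset hp0), f0_pt0]
  have hC0 : IsClosed (c.j '' C0) :=
    (hc.isCompact_image isClosed_C0 (C0_subset.trans C1_subset)).isClosed
  have hm0 : MapsTo f (c.j '' C0) (c.j '' C0) := by
    rintro _ ⟨x, hx, rfl⟩
    exact ⟨_, mapsTo_C0 hx, (e x (C0_subset hx)).symm⟩
  have hz : ∀ x ∈ Lam, ∀ n : ℤ, (f ^ n) (c.j x) = c.j ((f0 ^ n) x) := fun x hx =>
    conj_zpow e fun n => hL1 (zpow_mem_Lam hx n)
  have hΩ : nonwandering f ⊆ Z ∪ c.j '' (Lam ∪ {pt0}) := by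
    intro y hy
    rcases dichotomy hf hC hm' (fun x hx => hm (hm' hx)) hy with h1 | h1
    swap
    · by_contra hcon
      exact notMem_nonwandering_of_lyap (continuous_of_Diff1 hf) hC hm' hh hle (h1 0)
        (hlt _ (h1 0) fun h => hcon (Or.inl h)) hy
    have h2 : ∀ n : ℤ, (f ^ n) y ∈ c.j '' C1 := fun n => by
      have := hfull _ (h1 (n - 3))
      rwa [← zpow_succ_apply, ← zpow_succ_apply, ← zpow_succ_apply,
        show n - 3 + 1 + 1 + 1 = n by ring] at this
    obtain ⟨x, hx, rfl⟩ := h2 0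
    have h3 : ∀ n : ℤ, (f0 ^ n) x ∈ C1 := by
      suffices ∀ n : ℤ, (f0 ^ n) x ∈ C1 ∧ (f ^ n) (c.j x) = c.j ((f0 ^ n) x) from
        fun n => (this n).1
      intro n
      induction n using Int.induction_on with
      | zero => exact ⟨hx, rfl⟩
      | succ n ih =>
        rw [MP_fe72db_an.zpow_succ_apply, zpow_succ_apply, ih.2, e _ ih.1]
        exact ⟨mapsTo_C1 ih.1, rfl⟩
      | pred n ih =>
        obtain ⟨w, hw, hw'⟩ := h2 (-n - 1)
        have : f0 w = f0 ((f0 ^ (-n - 1 : ℤ)) x) := by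
          rw [← MP_fe72db_an.zpow_succ_apply, sub_add_cancel]
          apply hc.injOn (C1_subset (mapsTo_C1 hw)) (C1_subset ih.1)
          rw [← e w hw, hw', ← zpow_succ_apply, sub_add_cancel, ih.2]
        rw [← f0.injective this]
        exact ⟨hw, hw'.symm⟩
    refine Or.inr (mem_image_of_mem _ ?_)
    have b1 : ∀ n, |sq x n| ≤ 45 / 100 := fun n => by rw [← norm_fst_sq]; exact (h3 n).1
    rcases dichotomy hf hC0 hm0 (by
      rintro _ ⟨w, hw, rfl⟩
      rw [e w (C0_subset hw), e _ (C0_subset (mapsTo_C0 hw))]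
      exact hint C0_subset (mem_image_of_mem _ (trap_C0 w hw))) hy with h0 | h0
    · right
      have b0 : ∀ n, |sq x n| ≤ 9 / 100 := fun n => by
        obtain ⟨w, hw, hw'⟩ := h0 n
        rw [conj_zpow e h3] at hw'
        rw [← norm_fst_sq, ← hc.injOn (C1_subset (C0_subset hw)) (C1_subset (h3 n)) hw']
        exact hw.1
      have e0 : ∀ n, sq x n = 0 := fun n => sq_eq_zero (A := fun _ => True)
        (fun n _ => ⟨trivial, b1 n, tau_sq_near (b0 _)⟩) trivial
      rw [eq_sq x, e0, e0]; rfl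
    · left
      have hL := sq_mem_L b1 fun n hn => h0 n ⟨_, ⟨by rw [norm_fst_sq]; exact hn.1,
        by rw [norm_snd_sq]; exact hn.2⟩, (conj_zpow e h3 n).symm⟩
      exact fun n => ⟨(sq x n, sq x (n + 1)), ⟨hL n, hL (n + 1)⟩, (zpow_eq_sq x n).symm⟩
  have hper : Z ∪ c.j '' (Lam ∪ {pt0}) ⊆ closure (Function.periodicPts f) := by
    rintro y (hy | ⟨x, hx | rfl, rfl⟩)
    · exact subset_closure (fixed_mem_periodic (hZh y hy).1)
    · refine closure_mono ?_ (mem_closure_j hc (Lam_subset hx) (Lam_subset_closure hx))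
      rintro _ ⟨w, ⟨hw, hw'⟩, rfl⟩
      obtain ⟨n, hn, hn'⟩ := MP_fe72db_an.mem_periodicPts_iff.1 hw'
      refine mem_periodicPts_iff.2 ⟨n, hn, ?_⟩
      rw [conj_pow e fun n => MP_fe72db_an.pow_mapsTo mapsTo_C1 n (interior_subset hw), hn']
    · exact subset_closure (fixed_mem_periodic hfp0)
  have hΩ' : Z ∪ c.j '' (Lam ∪ {pt0}) ⊆ nonwandering f := hper.trans
    (closure_minimal (fun _ => periodic_mem_nonwandering) (isClosed_nonwandering f))
  have hH : IsHyperbolic g f (c.j '' (Lam ∪ {pt0})) := by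
    refine hc.hyp g f0_mem (isClosed_Lam.union isClosed_singleton) ?_ isOpen_interior
      (union_subset Lam_subset (singleton_subset_iff.2 hp0)) ?_ ?_
      (fun x hx => e x (interior_subset hx)) (isHyperbolic_Lam.union
        (isHyperbolic_sink f0_mem f0_pt0 cplx_pt0)
        (apply_mem_iff (fun _ => apply_mem_Lam) fun _ => inv_apply_mem_Lam))
    · exact (union_subset hL1 (singleton_subset_iff.2 (interior_subset hp0))).trans C1_subset
    · rintro x (hx | rfl)
      exacts [Or.inl (apply_mem_Lam hx), Or.inr f0_pt0]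
    · rintro x (hx | rfl)
      exacts [Or.inl (inv_apply_mem_Lam hx), Or.inr (Equiv.Perm.inv_eq_iff_eq.2 f0_pt0.symm)]
  have hHL := hH.mono (image_mono subset_union_left)
  refine ⟨hf, ⟨(hyp_finite hZ hZh hH).mono hΩ, hΩ.trans hper⟩, ?_, ?_⟩
  · obtain ⟨B, hB⟩ := (isCompact_range hh).bddBelow
    have hB' : ∀ x, B ≤ h x := fun x => hB (mem_range_self x)
    have := hZ.to_subtype
    have i1 : c.j '' Lam ⊆ interior C :=
      ((image_mono Lam_subset).trans (hint subset_rfl)).trans (interior_mono hin)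
    have i0 : {c.j pt0} ⊆ interior (c.j '' C0) :=
      singleton_subset_iff.2 (hint C0_subset (mem_image_of_mem _ pt0_mem))
    have i0' : {c.j pt0} ⊆ interior C :=
      i0.trans (interior_mono ((image_mono C0_subset).trans hin))
    have o1 : c.j '' Lam ⊆ (c.j '' C0)ᶜ := by
      rintro _ ⟨x, hx, rfl⟩ ⟨w, hw, hw'⟩
      rw [hc.injOn (C1_subset (C0_subset hw)) (C1_subset (hL1 hx)) hw'] at hw
      linarith [(norm_of_mem_Lam hx).1, hw.1]
    have hsing : ∀ x, f x = x →
        IsClosed ({x} : Set M) ∧ f '' {x} = {x} ∧ ∃ y ∈ ({x} : Set M), {x} ⊆ closure (orbit f y) :=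
      fun x hx => ⟨isClosed_singleton, by simp [hx], x, rfl,
        singleton_subset_iff.2 (subset_closure (mem_orbit_self _ _))⟩
    refine noCycles_of_rank (ι := Z ⊕ Bool)
      (Sum.elim (fun z => {z.1}) fun b => cond b (c.j '' Lam) {c.j pt0})
      (Sum.elim (fun z => h z.1) fun b => cond b (B - 1) (B - 2)) ?_ ?_ ?_ ?_
    · rintro (z | _ | _)
      · exact hsing _ (hZh _ z.2).1
      · exact hsing _ hfp0
      · refine ⟨(hc.isCompact_image isClosed_Lam (hL1.trans C1_subset)).isClosed,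
          Subset.antisymm ?_ ?_, ?_⟩
        · rintro _ ⟨_, ⟨x, hx, rfl⟩, rfl⟩
          exact ⟨_, apply_mem_Lam hx, (e x (hL1 hx)).symm⟩
        · rintro _ ⟨x, hx, rfl⟩
          refine ⟨_, mem_image_of_mem _ (inv_apply_mem_Lam hx), ?_⟩
          rw [e _ (hL1 (inv_apply_mem_Lam hx))]; simp
        · obtain ⟨x, hx, hx'⟩ := Lam_transitive
          refine ⟨_, mem_image_of_mem _ hx, ?_⟩
          rintro _ ⟨w, hw, rfl⟩
          refine closure_mono ?_ (mem_closure_j hc (Lam_subset hw) (hx' hw))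
          rintro _ ⟨_, ⟨-, n, rfl⟩, rfl⟩
          exact ⟨n, hz x hx n⟩
    · have d1 : ∀ z : Z, ∀ b, Disjoint {z.1} (cond b (c.j '' Lam) {c.j pt0}) := by
        rintro z (_ | _)
        · exact disjoint_singleton_left.2 fun h => hZC _ z.2 (interior_subset (i0' h))
        · exact disjoint_singleton_left.2 fun h => hZC _ z.2 (interior_subset (i1 h))
      have d2 : Disjoint {c.j pt0} (c.j '' Lam) :=
        disjoint_singleton_left.2 fun h => o1 h (interior_subset (i0 rfl))
      rintro (z | _ | _) (w | _ | _) hij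
      exacts [disjoint_singleton.2 fun h => hij (congrArg _ (Subtype.ext h)), d1 z false, d1 z true,
        (d1 w false).symm, absurd rfl hij, d2, (d1 w true).symm, d2.symm, absurd rfl hij]
    · refine Subset.antisymm (iUnion_subset ?_) fun y hy => ?_
      · rintro (z | _ | _)
        · exact singleton_subset_iff.2 (hΩ' (Or.inl z.2))
        · exact singleton_subset_iff.2 (hΩ' (Or.inr (mem_image_of_mem _ (Or.inr rfl))))
        · exact fun y hy => hΩ' (Or.inr (image_mono subset_union_left hy))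
      · rcases hΩ hy with h1 | ⟨x, hx | rfl, rfl⟩
        exacts [mem_iUnion.2 ⟨Sum.inl ⟨y, h1⟩, rfl⟩,
          mem_iUnion.2 ⟨Sum.inr true, mem_image_of_mem _ hx⟩, mem_iUnion.2 ⟨Sum.inr false, rfl⟩]
    · rintro (z | _ | _) (w | _ | _) hab x h1 h2 h3
      · have h1' : Tendsto (fun n : ℕ => (f⁻¹ ^ n) x) atTop (𝓝 z.1) := by simpa [Ws] using h1
        have h2' : Tendsto (fun n : ℕ => (f ^ n) x) atTop (𝓝 w.1) := by simpa [Ws] using h2
        have hev := h2'.eventually (hC.isOpen_compl.mem_nhds (hZC _ w.2))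
        have hxC : x ∉ C := by
          obtain ⟨n, hn⟩ := hev.exists
          exact fun hc => hn (pow_mapsTo hm' n hc)
        have a1 : h w.1 ≤ h (f x) := by
          rw [← tendsto_add_atTop_iff_nat 1] at h2'
          refine le_of_tendsto ((hh.tendsto _).comp h2') ?_
          filter_upwards [h2'.eventually (hC.isOpen_compl.mem_nhds (hZC _ w.2))] with n hn
          exact lyap_pow hm' hle n hn
        have a2 : h x ≤ h z.1 := by
          refine ge_of_tendsto' ((hh.tendsto _).comp h1') fun n => ?_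
          have e1 : (f ^ n) ((f⁻¹ ^ n) x) = x := inv_pow_apply_eq_iff.1 rfl
          have := lyap_pow hm' hle n (x := (f⁻¹ ^ n) x) (by rwa [e1])
          rwa [e1] at this
        exact (a1.trans_lt (hlt x hxC fun hx => h3 (hΩ' (Or.inl hx)))).trans_le a2
      · exact (show B - 2 < B by linarith).trans_le (hB' _)
      · exact (show B - 1 < B by linarith).trans_le (hB' _)
      · exact (no_conn hC hm' i0' (singleton_subset_iff.2 (hZC _ w.2)) h1 h2).elim
      · exact absurd rfl hab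
      · exact (no_conn hC0 hm0 i0 o1 h1 h2).elim
      · exact (no_conn hC hm' i1 (singleton_subset_iff.2 (hZC _ w.2)) h1 h2).elim
      · exact (show B - 2 < B - 1 by linarith)
      · exact absurd rfl hab
  · obtain ⟨p, hp, x, hx, hpp, hxp, t1, t2⟩ := exists_hom
    have hfp : f (c.j p) = c.j p := by rw [e p (hL1 hp), hpp]
    have hpS := C1_subset (hL1 hp)
    have hh' : IsHyperbolic g f (orbit f (c.j p)) := by
      rw [orbit_fixed hfp]
      exact hHL.mono (singleton_subset_iff.2 (mem_image_of_mem _ hp))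
    refine ⟨_, fixed_mem_periodic hfp, hh', (homoclinicClass_ne_iff (fixed_mem_periodic hfp) hh').2
      ⟨c.j x, ?_, ?_, ?_, hHL.trans_vec (mem_image_of_mem _ hx)⟩⟩
    · rw [orbit_fixed hfp]
      exact fun h => hxp (hc.injOn (C1_subset (hL1 hx)) hpS h)
    · simp only [orbit_fixed hfp, Ws, mem_setOf_eq, nhdsSet_singleton]
      refine ((hc.continuousAt hpS).tendsto.comp t1).congr fun n => ?_
      simpa using (hz x hx n).symm
    · simp only [orbit_fixed hfp, Ws, mem_setOf_eq, nhdsSet_singleton]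
      refine ((hc.continuousAt hpS).tendsto.comp t2).congr fun n => ?_
      simpa using (hz x hx (-n)).symm

end Pool.Agent.Lib.MP_fe72db_an.Surf
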