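import Pool.Agent.Lib.MP_fe72db_an.Surf.Tor

/-! Transport of the perturbation argument from the torus to a trapping disc of a surface. -/

open Filter Topology Set Metric
open scoped Manifold ContDiff Pointwise

namespace Pool.Agent.Lib.MP_fe72db_an.Surf

set_option linter.unusedSectionVars false

open Pool.Agent.Lib.MP_fe72db_an renaming D → TD, Diff1 → TDiff, Attr → TAttr

variable {𝕍 M : Type} [NormedAddCommGroup 𝕍] [NormedSpace ℝ 𝕍] [FiniteDimensional ℝ 𝕍]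
  [TopologicalSpace M] [ChartedSpace 𝕍 M] [IsManifold 𝓘(ℝ, 𝕍) ∞ M] [T2Space M]
  [CompactSpace M] {c : Ch 𝕍 M} {g : RMetric 𝕍 M}

lemma conj_pow {f : Equiv.Perm M} {G : Equiv.Perm T} {A : Set T}
    (h : ∀ x ∈ A, f (c.j x) = c.j (G x)) {x : T} (hx : ∀ n : ℕ, (G ^ n) x ∈ A) (n : ℕ) :
    (f ^ n) (c.j x) = c.j ((G ^ n) x) := by
  induction n with
  | zero => rfl
  | succ n ih => rw [pow_succ', pow_succ', Equiv.Perm.mul_apply, Equiv.Perm.mul_apply, ih, h _ (hx n)]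

lemma conj_inv_pow {f : Equiv.Perm M} {G : Equiv.Perm T} {A : Set T}
    (h : ∀ x ∈ A, f (c.j x) = c.j (G x)) {x : T} (hx : ∀ n : ℕ, (G⁻¹ ^ n) x ∈ A) (n : ℕ) :
    (f⁻¹ ^ n) (c.j x) = c.j ((G⁻¹ ^ n) x) := by
  induction n with
  | zero => rfl
  | succ n ih =>
    have := h _ (hx (n + 1))
    rw [pow_succ', Equiv.Perm.mul_apply] at this
    rw [pow_succ', pow_succ', Equiv.Perm.mul_apply, Equiv.Perm.mul_apply, ih,
      Equiv.Perm.inv_eq_iff_eq, this]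
    simp

lemma conj_zpow {f : Equiv.Perm M} {G : Equiv.Perm T} {A : Set T}
    (h : ∀ x ∈ A, f (c.j x) = c.j (G x)) {x : T} (hx : ∀ n : ℤ, (G ^ n) x ∈ A) (n : ℤ) :
    (f ^ n) (c.j x) = c.j ((G ^ n) x) := by
  obtain ⟨m, rfl | rfl⟩ := n.eq_nat_or_neg
  · simpa using conj_pow h (fun n => by simpa using hx n) m
  · simpa using conj_inv_pow h (fun n => by simpa using hx (-n)) m

lemma attr_conj (hc : c.Big) {f : Equiv.Perm M} {G : Equiv.Perm T} {p : T} {U : Set T}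
    (hp : p ∈ Sq) (ha : TAttr G p U) (h : ∀ n : ℕ, ∀ x ∈ U, (f ^ n) (c.j x) = c.j ((G ^ n) x)) :
    Attr f (c.j p) (c.j '' U) := by
  intro V hV
  obtain ⟨ε, hε, hεV⟩ := Metric.mem_nhds_iff.1 (hc.continuousAt hp hV)
  filter_upwards [ha ε hε] with n hn
  rintro _ ⟨x, hx, rfl⟩
  rw [h n x hx]
  exact hεV (hn x hx)

lemma D_eq_of_conj (hc : c.Big) {f f' : M → M} {G G' : T → T} (hG : IsC1 G) (hG' : IsC1 G')
    {x : T} (hx : x ∈ Sq) (hGx : G x ∈ Sq) (e : G' x = G x) (hD : TD G' x = TD G x)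
    (h : ∀ᶠ y in 𝓝 x, f (c.j y) = c.j (G y)) (h' : ∀ᶠ y in 𝓝 x, f' (c.j y) = c.j (G' y)) :
    D 𝕍 f' (c.j x) = D 𝕍 f (c.j x) := by
  ext1 v
  rw [← c.dsym_dch' (hc (lift_mem hx)) v, hc.D_j hG hx hGx h, hc.D_j hG' hx (e ▸ hGx) h', e, hD]

lemma OP_of_conj (hc : c.Big) {f f' : Equiv.Perm M} (hf : f ∈ OP g) (hf' : f' ∈ Diff1 𝕍 M)
    {G G' : Equiv.Perm T} (hG : G ∈ TDiff) (hG' : G' ∈ TDiff) {p : T} {K U : Set T}
    (hK : IsClosed K) (hU : IsOpen U) (hKU : K ⊆ U) (hUS : U ⊆ Sq) (hpK : p ∈ K) (hp : G p = p)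
    (hp' : G' p = p) (hD : TD G' p = TD G p) (hoff : ∀ y, y ∉ c.j '' K → f' y = f y)
    (hm : MapsTo G K K) (hm' : MapsTo G' K K) (ha : TAttr G p U) (ha' : TAttr G' p U)
    (h : ∀ n : ℕ, ∀ x ∈ U, (f ^ n) (c.j x) = c.j ((G ^ n) x))
    (h' : ∀ n : ℕ, ∀ x ∈ U, (f' ^ n) (c.j x) = c.j ((G' ^ n) x)) : f' ∈ OP g := by
  have h1 : ∀ x ∈ U, f (c.j x) = c.j (G x) := fun x hx => by simpa using h 1 x hx
  have h1' : ∀ x ∈ U, f' (c.j x) = c.j (G' x) := fun x hx => by simpa using h' 1 x hx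
  have hpS := hUS (hKU hpK)
  refine mem_O_of_modify hf hf' (hc.isCompact_image hK (hKU.trans hUS)).isClosed
    (hc.isOpen_image hU hUS) (image_mono hKU) (mem_image_of_mem _ (hKU hpK))
    (by rw [h1 p (hKU hpK), hp]) (by rw [h1' p (hKU hpK), hp'])
    (D_eq_of_conj hc hG.1 hG'.1 hpS (by rwa [hp]) (by rw [hp, hp']) hD
      (by filter_upwards [hU.mem_nhds (hKU hpK)] with y hy using h1 y hy)
      (by filter_upwards [hU.mem_nhds (hKU hpK)] with y hy using h1' y hy)) hoff ?_ ?_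
    (attr_conj hc hpS ha h) (attr_conj hc hpS ha' h')
  · rintro _ ⟨x, hx, rfl⟩
    exact ⟨G x, hm hx, (h1 x (hKU hx)).symm⟩
  · rintro _ ⟨x, hx, rfl⟩
    exact ⟨G' x, hm' hx, (h1' x (hKU hx)).symm⟩

variable (c g) in
/-- Diffeomorphisms of the torus that describe an element of `O` in the disc `A`. -/
def cls (f : Equiv.Perm M) (F : Equiv.Perm T) (A : Set T) : Set (Equiv.Perm T) :=
  {G | G ∈ TDiff ∧ (∀ x, x ∉ A → G x = F x) ∧ MapsTo G A A ∧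
    ∃ k ∈ OP g, (∀ x ∈ A, k (c.j x) = c.j (G x)) ∧ ∀ y, y ∉ c.j '' A → k y = f y}

lemma supp_div {G G' : Equiv.Perm T} {K : Set T} (h : ∀ x, x ∉ K → G' x = G x) (x : T)
    (hx : x ∉ K) : (G⁻¹ * G') x = x := by
  rw [Equiv.Perm.mul_apply, h x hx]; simp

lemma mapsTo_of_supp {k : Equiv.Perm T} {K A : Set T} (hKA : K ⊆ A) (h : ∀ x, x ∉ K → k x = x) :
    MapsTo k A A := fun _ hx => perm_mapsTo_of_supp (fun y hy => h y fun hc => hy (hKA hc)) hx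

lemma cls_fwd (hc : c.Big) (f : Equiv.Perm M) (F : Equiv.Perm T) {A : Set T} (hA : A ⊆ Sq) :
    Cls (cls c g f F A) (interior A) := by
  refine ⟨fun h => h.1, ?_⟩
  rintro G G' ⟨hG, o, m, k, hk, e, o'⟩ hG' p K U hK hU hKU hKW hpK hp hp' hD hoff hm hm' ha ha'
  have hKA : K ⊆ A := hKW.trans interior_subset
  have hs := supp_div hoff
  obtain ⟨t, ht, t1, -, t3⟩ := hc.exists_tp (MP_fe72db_an.mul_mem_Diff1
    (MP_fe72db_an.inv_mem_Diff1 hG) hG') hK (hKA.trans hA) hs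
  have m1 := mapsTo_of_supp hKA hs
  have e1 : ∀ x, G ((G⁻¹ * G') x) = G' x := fun x => by simp
  have m' : MapsTo G' A A := fun x hx => e1 x ▸ m (m1 hx)
  have e' : ∀ x ∈ A, (k * t) (c.j x) = c.j (G' x) := fun x hx => by
    rw [Equiv.Perm.mul_apply, (t1 x (hA hx)).2, e _ (m1 hx), e1]
  refine ⟨hG', fun x hx => by rw [hoff x fun h => hx (hKA h), o x hx], m', k * t, ?_, e',
    fun y hy => by rw [Equiv.Perm.mul_apply, t3 y fun h => hy (image_mono hKA h), o' y hy]⟩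
  exact OP_of_conj hc hk (mul_mem_Diff1 hk.1 ht) hG hG' hK (hU.inter isOpen_interior)
    (subset_inter hKU hKW) (fun x hx => hA (interior_subset hx.2)) hpK hp hp' hD
    (fun y hy => by rw [Equiv.Perm.mul_apply, t3 y hy]) hm hm'
    (fun ε hε => (ha ε hε).mono fun n hn x hx => hn x hx.1)
    (fun ε hε => (ha' ε hε).mono fun n hn x hx => hn x hx.1)
    (fun n x hx => conj_pow e (fun n => MP_fe72db_an.pow_mapsTo m n (interior_subset hx.2)) n)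
    (fun n x hx => conj_pow e' (fun n => MP_fe72db_an.pow_mapsTo m' n (interior_subset hx.2)) n)

lemma stay_of_attr {H : Equiv.Perm T} {A U : Set T} {p : T} (hm : MapsTo (H⁻¹ : Equiv.Perm T) A A)
    (hp : A ∈ 𝓝 p) (ha : TAttr H p U) {x : T} (hx : x ∈ U) (n : ℕ) : (H ^ n) x ∈ A := by
  obtain ⟨ε, hε, hεA⟩ := Metric.mem_nhds_iff.1 hp
  obtain ⟨N, hN, hnN⟩ := ((ha ε hε).and (eventually_ge_atTop n)).exists
  obtain ⟨i, rfl⟩ := Nat.exists_eq_add_of_le' hnN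
  have := MP_fe72db_an.pow_mapsTo hm i (hεA (hN x hx))
  simpa [pow_add] using this

lemma cls_bwd (hc : c.Big) (f : Equiv.Perm M) (F : Equiv.Perm T) {A : Set T} (hA : A ⊆ Sq) :
    Cls (cls c g f F A)⁻¹ (interior A) := by
  refine ⟨fun h => by simpa using MP_fe72db_an.inv_mem_Diff1 (Set.mem_inv.1 h).1, ?_⟩
  intro H H' hH hH' p K U hK hU hKU hKW hpK hp hp' hD hoff hm hm' ha ha'
  obtain ⟨hG, o, m, k, hk, e, o'⟩ := Set.mem_inv.1 hH
  have hH0 : H ∈ TDiff := by simpa using MP_fe72db_an.inv_mem_Diff1 hG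
  have hKA : K ⊆ A := hKW.trans interior_subset
  have hs := supp_div hoff
  obtain ⟨t, ht, -, t2, t3⟩ := hc.exists_tp (MP_fe72db_an.mul_mem_Diff1 hG hH') hK
    (hKA.trans hA) hs
  have hs' := perm_inv_supp hs
  have m1 := mapsTo_of_supp hKA hs'
  have e1 : ∀ x, (H⁻¹ * H')⁻¹ (H⁻¹ x) = H'⁻¹ x := fun x => by simp
  have m' : MapsTo (H'⁻¹ : Equiv.Perm T) A A := fun x hx => e1 x ▸ m1 (m hx)
  have e' : ∀ x ∈ A, (t⁻¹ * k) (c.j x) = c.j (H'⁻¹ x) := fun x hx => by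
    rw [Equiv.Perm.mul_apply, e x hx, (t2 _ (hA (m hx))).2, e1]
  have hpA : A ∈ 𝓝 p := mem_interior_iff_mem_nhds.1 (hKW hpK)
  refine Set.mem_inv.2 ⟨MP_fe72db_an.inv_mem_Diff1 hH', fun x hx => ?_, m', t⁻¹ * k, ?_, e',
    fun y hy => ?_⟩
  · rw [← e1, hs', o x hx]
    intro h
    exact hx (by simpa using hKA (hm h))
  · have := OP_of_conj hc (inv_mem_O hk) (inv_mem_Diff1 (mul_mem_Diff1 (inv_mem_Diff1 ht) hk.1))
      hH0 hH' hK (hU.inter isOpen_interior)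
      (subset_inter hKU hKW) (fun x hx => hA (interior_subset hx.2)) hpK hp hp' hD
      (fun y hy => by rw [mul_inv_rev, inv_inv, Equiv.Perm.mul_apply, t3 y hy]) hm hm'
      (fun ε hε => (ha ε hε).mono fun n hn x hx => hn x hx.1)
      (fun ε hε => (ha' ε hε).mono fun n hn x hx => hn x hx.1)
      (fun n x hx => by
        simpa only [inv_inv] using conj_inv_pow e (x := x)
          (fun n => by rw [inv_inv]; exact stay_of_attr m hpA ha hx.1 n) n)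
      (fun n x hx => by
        simpa only [inv_inv] using conj_inv_pow e' (x := x)
          (fun n => by rw [inv_inv]; exact stay_of_attr m' hpA ha' hx.1 n) n)
    simpa only [inv_inv] using inv_mem_O this
  · rw [Equiv.Perm.mul_apply, ← o' y hy, Equiv.Perm.inv_eq_iff_eq, t3]
    rintro ⟨z, hz, hz'⟩
    refine hy ⟨H z, hKA (hm hz), k.injective ?_⟩
    rw [e _ (hKA (hm hz)), ← hz']; simp

lemma not_trivial_of_comm (hc : c.Big) {k : Diff1 𝕍 M} {G : Equiv.Perm T} {A : Set T}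
    (hAc : IsClosed A) (hA : A ⊆ Sq) (m : MapsTo G A A) (e : ∀ x ∈ A, k.1 (c.j x) = c.j (G x))
    (h : Comm G (interior A)) : ¬ TrivialCentralizer k := by
  obtain ⟨t, ht, hcomm, hne, S, x₀, hx₀, hx₁, hw, hb, hs⟩ := h
  have hS : ∀ x ∈ S, ∀ i : ℤ, (G ^ i) x ∈ A := by
    intro x hx i
    obtain ⟨n, hn⟩ := hb x hx
    have h1 := MP_fe72db_an.pow_mapsTo m (i + (n + i.natAbs : ℕ)).toNat
      (interior_subset (hn (n + i.natAbs) (by omega)))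
    rwa [← Equiv.Perm.mul_apply, inv_pow, ← zpow_natCast, ← zpow_natCast, ← zpow_neg, ← zpow_add,
      Int.toNat_of_nonneg (by omega), add_neg_cancel_right] at h1
  have hs' : ∀ x, x ∉ A → t x = x := fun x hx => hs x fun n ⟨y, hy, hy'⟩ => hx (hy' ▸ hS y hy n)
  obtain ⟨s, hs0, s1, -, s3⟩ := hc.exists_tp ht hAc hA hs'
  have mt := mapsTo_of_supp subset_rfl hs'
  intro htriv
  have hmem : (⟨s, hs0⟩ : Diff1 𝕍 M) ∈ Subgroup.centralizer {k} := by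
    rw [Subgroup.mem_centralizer_singleton_iff]
    ext y
    change s (k.1 y) = k.1 (s y)
    by_cases hy : y ∈ c.j '' A
    · obtain ⟨x, hx, rfl⟩ := hy
      rw [e x hx, (s1 _ (hA (m hx))).2, (s1 _ (hA hx)).2, e _ (mt hx), ← Equiv.Perm.mul_apply,
        hcomm, Equiv.Perm.mul_apply]
    · rw [s3 y hy]
      by_cases hy' : k.1 y ∈ c.j '' A
      · obtain ⟨z, hz, hz'⟩ := hy'
        rw [← hz', (s1 _ (hA hz)).2, hs]
        rintro n ⟨w, hw, rfl⟩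
        refine hy ⟨(G ^ (n - 1)) w, hS w hw _, k.1.injective ?_⟩
        rw [e _ (hS w hw _), ← hz', ← Equiv.Perm.mul_apply, ← zpow_one_add, add_sub_cancel]
      · exact s3 _ hy'
  rw [htriv] at hmem
  obtain ⟨n, hn⟩ := hmem
  have hn' : k.1 ^ n = s := by simpa using congrArg Subtype.val hn
  have h1 : (G ^ n) x₀ = t x₀ := by
    have hx₀A : x₀ ∈ A := by simpa using hS x₀ hx₀ 0
    apply hc.injOn (hA (hS x₀ hx₀ n)) (hA (mt hx₀A))
    rw [← conj_zpow e (hS x₀ hx₀) n, hn', (s1 _ (hA hx₀A)).2]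
  have h0 : n = 0 := by
    rcases lt_trichotomy n 0 with h | h | h
    · refine absurd ?_ (hw (-n).toNat (by omega) _ hx₁)
      rwa [← h1, ← zpow_natCast, Int.toNat_of_nonneg (by omega), ← Equiv.Perm.mul_apply,
        ← zpow_add, neg_add_cancel]
    · exact h
    · refine absurd ?_ (hw n.toNat (by omega) _ hx₀)
      rwa [← zpow_natCast, Int.toNat_of_nonneg (by omega), h1]
  rw [h0, zpow_zero] at hn'
  refine hne (Equiv.ext fun x => ?_)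
  by_cases hx : x ∈ A
  · apply hc.injOn (hA (mt hx)) (hA hx)
    rw [← (s1 _ (hA hx)).2, ← hn']; rfl
  · exact hs' x hx

lemma exists_nontrivial (hc : c.Big) {f : Diff1 𝕍 M} (hf : f.1 ∈ OP g) {F : Equiv.Perm T}
    (hF : F ∈ TDiff) {A : Set T} (hAc : IsClosed A) (hA : A ⊆ Sq) (m : MapsTo F A A)
    (e : ∀ x ∈ A, f.1 (c.j x) = c.j (F x)) {p r : T} (hpA : p ∈ interior A)
    (hrA : r ∈ interior A) (hpr : p ≠ r) (hp : F p = p) (hr : F⁻¹ r = r) (cp : Cplx (TD F p))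
    (cr : Cplx (TD (F⁻¹ : Equiv.Perm T) r)) {x₀ : T}
    (h1 : Tendsto (fun n : ℕ => (F ^ n) x₀) atTop (𝓝 p))
    (h2 : Tendsto (fun n : ℕ => (F⁻¹ ^ n) x₀) atTop (𝓝 r)) {N : Set (Diff1 𝕍 M)} (hN : N ∈ 𝓝 f) :
    ∃ k ∈ N, k.1 ∈ OP g ∧ ¬ TrivialCentralizer k := by
  obtain ⟨η, hη, H⟩ := hc.exists_small hAc hA (N := (fun k => f * k) ⁻¹' N)
    ((continuous_mul_left' f).continuousAt.preimage_mem_nhds (by simpa using hN))
  obtain ⟨δ, hδ, Hδ⟩ := near_mul (MP_fe72db_an.inv_mem_Diff1 hF) hF hη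
  obtain ⟨P, a, ha0, ha, cA⟩ := cp.exists_conf
  obtain ⟨Q, b, hb0, hb, cB⟩ := cr.exists_conf
  obtain ⟨G, ⟨hG, o, mG, k, hk, e', o'⟩, hn, hcomm⟩ := (cls_fwd (g := g) hc f.1 F hA).exists_comm
    (cls_bwd hc f.1 F hA) (f := F) ⟨hF, fun _ _ => rfl, m, f.1, hf, e, fun _ _ => rfl⟩
    (isOpen_interior.mem_nhds hpA) (isOpen_interior.mem_nhds hrA) hpr hp hr cA cB ha0 ha hb0 hb
    h1 h2 hδ
  have hs := supp_div o
  have m1 := mapsTo_of_supp subset_rfl hs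
  refine ⟨⟨k, hk.1⟩, ?_, hk, not_trivial_of_comm hc hAc hA mG e' hcomm⟩
  have := H (f⁻¹ * ⟨k, hk.1⟩) (F⁻¹ * G)
    (MP_fe72db_an.mul_mem_Diff1 (MP_fe72db_an.inv_mem_Diff1 hF) hG)
    (by simpa using Hδ _ (MP_fe72db_an.inv_mem_Diff1 hF) _ hG (near_refl _ hδ) hn) ?_ ?_
  · simpa using this
  · intro x hx
    change _ ∧ f.1⁻¹ (k _) = _
    by_cases hxA : x ∈ A
    · refine ⟨hA (m1 hxA), ?_⟩
      rw [Equiv.Perm.inv_eq_iff_eq, e _ (m1 hxA), e' x hxA]; simp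
    · rw [hs x hxA, o']
      · exact ⟨hx, by simp⟩
      · rintro ⟨y, hy, hy'⟩
        exact hxA (hc.injOn (hA hy) hx hy' ▸ hy)
  · intro y hy
    change f.1⁻¹ (k _) = _
    rw [o' y hy]; simp

/-- Near a diffeomorphism with a trapping disc containing a source connected to a sink, both with
nonreal eigenvalues, nontrivial centralizers are dense in `O`. -/
theorem robustM (hc : c.Big) {f₀ : Diff1 𝕍 M} {F₀ : Equiv.Perm T} (hF : F₀ ∈ TDiff) {A V : Set T}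
    (hAc : IsClosed A) (hA : A ⊆ Sq) (hV : IsOpen V) (hAV : A ⊆ V)
    (m : MapsTo F₀ A (interior A)) (e : ∀ x ∈ V, f₀.1 (c.j x) = c.j (F₀ x)) {p₀ r₀ : T}
    (hpA : p₀ ∈ interior A) (hrA : r₀ ∈ interior A) (hpr : p₀ ≠ r₀) (hp : F₀ p₀ = p₀)
    (hr : F₀⁻¹ r₀ = r₀) (cp : Cplx (TD F₀ p₀)) (cr : Cplx (TD (F₀⁻¹ : Equiv.Perm T) r₀)) {x₀ : T}
    (h1 : Tendsto (fun n : ℕ => (F₀ ^ n) x₀) atTop (𝓝 p₀))
    (h2 : Tendsto (fun n : ℕ => (F₀⁻¹ ^ n) x₀) atTop (𝓝 r₀)) :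
    ∀ᶠ f : Diff1 𝕍 M in 𝓝 f₀, f.1 ∈ OP g → ∀ N ∈ 𝓝 f, ∃ k ∈ N, k.1 ∈ OP g ∧
      ¬ TrivialCentralizer k := by
  obtain ⟨V₁, V₂, hV₁, hV₂, hp₁, hr₂, hV₁₂⟩ := t2_separation hpr
  obtain ⟨δ₁, hδ₁, H₁⟩ := robust_basin hF hp cp
    (inter_mem (hV₁.mem_nhds hp₁) (isOpen_interior.mem_nhds hpA)) h1
  obtain ⟨δ₂, hδ₂, H₂⟩ := robust_basin (MP_fe72db_an.inv_mem_Diff1 hF) hr cr
    (inter_mem (hV₂.mem_nhds hr₂) (isOpen_interior.mem_nhds hrA)) h2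
  obtain ⟨δ₃, hδ₃, H₃⟩ := near_inv hF hδ₂
  obtain ⟨δ₄, hδ₄, H₄⟩ := (hAc.isCompact.image
    (MP_fe72db_an.continuous_of_Diff1 hF)).exists_thickening_subset_open isOpen_interior
    (mapsTo_iff_image_subset.1 m)
  obtain ⟨δ₅, hδ₅, H₅⟩ := hAc.isCompact.exists_thickening_subset_open hV hAV
  obtain ⟨η, hη, H⟩ := near_mul_right hF (lt_min hδ₁ (lt_min hδ₃ hδ₄))
  have ht : Tendsto (fun f : Diff1 𝕍 M => f₀⁻¹ * f) (𝓝 f₀) (𝓝 1) := by
    simpa using (continuous_mul_left' f₀⁻¹).tendsto f₀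
  filter_upwards [ht.eventually (hc.eventually_ext hAc hA (lt_min hη hδ₅))] with f ⟨k, hk, hn, hkf⟩
    hf N hN
  have hn' := H k hk (hn.mono (min_le_left _ _))
  have hFk := MP_fe72db_an.mul_mem_Diff1 hF hk
  obtain ⟨p, hpV, hp', cp', t1⟩ := H₁ _ hFk (hn'.mono (min_le_left _ _))
  obtain ⟨r, hrV, hr', cr', t2⟩ := H₂ _ (MP_fe72db_an.inv_mem_Diff1 hFk)
    (H₃ _ hFk (hn'.mono ((min_le_right _ _).trans (min_le_left _ _))))
  refine exists_nontrivial hc hf hFk hAc hA (fun x hx => interior_subset (H₄ ?_)) (fun x hx => ?_)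
    hpV.2 hrV.2 (fun h => Set.disjoint_left.1 hV₁₂ hpV.1 (h ▸ hrV.1)) hp' hr' cp' cr' t1 t2 hN
  · exact mem_thickening_iff.2 ⟨_, mem_image_of_mem _ hx,
      (hn' x).1.trans_le ((min_le_right _ _).trans (min_le_right _ _))⟩
  · have h3 : k x ∈ V :=
      H₅ (mem_thickening_iff.2 ⟨x, hx, (hn x).1.trans_le (min_le_right _ _)⟩)
    rw [Equiv.Perm.mul_apply, ← e _ h3, ← (hkf x hx).2]
    change _ = f₀.1 (f₀.1⁻¹ (f.1 _))
    simp

/-- The final argument. -/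
theorem not_exists_of_robust {f₀ : Diff1 𝕍 M} (hf₀ : f₀.1 ∈ OP g)
    (h : ∀ᶠ f : Diff1 𝕍 M in 𝓝 f₀, f.1 ∈ OP g → ∀ N ∈ 𝓝 f, ∃ k ∈ N, k.1 ∈ OP g ∧
      ¬ TrivialCentralizer k) :
    ¬ ∃ U : Set (O g), IsOpen U ∧ Dense U ∧ ∀ f ∈ U, TrivialCentralizer f.1 := by
  rintro ⟨U, hU, hd, ht⟩
  obtain ⟨f, hf, hfU⟩ := hd.inter_nhds_nonempty (x := ⟨f₀, hf₀.2⟩)
    (continuous_subtype_val.continuousAt.preimage_mem_nhds h)
  obtain ⟨N, hN, rfl⟩ := isOpen_induced_iff.1 hU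
  obtain ⟨k, hk, hk1, hk2⟩ := hfU ⟨f.1.2, f.2⟩ N (hN.mem_nhds hf)
  exact hk2 (ht ⟨k, hk1.2⟩ hk)

end Pool.Agent.Lib.MP_fe72db_an.Surf
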