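import Pool.Agent.Lib.MP_fe72db_an.Surf.Defs

/-! Basic calculus for diffeomorphisms of a surface. -/

open Filter Topology Set Bundle
open scoped Manifold ContDiff

namespace Pool.Agent.Lib.MP_fe72db_an.Surf

variable {𝕍 M : Type} [NormedAddCommGroup 𝕍] [NormedSpace ℝ 𝕍]
  [TopologicalSpace M] [ChartedSpace 𝕍 M]

lemma D_congr {f k : M → M} {x : M} (h : f =ᶠ[𝓝 x] k) : D 𝕍 f x = D 𝕍 k x :=
  h.mfderiv_eq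

lemma D_id (x : M) : D 𝕍 (id : M → M) x = 1 := mfderiv_id

lemma D_eq_one {f : M → M} {x : M} (h : f =ᶠ[𝓝 x] id) : D 𝕍 f x = 1 := (D_congr h).trans (D_id x)

lemma D_comp {f k : M → M} {x : M} (hf : MDifferentiableAt 𝓘(ℝ, 𝕍) 𝓘(ℝ, 𝕍) f (k x))
    (hk : MDifferentiableAt 𝓘(ℝ, 𝕍) 𝓘(ℝ, 𝕍) k x) : D 𝕍 (f ∘ k) x = D 𝕍 f (k x) * D 𝕍 k x :=
  mfderiv_comp x hf hk

lemma D_of_has {f : M → M} {x : M} {A : 𝕍 →L[ℝ] 𝕍}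
    (h : HasMFDerivAt 𝓘(ℝ, 𝕍) 𝓘(ℝ, 𝕍) f x A) : D 𝕍 f x = A := h.mfderiv

variable [IsManifold 𝓘(ℝ, 𝕍) ∞ M]

lemma one_mem_Diff1 : (1 : Equiv.Perm M) ∈ Diff1 𝕍 M := one_mem _

lemma mul_mem_Diff1 {f k : Equiv.Perm M} (hf : f ∈ Diff1 𝕍 M) (hk : k ∈ Diff1 𝕍 M) :
    f * k ∈ Diff1 𝕍 M := mul_mem hf hk

lemma inv_mem_Diff1 {f : Equiv.Perm M} (hf : f ∈ Diff1 𝕍 M) : f⁻¹ ∈ Diff1 𝕍 M := inv_mem hf

lemma pow_mem_Diff1 {f : Equiv.Perm M} (hf : f ∈ Diff1 𝕍 M) (n : ℕ) : f ^ n ∈ Diff1 𝕍 M :=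
  pow_mem hf n

lemma zpow_mem_Diff1 {f : Equiv.Perm M} (hf : f ∈ Diff1 𝕍 M) (n : ℤ) : f ^ n ∈ Diff1 𝕍 M :=
  zpow_mem hf n

lemma continuous_of_Diff1 {f : Equiv.Perm M} (hf : f ∈ Diff1 𝕍 M) : Continuous f :=
  hf.1.continuous

lemma mdiff_of_Diff1 {f : Equiv.Perm M} (hf : f ∈ Diff1 𝕍 M) (x : M) :
    MDifferentiableAt 𝓘(ℝ, 𝕍) 𝓘(ℝ, 𝕍) f x := (hf.1 x).mdifferentiableAt one_ne_zero

lemma D_mul {f k : Equiv.Perm M} (hf : f ∈ Diff1 𝕍 M) (hk : k ∈ Diff1 𝕍 M) (x : M) :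
    D 𝕍 (f * k : Equiv.Perm M) x = D 𝕍 f (k x) * D 𝕍 k x :=
  D_comp (mdiff_of_Diff1 hf _) (mdiff_of_Diff1 hk _)

omit [IsManifold 𝓘(ℝ, 𝕍) ∞ M] in
lemma D_one (x : M) : D 𝕍 (1 : Equiv.Perm M) x = 1 := D_id x

lemma D_inv_mul {f : Equiv.Perm M} (hf : f ∈ Diff1 𝕍 M) (x : M) :
    D 𝕍 (f⁻¹ : Equiv.Perm M) (f x) * D 𝕍 f x = 1 := by
  rw [← D_mul (inv_mem_Diff1 hf) hf, inv_mul_cancel, D_one]

lemma D_mul_inv {f : Equiv.Perm M} (hf : f ∈ Diff1 𝕍 M) (x : M) :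
    D 𝕍 f (f⁻¹ x) * D 𝕍 (f⁻¹ : Equiv.Perm M) x = 1 := by
  rw [← D_mul hf (inv_mem_Diff1 hf), mul_inv_cancel, D_one]

lemma D_mul_inv' {f : Equiv.Perm M} (hf : f ∈ Diff1 𝕍 M) (x : M) :
    D 𝕍 f x * D 𝕍 (f⁻¹ : Equiv.Perm M) (f x) = 1 := by
  simpa using D_mul_inv hf (f x)

lemma D_pow_succ {f : Equiv.Perm M} (hf : f ∈ Diff1 𝕍 M) (n : ℕ) (x : M) :
    D 𝕍 (f ^ (n + 1) : Equiv.Perm M) x = D 𝕍 f ((f ^ n) x) * D 𝕍 (f ^ n : Equiv.Perm M) x := by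
  rw [pow_succ', D_mul hf (pow_mem_Diff1 hf n)]

lemma D_inv_apply {f : Equiv.Perm M} (hf : f ∈ Diff1 𝕍 M) (x : M) (w : 𝕍) :
    D 𝕍 (f⁻¹ : Equiv.Perm M) (f x) (D 𝕍 f x w) = w := by
  rw [← ContinuousLinearMap.mul_apply, D_inv_mul hf]; rfl

lemma D_surjective {f : Equiv.Perm M} (hf : f ∈ Diff1 𝕍 M) (x : M) : Function.Surjective (D 𝕍 f x) :=
  fun w => ⟨D 𝕍 (f⁻¹ : Equiv.Perm M) (f x) w, by
    rw [← ContinuousLinearMap.mul_apply, D_mul_inv' hf]; rfl⟩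

lemma pow_fixed {f : Equiv.Perm M} {p : M} (h : f p = p) (n : ℕ) : (f ^ n) p = p :=
  Equiv.Perm.pow_apply_eq_self_of_apply_eq_self h n

lemma D_pow_fixed {f : Equiv.Perm M} (hf : f ∈ Diff1 𝕍 M) {p : M} (h : f p = p) (n : ℕ) :
    D 𝕍 (f ^ n : Equiv.Perm M) p = D 𝕍 f p ^ n := by
  induction n with
  | zero => exact D_one p
  | succ n ih => rw [D_pow_succ hf, pow_fixed h, ih, pow_succ']

/-! The Riemannian norm -/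

lemma nrm_nonneg (g : RMetric 𝕍 M) (x : M) (v : 𝕍) : 0 ≤ nrm g x v := Real.sqrt_nonneg _

lemma nrm_pos (g : RMetric 𝕍 M) (x : M) {v : 𝕍} (hv : v ≠ 0) : 0 < nrm g x v :=
  Real.sqrt_pos.2 (g.pos x v hv)

lemma nrm_smul (g : RMetric 𝕍 M) (x : M) (t : ℝ) (v : 𝕍) : nrm g x (t • v) = |t| * nrm g x v := by
  have h : g.inner x (t • v : 𝕍) (t • v : 𝕍) = t ^ 2 * g.inner x v v := by
    have h1 := (g.inner x).map_smul t v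
    have h2 := (g.inner x v).map_smul t v
    erw [h1, ContinuousLinearMap.smul_apply, h2]
    simp only [smul_eq_mul]; ring
  rw [nrm, nrm, h, Real.sqrt_mul (sq_nonneg t), Real.sqrt_sq_eq_abs]

lemma continuous_nrm (g : RMetric 𝕍 M) :
    Continuous fun p : TangentBundle 𝓘(ℝ, 𝕍) M => nrm g p.1 p.2 := by
  refine Real.continuous_sqrt.comp ?_
  rw [continuous_iff_continuousAt]
  intro p
  have h1 : ContinuousAt (fun m : TangentBundle 𝓘(ℝ, 𝕍) M => TotalSpace.mk' ℝ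
      (E := Bundle.Trivial M ℝ) m.1 (g.inner m.1 m.2 m.2)) p :=
    (g.continuous.continuousAt.comp
      (FiberBundle.continuous_proj 𝕍 (TangentSpace 𝓘(ℝ, 𝕍))).continuousAt).clm_bundle_apply₂
      (F₁ := 𝕍) (F₂ := 𝕍) continuousAt_id continuousAt_id
  rw [FiberBundle.continuousAt_totalSpace] at h1
  exact h1.2

end Pool.Agent.Lib.MP_fe72db_an.Surf
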