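import Pool.Agent.Lib.MP_fe72db_an.Surf.Transfer
import Pool.Agent.Lib.MP_fe72db_an.Calc

/-! Smooth charts with values in the plane `ℝ × ℝ`, local representatives and transplants. -/

open Filter Topology Set Bundle
open scoped Manifold ContDiff

namespace Pool.Agent.Lib.MP_fe72db_an.Surf

set_option linter.unusedSectionVars false

/-- Transplant of a permutation supported in the target of a chart. -/
lemma exists_tr {X Y : Type} [TopologicalSpace X] [TopologicalSpace Y]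
    (φ : OpenPartialHomeomorph X Y) (h : Equiv.Perm Y) {K : Set Y} (hK : K ⊆ φ.target)
    (hs : ∀ y, y ∉ K → h y = y) :
    ∃ k : Equiv.Perm X, (∀ y ∈ φ.target, h y ∈ φ.target ∧ k (φ.symm y) = φ.symm (h y)) ∧
      (∀ y ∈ φ.target, h⁻¹ y ∈ φ.target ∧ k⁻¹ (φ.symm y) = φ.symm (h⁻¹ y)) ∧
      (∀ x, x ∉ φ.symm '' K → k x = x) ∧ ∀ x, x ∉ φ.symm '' K → k⁻¹ x = x := by
  classical
  have hs' : ∀ y, y ∉ K → h⁻¹ y = y := fun y hy => Equiv.Perm.inv_eq_iff_eq.2 (hs y hy).symm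
  have mt : ∀ u : Equiv.Perm Y, (∀ y, y ∉ K → u y = y) → ∀ y ∈ φ.target, u y ∈ φ.target := by
    intro u hu y hy
    by_cases hc : u y ∈ K
    · exact hK hc
    · rw [u.injective (hu _ hc)]; exact hy
  let F : Equiv.Perm Y → X → X := fun u x => if x ∈ φ.source then φ.symm (u (φ x)) else x
  have h1 : ∀ u : Equiv.Perm Y, ∀ y ∈ φ.target, F u (φ.symm y) = φ.symm (u y) := by
    intro u y hy
    simp only [F, if_pos (φ.map_target hy), φ.right_inv hy]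
  have h2 : ∀ u v : Equiv.Perm Y, (∀ y, y ∉ K → v y = y) → u * v = 1 → ∀ x, F u (F v x) = x := by
    intro u v hv huv x
    by_cases hx : x ∈ φ.source
    · have e : F v x = φ.symm (v (φ x)) := if_pos hx
      rw [e, h1 u _ (mt v hv _ (φ.map_source hx)), ← Equiv.Perm.mul_apply, huv]
      exact φ.left_inv hx
    · have e : F v x = x := if_neg hx
      rw [e]; exact if_neg hx
  have h3 : ∀ u : Equiv.Perm Y, (∀ y, y ∉ K → u y = y) → ∀ x, x ∉ φ.symm '' K → F u x = x := by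
    intro u hu x hx
    by_cases hx' : x ∈ φ.source
    · have e : F u x = φ.symm (u (φ x)) := if_pos hx'
      rw [e, hu _ fun hc => hx ⟨_, hc, φ.left_inv hx'⟩]
      exact φ.left_inv hx'
    · exact if_neg hx'
  exact ⟨⟨F h, F h⁻¹, h2 _ _ hs (inv_mul_cancel h), h2 _ _ hs' (mul_inv_cancel h)⟩,
    fun y hy => ⟨mt h hs y hy, h1 h y hy⟩, fun y hy => ⟨mt _ hs' y hy, h1 _ y hy⟩, h3 h hs,
    h3 _ hs'⟩

variable {𝕍 M : Type} [NormedAddCommGroup 𝕍] [NormedSpace ℝ 𝕍]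
  [TopologicalSpace M] [ChartedSpace 𝕍 M] [IsManifold 𝓘(ℝ, 𝕍) ∞ M]

variable (𝕍 M) in
/-- A smooth chart with values in `ℝ × ℝ`. -/
structure Ch where
  e : OpenPartialHomeomorph M E
  sm : ContMDiffOn 𝓘(ℝ, 𝕍) 𝓘(ℝ, E) ∞ e e.source
  sm' : ContMDiffOn 𝓘(ℝ, E) 𝓘(ℝ, 𝕍) ∞ e.symm e.target

namespace Ch

variable (c : Ch 𝕍 M)

/-- Derivative of the chart. -/
noncomputable def dch (x : M) : 𝕍 →L[ℝ] E := mfderiv 𝓘(ℝ, 𝕍) 𝓘(ℝ, E) c.e x

/-- Derivative of the inverse of the chart. -/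
noncomputable def dsym (z : E) : E →L[ℝ] 𝕍 := mfderiv 𝓘(ℝ, E) 𝓘(ℝ, 𝕍) c.e.symm z

lemma smAt {x : M} (hx : x ∈ c.e.source) : ContMDiffAt 𝓘(ℝ, 𝕍) 𝓘(ℝ, E) ∞ c.e x :=
  c.sm.contMDiffAt (c.e.open_source.mem_nhds hx)

lemma smAt' {z : E} (hz : z ∈ c.e.target) : ContMDiffAt 𝓘(ℝ, E) 𝓘(ℝ, 𝕍) ∞ c.e.symm z :=
  c.sm'.contMDiffAt (c.e.open_target.mem_nhds hz)

lemma has {x : M} (hx : x ∈ c.e.source) : HasMFDerivAt 𝓘(ℝ, 𝕍) 𝓘(ℝ, E) c.e x (c.dch x) :=
  ((c.smAt hx).mdifferentiableAt (by simp)).hasMFDerivAt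

lemma has' {z : E} (hz : z ∈ c.e.target) : HasMFDerivAt 𝓘(ℝ, E) 𝓘(ℝ, 𝕍) c.e.symm z (c.dsym z) :=
  ((c.smAt' hz).mdifferentiableAt (by simp)).hasMFDerivAt

lemma dch_dsym {z : E} (hz : z ∈ c.e.target) (u : E) : c.dch (c.e.symm z) (c.dsym z u) = u := by
  have h1 := (c.has (c.e.map_target hz)).comp z (c.has' hz)
  have h2 : (c.e ∘ c.e.symm) =ᶠ[𝓝 z] id := c.e.eventually_right_inverse hz
  have h3 := (h1.congr_of_eventuallyEq h2.symm).mfderiv
  rw [mfderiv_id] at h3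
  exact (congrArg (fun L : E →L[ℝ] E => L u) h3).symm

lemma dsym_dch {x : M} (hx : x ∈ c.e.source) (v : 𝕍) : c.dsym (c.e x) (c.dch x v) = v := by
  have h1 := (c.has' (c.e.map_source hx)).comp x (c.has hx)
  have h2 : (c.e.symm ∘ c.e) =ᶠ[𝓝 x] id := c.e.eventually_left_inverse hx
  have h3 := (h1.congr_of_eventuallyEq h2.symm).mfderiv
  rw [mfderiv_id] at h3
  exact (congrArg (fun L : 𝕍 →L[ℝ] 𝕍 => L v) h3).symm

lemma dsym_dch' {z : E} (hz : z ∈ c.e.target) (v : 𝕍) : c.dsym z (c.dch (c.e.symm z) v) = v := by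
  have := c.dsym_dch (c.e.map_target hz) v
  rwa [c.e.right_inv hz] at this

/-- The derivative of the chart as a linear isomorphism. -/
noncomputable def deq {z : E} (hz : z ∈ c.e.target) : 𝕍 ≃L[ℝ] E :=
  ContinuousLinearEquiv.equivOfInverse (c.dch (c.e.symm z)) (c.dsym z) (c.dsym_dch' hz)
    (c.dch_dsym hz)

lemma ev_symm {z : E} (hz : z ∈ c.e.target) {P : E → Prop} (h : ∀ᶠ w in 𝓝 z, P w) :
    ∀ᶠ y in 𝓝 (c.e.symm z), y ∈ c.e.source ∧ P (c.e y) := by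
  have h1 := c.e.continuousAt (c.e.map_target hz)
  rw [ContinuousAt, c.e.right_inv hz] at h1
  filter_upwards [c.e.open_source.mem_nhds (c.e.map_target hz), h1.eventually h] with y a b
    using ⟨a, b⟩

lemma eventuallyEq_conj {f : M → M} {F : E → E} {z : E} (hz : z ∈ c.e.target)
    (h : ∀ᶠ w in 𝓝 z, f (c.e.symm w) = c.e.symm (F w)) :
    f =ᶠ[𝓝 (c.e.symm z)] c.e.symm ∘ F ∘ c.e := by
  filter_upwards [c.ev_symm hz h] with y hy
  have := hy.2
  rwa [c.e.left_inv hy.1] at this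

/-- The derivative read in a chart. -/
lemma D_conj {f : M → M} {F : E → E} {z : E} {A : E →L[ℝ] E} (hz : z ∈ c.e.target)
    (hFz : F z ∈ c.e.target) (hF : HasFDerivAt F A z)
    (h : ∀ᶠ w in 𝓝 z, f (c.e.symm w) = c.e.symm (F w)) (u : E) :
    D 𝕍 f (c.e.symm z) (c.dsym z u) = c.dsym (F z) (A u) := by
  have e1 : c.e (c.e.symm z) = z := c.e.right_inv hz
  have h1 : HasMFDerivAt 𝓘(ℝ, E) 𝓘(ℝ, E) F (c.e (c.e.symm z)) A := by
    rw [e1]; exact hasMFDerivAt_iff_hasFDerivAt.2 hF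
  have h2 := h1.comp _ (c.has (c.e.map_target hz))
  have h3 : HasMFDerivAt 𝓘(ℝ, E) 𝓘(ℝ, 𝕍) c.e.symm ((F ∘ c.e) (c.e.symm z)) (c.dsym (F z)) := by
    rw [Function.comp_apply, e1]; exact c.has' hFz
  have h4 := D_of_has ((h3.comp _ h2).congr_of_eventuallyEq (c.eventuallyEq_conj hz h))
  rw [h4]
  change c.dsym (F z) (A (c.dch (c.e.symm z) (c.dsym z u))) = _
  rw [c.dch_dsym hz]

lemma contMDiffAt_conj {f : M → M} {F : E → E} {z : E} (hz : z ∈ c.e.target)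
    (hFz : F z ∈ c.e.target) (hF : ContDiffAt ℝ 1 F z)
    (h : ∀ᶠ w in 𝓝 z, f (c.e.symm w) = c.e.symm (F w)) :
    ContMDiffAt 𝓘(ℝ, 𝕍) 𝓘(ℝ, 𝕍) 1 f (c.e.symm z) := by
  have e1 : c.e (c.e.symm z) = z := c.e.right_inv hz
  have h1 : ContMDiffAt 𝓘(ℝ, E) 𝓘(ℝ, E) 1 F (c.e (c.e.symm z)) := by
    rw [e1]; exact contMDiffAt_iff_contDiffAt.2 hF
  have h2 := h1.comp _ ((c.smAt (c.e.map_target hz)).of_le (by simp))
  have h3 : ContMDiffAt 𝓘(ℝ, E) 𝓘(ℝ, 𝕍) 1 c.e.symm ((F ∘ c.e) (c.e.symm z)) := by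
    rw [Function.comp_apply, e1]; exact (c.smAt' hFz).of_le (by simp)
  exact (h3.comp _ h2).congr_of_eventuallyEq (c.eventuallyEq_conj hz h)

/-- The local representative of a `C^1` map is `C^1`. -/
lemma contDiffAt_rep {f : M → M} (hf : ContMDiff 𝓘(ℝ, 𝕍) 𝓘(ℝ, 𝕍) 1 f) {z : E} (hz : z ∈ c.e.target)
    (hfz : f (c.e.symm z) ∈ c.e.source) : ContDiffAt ℝ 1 (fun w => c.e (f (c.e.symm w))) z :=
  contMDiffAt_iff_contDiffAt.1 (((c.smAt hfz).of_le (by simp)).comp z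
    ((hf _).comp z ((c.smAt' hz).of_le (by simp))))

lemma rep_conj {f : M → M} (hf : Continuous f) {z : E} (hz : z ∈ c.e.target)
    (hfz : f (c.e.symm z) ∈ c.e.source) :
    ∀ᶠ w in 𝓝 z, f (c.e.symm w) = c.e.symm (c.e (f (c.e.symm w))) := by
  filter_upwards [(hf.continuousAt.comp (c.e.continuousAt_symm hz)).eventually
    (c.e.open_source.mem_nhds hfz)] with w hw using (c.e.left_inv hw).symm

lemma isCompact_image {K : Set E} (hK : IsCompact K) (hKt : K ⊆ c.e.target) :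
    IsCompact (c.e.symm '' K) :=
  hK.image_of_continuousOn (c.e.continuousOn_symm.mono hKt)

variable [T2Space M]

lemma contMDiff_of_supp {k : M → M} {K : Set E} (hK : IsCompact K) (hKt : K ⊆ c.e.target)
    (hs : ∀ x, x ∉ c.e.symm '' K → k x = x)
    (h : ∀ z ∈ K, ContMDiffAt 𝓘(ℝ, 𝕍) 𝓘(ℝ, 𝕍) 1 k (c.e.symm z)) : ContMDiff 𝓘(ℝ, 𝕍) 𝓘(ℝ, 𝕍) 1 k := by
  intro x
  by_cases hx : x ∈ c.e.symm '' K
  · obtain ⟨z, hz, rfl⟩ := hx
    exact h z hz
  · refine contMDiffAt_id.congr_of_eventuallyEq ?_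
    filter_upwards [(c.isCompact_image hK hKt).isClosed.isOpen_compl.mem_nhds hx] with y hy
      using hs y hy

/-- Transplant of a compactly supported diffeomorphism of the plane. -/
lemma exists_tp {Φ : Equiv.Perm E} (h1 : ContDiff ℝ 1 Φ) (h2 : ContDiff ℝ 1 (Φ⁻¹ : Equiv.Perm E))
    {K : Set E} (hK : IsCompact K) (hKt : K ⊆ c.e.target) (hs : ∀ z, z ∉ K → Φ z = z) :
    ∃ k ∈ Diff1 𝕍 M, (∀ z ∈ c.e.target, Φ z ∈ c.e.target ∧ k (c.e.symm z) = c.e.symm (Φ z)) ∧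
      ∀ x, x ∉ c.e.symm '' K → k x = x := by
  obtain ⟨k, a1, a2, a3, a4⟩ := exists_tr c.e Φ hKt hs
  refine ⟨k, ⟨c.contMDiff_of_supp hK hKt a3 fun z hz => ?_,
    c.contMDiff_of_supp hK hKt a4 fun z hz => ?_⟩, a1, a3⟩
  · refine c.contMDiffAt_conj (hKt hz) (a1 z (hKt hz)).1 h1.contDiffAt ?_
    filter_upwards [c.e.open_target.mem_nhds (hKt hz)] with w hw using (a1 w hw).2
  · refine c.contMDiffAt_conj (hKt hz) (a2 z (hKt hz)).1 h2.contDiffAt ?_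
    filter_upwards [c.e.open_target.mem_nhds (hKt hz)] with w hw using (a2 w hw).2

omit [T2Space M]

/-- The inverse tangent chart. -/
noncomputable def tsym (q : E × E) : TangentBundle 𝓘(ℝ, 𝕍) M := ⟨c.e.symm q.1, c.dsym q.1 q.2⟩

/-- The tangent chart. -/
noncomputable def tch (p : TangentBundle 𝓘(ℝ, 𝕍) M) : E × E := (c.e p.1, c.dch p.1 p.2)

lemma continuousAt_tsym {q : E × E} (hq : q.1 ∈ c.e.target) : ContinuousAt c.tsym q := by
  have h1 := (c.sm'.continuousOn_tangentMapWithin (by simp) c.e.open_target.uniqueMDiffOn)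
  have h2 : Continuous (fun q : E × E => (⟨q.1, q.2⟩ : TangentBundle 𝓘(ℝ, E) E)) :=
    (tangentBundleModelSpaceHomeomorph 𝓘(ℝ, E)).symm.continuous
  have h3 : IsOpen {q : E × E | q.1 ∈ c.e.target} := c.e.open_target.preimage continuous_fst
  have h4 := (h1.comp h2.continuousOn (s := {q : E × E | q.1 ∈ c.e.target})
    fun q hq => hq).continuousAt (h3.mem_nhds hq)
  refine h4.congr ?_
  filter_upwards [h3.mem_nhds hq] with r hr
  simp only [Function.comp_apply, tangentMapWithin, tsym, dsym]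
  rw [mfderivWithin_of_isOpen c.e.open_target hr]
  rfl

lemma continuousAt_tch {p : TangentBundle 𝓘(ℝ, 𝕍) M} (hp : p.1 ∈ c.e.source) :
    ContinuousAt c.tch p := by
  have h1 := (c.sm.continuousOn_tangentMapWithin (by simp) c.e.open_source.uniqueMDiffOn)
  have h2 : Continuous (fun q : TangentBundle 𝓘(ℝ, E) E => ((q.1, q.2) : E × E)) :=
    (tangentBundleModelSpaceHomeomorph 𝓘(ℝ, E)).continuous
  have h3 : IsOpen {p : TangentBundle 𝓘(ℝ, 𝕍) M | p.1 ∈ c.e.source} :=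
    c.e.open_source.preimage (FiberBundle.continuous_proj 𝕍 (TangentSpace 𝓘(ℝ, 𝕍)))
  have h4 := (h2.comp_continuousOn h1).continuousAt (h3.mem_nhds hp)
  refine h4.congr ?_
  filter_upwards [h3.mem_nhds hp] with r hr
  simp only [Function.comp_apply, tangentMapWithin, tch, dch]
  rw [mfderivWithin_of_isOpen c.e.open_source hr]
  rfl

/-- Comparison of the Riemannian norm with the norm of the chart on compact sets. -/
lemma exists_norm_bounds (g : RMetric 𝕍 M) {K : Set E} (hK : IsCompact K) (hKt : K ⊆ c.e.target) :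
    ∃ a b : ℝ, 0 < a ∧ 0 < b ∧ ∀ z ∈ K, ∀ u : E,
      a * ‖u‖ ≤ nrm g (c.e.symm z) (c.dsym z u) ∧ nrm g (c.e.symm z) (c.dsym z u) ≤ b * ‖u‖ := by
  have hc : ContinuousOn (fun q : E × E => nrm g (c.e.symm q.1) (c.dsym q.1 q.2))
      (K ×ˢ Metric.sphere (0 : E) 1) := fun q hq =>
    ((continuous_nrm g).continuousAt.comp (c.continuousAt_tsym (hKt hq.1))).continuousWithinAt
  have hQ := hK.prod (isCompact_sphere (0 : E) 1)
  have hpos : ∀ q ∈ K ×ˢ Metric.sphere (0 : E) 1, 0 < nrm g (c.e.symm q.1) (c.dsym q.1 q.2) := by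
    intro q hq
    refine nrm_pos g _ fun h0 => ?_
    have := c.dch_dsym (hKt hq.1) q.2
    rw [h0, map_zero] at this
    have h2 := hq.2
    rw [← this] at h2
    simp at h2
  obtain ⟨a, ha, ha'⟩ := hQ.exists_forall_le' hc hpos
  obtain ⟨b, hb⟩ := hQ.bddAbove_image hc
  refine ⟨a, max b 1, ha, lt_max_of_lt_right one_pos, fun z hz u => ?_⟩
  rcases eq_or_ne u 0 with rfl | hu
  · have : nrm g (c.e.symm z) (c.dsym z 0) = 0 := by
      have := nrm_smul g (c.e.symm z) 0 0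
      rwa [zero_smul, abs_zero, zero_mul, ← map_zero (c.dsym z)] at this
    rw [this]; simp
  · have hn : 0 < ‖u‖ := norm_pos_iff.2 hu
    have hm : (z, ‖u‖⁻¹ • u) ∈ K ×ˢ Metric.sphere (0 : E) 1 :=
      ⟨hz, by simp [norm_smul, hn.ne']⟩
    have e : nrm g (c.e.symm z) (c.dsym z u) =
        ‖u‖ * nrm g (c.e.symm z) (c.dsym z (‖u‖⁻¹ • u)) := by
      rw [map_smul, nrm_smul, abs_of_pos (inv_pos.2 hn), ← mul_assoc, mul_inv_cancel₀ hn.ne',
        one_mul]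
    rw [e, mul_comm a, mul_comm (max b 1)]
    exact ⟨mul_le_mul_of_nonneg_left (ha' _ hm) hn.le, mul_le_mul_of_nonneg_left
      ((hb ⟨_, hm, rfl⟩).trans (le_max_left _ _)) hn.le⟩

end Ch

end Pool.Agent.Lib.MP_fe72db_an.Surf
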