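import Pool.Agent.Lib.MP_fe72db_an.Surf.Planar

/-! Morse functions with prescribed behaviour and gradient like diffeomorphisms. -/

open Filter Topology Set Metric
open scoped Manifold ContDiff

namespace Pool.Agent.Lib.MP_fe72db_an.Surf

set_option linter.unusedSectionVars false

variable {𝕍 M : Type} [NormedAddCommGroup 𝕍] [NormedSpace ℝ 𝕍] [FiniteDimensional ℝ 𝕍]
  [TopologicalSpace M] [ChartedSpace 𝕍 M] [IsManifold 𝓘(ℝ, 𝕍) ∞ M] [T2Space M]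

variable (𝕍) in
/-- Critical points. -/
def Crit (h : M → ℝ) : Set M := {x | mfderiv 𝓘(ℝ, 𝕍) 𝓘(ℝ, ℝ) h x = 0}

variable (𝕍) in
/-- Fixed points with a hyperbolic derivative in some chart. -/
def LocHyp (f : M → M) (a : M) : Prop :=
  ∃ (c : Ch 𝕍 M) (z : E) (F : E → E) (A : E →L[ℝ] E), z ∈ c.e.target ∧ c.e.symm z = a ∧ F z = z ∧
    HasFDerivAt F A z ∧ (∀ᶠ w in 𝓝 z, f (c.e.symm w) = c.e.symm (F w)) ∧ LinHyp A

lemma LocHyp.congr {f k : M → M} {a : M} (h : LocHyp 𝕍 f a) (e : k =ᶠ[𝓝 a] f) : LocHyp 𝕍 k a := by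
  obtain ⟨c, z, F, A, a1, rfl, a3, a4, a5, a6⟩ := h
  refine ⟨c, z, F, A, a1, rfl, a3, a4, ?_, a6⟩
  filter_upwards [a5, (c.e.continuousAt_symm a1).eventually e] with w b1 b2
  rw [b2, b1]

lemma LocHyp.hyp (g : RMetric 𝕍 M) {f : Equiv.Perm M} (hf : f ∈ Diff1 𝕍 M) {a : M} (h : LocHyp 𝕍 f a) :
    f a = a ∧ IsHyperbolic g f {a} := by
  obtain ⟨c, z, F, A, a1, rfl, a3, a4, a5, a6⟩ := h
  exact c.hyp_of_linHyp g hf a1 a3 a4 a5 a6

/-- The map `k` decreases `h` at every point that it moves. -/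
def Desc (h : M → ℝ) (k : M → M) : Prop := ∀ y, k y = y ∨ h (k y) < h y

lemma Desc.le {h : M → ℝ} {k : M → M} (H : Desc h k) (y : M) : h (k y) ≤ h y :=
  (H y).elim (fun e => by rw [e]) le_of_lt

namespace Ch

variable (c : Ch 𝕍 M)

lemma contDiffAt_fun {F : Type} [NormedAddCommGroup F] [NormedSpace ℝ F] {h : M → F}
    (hh : ContMDiff 𝓘(ℝ, 𝕍) 𝓘(ℝ, F) ∞ h) {z : E} (hz : z ∈ c.e.target) :
    ContDiffAt ℝ ∞ (fun w => h (c.e.symm w)) z :=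
  (hh.contMDiffAt.comp z (c.smAt' hz)).contDiffAt

lemma crit_iff {h : M → ℝ} (hh : ContMDiff 𝓘(ℝ, 𝕍) 𝓘(ℝ, ℝ) ∞ h) {z : E} (hz : z ∈ c.e.target) :
    c.e.symm z ∈ Crit 𝕍 h ↔ grad (fun w => h (c.e.symm w)) z = 0 := by
  have h1 := ((hh.mdifferentiable (by simp)) (c.e.symm z)).hasMFDerivAt.comp z (c.has' hz)
  have h3 : HasFDerivAt (fun w => h (c.e.symm w))
      ((show 𝕍 →L[ℝ] ℝ from mfderiv 𝓘(ℝ, 𝕍) 𝓘(ℝ, ℝ) h (c.e.symm z)).comp (c.dsym z)) z :=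
    hasMFDerivAt_iff_hasFDerivAt.1 h1
  rw [grad_eq_zero_iff, h3.fderiv]
  refine ⟨fun h2 => by rw [show mfderiv 𝓘(ℝ, 𝕍) 𝓘(ℝ, ℝ) h _ = 0 from h2]; rfl, fun h2 => ?_⟩
  refine ContinuousLinearMap.ext fun v => ?_
  rw [← c.dsym_dch' hz v]
  exact congrArg (fun L : E →L[ℝ] ℝ => L (c.dch (c.e.symm z) v)) h2

/-- Extension by zero of a smooth function with compact support in a chart. -/
lemma exists_ext {F : Type} [NormedAddCommGroup F] [NormedSpace ℝ F] {v : E → F}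
    (hv : ContDiff ℝ ∞ v) {K : Set E} (hK : IsCompact K) (hKt : K ⊆ c.e.target)
    (hs : ∀ z, z ∉ K → v z = 0) : ∃ φ : M → F, ContMDiff 𝓘(ℝ, 𝕍) 𝓘(ℝ, F) ∞ φ ∧
      (∀ z ∈ c.e.target, φ (c.e.symm z) = v z) ∧ ∀ y, y ∉ c.e.symm '' K → φ y = 0 := by
  have h0 : ∀ y, y ∉ c.e.symm '' K → c.e.source.indicator (fun y => v (c.e y)) y = 0 :=
    fun y hy => indicator_apply_eq_zero.2 fun h => hs _ fun h' => hy ⟨_, h', c.e.left_inv h⟩
  refine ⟨c.e.source.indicator fun y => v (c.e y), fun y => ?_, fun z hz => by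
    rw [indicator_of_mem (c.e.map_target hz), c.e.right_inv hz], h0⟩
  by_cases hy : y ∈ c.e.source
  · refine (hv.contMDiff.contMDiffAt.comp y (c.smAt hy)).congr_of_eventuallyEq ?_
    filter_upwards [c.e.open_source.mem_nhds hy] with x hx using indicator_of_mem hx _
  · refine (contMDiffAt_const (c := (0 : F))).congr_of_eventuallyEq ?_
    filter_upwards [(c.isCompact_image hK hKt).isClosed.isOpen_compl.mem_nhds
      (show y ∉ c.e.symm '' K by rintro ⟨z, hz, rfl⟩; exact hy (c.e.map_target (hKt hz)))]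
      with x hx using h0 x hx

lemma exists_bump {z : E} (hz : z ∈ c.e.target) {U : Set M} (hU : U ∈ 𝓝 (c.e.symm z)) :
    ∃ b : ContDiffBump z, closedBall z b.rOut ⊆ c.e.target ∧
      c.e.symm '' closedBall z b.rOut ⊆ U := by
  obtain ⟨r, hr, hr'⟩ := nhds_basis_closedBall.mem_iff.1
    (inter_mem (c.e.open_target.mem_nhds hz) (c.e.continuousAt_symm hz hU))
  exact ⟨⟨r / 2, r, by positivity, by linarith⟩, fun w hw => (hr' hw).1,
    by rintro _ ⟨w, hw, rfl⟩; exact (hr' hw).2⟩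

lemma image_mem_nhds {z : E} (hz : z ∈ c.e.target) {K : Set E} (hK : K ∈ 𝓝 z) :
    c.e.symm '' K ∈ 𝓝 (c.e.symm z) := c.e.symm.image_mem_nhds hz hK

/-- Transplant of a descent step. -/
lemma exists_desc {h : M → ℝ} (hh : ContMDiff 𝓘(ℝ, 𝕍) 𝓘(ℝ, ℝ) ∞ h) {K : Set E} (hK : IsCompact K)
    (hKt : K ⊆ c.e.target) {X : E → E} (hX : ContDiff ℝ 1 X) (hs : ∀ z, z ∉ K → X z = 0)
    (hc : ∀ z ∈ K, ‖X z‖ ^ 2 ≤ 4 * fderiv ℝ (fun w => h (c.e.symm w)) z (X z)) :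
    ∃ ε > (0 : ℝ), (∀ z, ‖ε • fderiv ℝ X z‖ ≤ 1 / 2) ∧ ∃ k ∈ Diff1 𝕍 M, Desc h k ∧
      (∀ z ∈ c.e.target, k (c.e.symm z) = c.e.symm (z - ε • X z)) ∧
      (∀ z ∈ c.e.target, X z ≠ 0 → h (k (c.e.symm z)) < h (c.e.symm z)) ∧
      ∀ y, y ∉ c.e.symm '' K → k y = y := by
  obtain ⟨ε, hε, -, h1, -, h2, Φ, h3, h4, h5⟩ := exists_descent c.e.open_target hK hKt
    (fun z hz => c.contDiffAt_fun hh hz) hX hs hc one_pos
  obtain ⟨k, hk, h6, h7⟩ := c.exists_tp h4 h5 hK hKt fun z hz => by rw [h3, hs z hz]; simp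
  have h8 : ∀ z ∈ c.e.target, X z ≠ 0 → h (k (c.e.symm z)) < h (c.e.symm z) := fun z hz hX => by
    rw [(h6 z hz).2, h3]
    simpa using h2 z hX ⟨le_rfl, hε.le⟩ ⟨hε.le, le_rfl⟩ hε
  refine ⟨ε, hε, h1, k, hk, fun y => ?_, fun z hz => by rw [(h6 z hz).2, h3], h8, h7⟩
  by_cases hy : y ∈ c.e.symm '' K
  · obtain ⟨z, hz, rfl⟩ := hy
    by_cases hX : X z = 0
    · left; rw [(h6 z (hKt hz)).2, h3, hX]; simp
    · exact Or.inr (h8 z (hKt hz) hX)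
  · exact Or.inl (h7 y hy)

end Ch

lemma norm_sq_le (v : E) : ‖v‖ ^ 2 ≤ v.1 ^ 2 + v.2 ^ 2 := by
  rcases max_choice ‖v.1‖ ‖v.2‖ with h | h <;> rw [Prod.norm_def, h, Real.norm_eq_abs, sq_abs] <;>
    nlinarith [sq_nonneg v.1, sq_nonneg v.2]

lemma hasFDerivAt_step {X : E → E} (hX : ContDiff ℝ 1 X) (ε : ℝ) (z : E) :
    HasFDerivAt (fun w => w - ε • X w) (1 - ε • fderiv ℝ X z) z :=
  (hasFDerivAt_id z).sub ((hX.differentiable one_ne_zero z).hasFDerivAt.const_smul ε)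

lemma linHyp_hess {u : E → ℝ} {z : E} (hu : ContDiffAt ℝ ∞ u z) (h : ND u z) (h0 : grad u z = 0)
    {ε : ℝ} (hε : 0 < ε) (hs : ‖ε • fderiv ℝ (grad u) z‖ ≤ 1 / 2) :
    LinHyp (1 - ε • fderiv ℝ (grad u) z) := by
  refine linHyp_symm hs (by simp [hess_symm hu]) ?_
  rw [show dt (ε • fderiv ℝ (grad u) z) = ε ^ 2 * dt (fderiv ℝ (grad u) z) by simp [dt]; ring]
  exact mul_ne_zero (by positivity) (h h0)

/-- A local gradient step. -/
lemma exists_step {h : M → ℝ} (hh : ContMDiff 𝓘(ℝ, 𝕍) 𝓘(ℝ, ℝ) ∞ h) (c : Ch 𝕍 M) {x : M}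
    (hx : x ∈ c.e.source) (hn : ND (fun w => h (c.e.symm w)) (c.e x)) {U : Set M} (hU : U ∈ 𝓝 x) :
    ∃ k ∈ Diff1 𝕍 M, Desc h k ∧ (∃ S ⊆ U, IsClosed S ∧ ∀ y, y ∉ S → k y = y) ∧
      (∀ᶠ y in 𝓝 x, y ∉ Crit 𝕍 h → h (k y) < h y) ∧ (x ∈ Crit 𝕍 h → LocHyp 𝕍 k x) := by
  obtain ⟨z, hz, rfl⟩ : ∃ z ∈ c.e.target, c.e.symm z = x := ⟨_, c.e.map_source hx, c.e.left_inv hx⟩
  rw [c.e.right_inv hz] at hn
  obtain ⟨b, hb, hbU⟩ := c.exists_bump hz hU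
  set u := fun w => h (c.e.symm w)
  have h0 : ∀ w, w ∉ closedBall z b.rOut → b w = 0 := fun w hw =>
    b.zero_of_le_dist (not_le.1 fun h => hw (mem_closedBall.2 h)).le
  have hX : ContDiff ℝ 1 fun w => b w • grad u w := contDiff_smul_of_supp isClosed_closedBall
    b.contDiff h0 fun w hw => (contDiffAt_grad (c.contDiffAt_fun hh (hb hw))).of_le (by norm_cast)
  obtain ⟨ε, hε, h1, k, hk, h2, h3, h4, h5⟩ := c.exists_desc hh (isCompact_closedBall z b.rOut) hb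
    hX (fun w hw => by rw [h0 w hw, zero_smul]) fun w _ => by
      rw [fderiv_eq_grad, norm_smul, Real.norm_of_nonneg b.nonneg, mul_pow]
      have a1 := norm_sq_le (grad u w)
      have a2 : b w ^ 2 ≤ b w := pow_le_of_le_one b.nonneg b.le_one two_ne_zero
      have a3 := mul_le_mul a2 a1 (by positivity) b.nonneg
      have a4 : 0 ≤ b w * ((grad u w).1 ^ 2 + (grad u w).2 ^ 2) := mul_nonneg b.nonneg (by positivity)
      simp only [Prod.smul_fst, Prod.smul_snd, smul_eq_mul]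
      nlinarith
  have e : (fun w => b w • grad u w) =ᶠ[𝓝 z] grad u := by
    filter_upwards [b.eventuallyEq_one] with w hw
    rw [hw]; simp
  refine ⟨k, hk, h2, ⟨_, hbU, (c.isCompact_image (isCompact_closedBall _ _) hb).isClosed, h5⟩,
    ?_, fun hc => ?_⟩
  · filter_upwards [c.ev_symm hz e] with y ⟨a1, a2⟩ hy
    rw [← c.e.left_inv a1] at hy ⊢
    exact h4 _ (c.e.map_source a1) (by rwa [a2, Ne, ← c.crit_iff hh (c.e.map_source a1)])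
  · have h6 := (c.crit_iff hh hz).1 hc
    refine ⟨c, z, _, _, hz, rfl, by simp [u, h6], hasFDerivAt_step hX ε z,
      by filter_upwards [c.e.open_target.mem_nhds hz] using h3, ?_⟩
    have h7 := h1 z
    rw [e.fderiv_eq] at h7 ⊢
    exact linHyp_hess (c.contDiffAt_fun hh hz) hn h6 hε h7

/-- A gradient like diffeomorphism acting on a compact set and supported in a neighbourhood. -/
lemma exists_outer {h : M → ℝ} (hh : ContMDiff 𝓘(ℝ, 𝕍) 𝓘(ℝ, ℝ) ∞ h) (hfin : (Crit 𝕍 h).Finite)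
    (hn : ∀ x, ∃ c : Ch 𝕍 M, x ∈ c.e.source ∧ ND (fun w => h (c.e.symm w)) (c.e x)) {K B : Set M}
    (hK : IsCompact K) (hB : IsClosed B) (hKB : ∀ x ∈ K, x ∉ B) :
    ∃ Ψ ∈ Diff1 𝕍 M, Desc h Ψ ∧ (∀ y ∈ B, Ψ y = y) ∧ (∀ y ∈ K, y ∉ Crit 𝕍 h → h (Ψ y) < h y) ∧
      ∀ a ∈ K, a ∈ Crit 𝕍 h → LocHyp 𝕍 Ψ a := by
  classical
  have : ∀ x : K, ∃ k ∈ Diff1 𝕍 M, Desc h k ∧
      (∃ S ⊆ Bᶜ ∩ (Crit 𝕍 h \ {x.1})ᶜ, IsClosed S ∧ ∀ y, y ∉ S → k y = y) ∧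
      (∀ᶠ y in 𝓝 x.1, y ∉ Crit 𝕍 h → h (k y) < h y) ∧ (x.1 ∈ Crit 𝕍 h → LocHyp 𝕍 k x) := fun x => by
    obtain ⟨c, a1, a2⟩ := hn x
    exact exists_step hh c a1 a2 (inter_mem (hB.isOpen_compl.mem_nhds (hKB _ x.2))
      ((hfin.subset diff_subset).isClosed.isOpen_compl.mem_nhds (by simp)))
  choose k k1 k2 k3 k4 k5 using this
  obtain ⟨t, ht⟩ := hK.elim_nhds_subcover'
    (fun x hx => {y | y ∉ Crit 𝕍 h → h (k ⟨x, hx⟩ y) < h y} ∩ (Crit 𝕍 h \ {x})ᶜ) fun x hx =>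
      inter_mem (k4 ⟨x, hx⟩) ((hfin.subset diff_subset).isClosed.isOpen_compl.mem_nhds (by simp))
  have hid : ∀ (x : K), ∀ a ∈ Crit 𝕍 h, a ≠ x → k x =ᶠ[𝓝 a] id := fun x a ha hax => by
    obtain ⟨S, a1, a2, a3⟩ := k3 x
    filter_upwards [a2.isOpen_compl.mem_nhds fun h => (a1 h).2 ⟨ha, hax⟩] using a3
  suffices ∀ t : Finset K, ∃ Ψ ∈ Diff1 𝕍 M, Desc h Ψ ∧ (∀ y ∈ B, Ψ y = y) ∧
      (∀ x ∈ t, ∀ y, h (k x y) < h y → h (Ψ y) < h y) ∧
      (∀ a ∈ Crit 𝕍 h, (∀ x ∈ t, a ≠ x.1) → Ψ =ᶠ[𝓝 a] id) ∧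
      ∀ x ∈ t, x.1 ∈ Crit 𝕍 h → Ψ =ᶠ[𝓝 x.1] k x by
    obtain ⟨Ψ, a1, a2, a3, a4, -, a6⟩ := this t
    refine ⟨Ψ, a1, a2, a3, fun y hy hy' => ?_, fun a ha ha' => ?_⟩
    · obtain ⟨x, hx, hx'⟩ := mem_iUnion₂.1 (ht hy)
      exact a4 x hx y (hx'.1 hy')
    · obtain ⟨x, hx, hx'⟩ := mem_iUnion₂.1 (ht ha)
      obtain rfl : a = x := by_contra fun h => hx'.2 ⟨ha', h⟩
      exact (k5 x ha').congr (a6 x hx ha')
  intro t
  induction t using Finset.induction_on with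
  | empty => exact ⟨1, one_mem_Diff1, fun _ => Or.inl rfl, fun _ _ => rfl, by simp,
      fun _ _ _ => EventuallyEq.rfl, by simp⟩
  | insert x t hxt ih =>
    obtain ⟨Ψ, a1, a2, a3, a4, a5, a6⟩ := ih
    refine ⟨Ψ * k x, mul_mem_Diff1 a1 (k1 x), fun y => ?_, fun y hy => ?_, fun w hw y hy => ?_,
      fun a ha ha' => ?_, fun w hw hw' => ?_⟩
    · rw [Equiv.Perm.mul_apply]
      rcases k2 x y with e | e
      · rw [e]; exact a2 y
      · exact Or.inr ((a2.le _).trans_lt e)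
    · obtain ⟨S, b1, -, b3⟩ := k3 x
      rw [Equiv.Perm.mul_apply, b3 y fun h => (b1 h).1 hy, a3 y hy]
    · rw [Equiv.Perm.mul_apply]
      rcases k2 x y with e | e
      · rcases Finset.mem_insert.1 hw with rfl | hw
        · exact (a2.le _).trans_lt hy
        · rw [e]; exact a4 w hw y hy
      · exact (a2.le _).trans_lt e
    · filter_upwards [hid x a ha (ha' x (Finset.mem_insert_self _ _)),
        a5 a ha fun w hw => ha' w (Finset.mem_insert_of_mem hw)] with y b1 b2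
      rw [Equiv.Perm.mul_apply, b1, id, b2, id]
    · rcases Finset.mem_insert.1 hw with rfl | hw
      · obtain ⟨c, z, F, A, b1, b2, b3, -, b5, -⟩ := k5 w hw'
        have e : k w w = w := by rw [← b2, b5.self_of_nhds, b3]
        have t1 : Tendsto (k w) (𝓝 w.1) (𝓝 w.1) := by
          simpa only [e] using (continuous_of_Diff1 (k1 w)).tendsto w.1
        filter_upwards [t1.eventually (a5 w hw' fun v hv e => hxt (Subtype.ext e ▸ hv))] with y b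
        rw [Equiv.Perm.mul_apply, b, id]
      · filter_upwards [hid x w hw' fun e => hxt (Subtype.ext e ▸ hw), a6 w hw hw'] with y b1 b2
        rw [Equiv.Perm.mul_apply, b1, id, b2]

/-- Morse functions agreeing with a given function outside a prescribed set. -/
lemma exists_morse {h₀ : M → ℝ} (hh : ContMDiff 𝓘(ℝ, 𝕍) 𝓘(ℝ, ℝ) ∞ h₀) (c₀ : Ch 𝕍 M) {K₀ : Set E}
    (hK₀ : IsCompact K₀) (hK₀t : K₀ ⊆ c₀.e.target)
    (hn : ∀ z ∈ K₀, ND (fun w => h₀ (c₀.e.symm w)) z) {K U : Set M} (hK : IsCompact K)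
    (hU : ∀ x ∈ K, U ∈ 𝓝 x) (c : M → Ch 𝕍 M) (hc : ∀ x ∈ K, x ∈ (c x).e.source) :
    ∃ h : M → ℝ, ContMDiff 𝓘(ℝ, 𝕍) 𝓘(ℝ, ℝ) ∞ h ∧ (∀ y, y ∉ U → h y = h₀ y) ∧
      (∀ z ∈ K₀, ND (fun w => h (c₀.e.symm w)) z) ∧ (K ∩ Crit 𝕍 h).Finite ∧
      ∀ y ∈ K, ∃ x, y ∈ (c x).e.source ∧ ND (fun w => h ((c x).e.symm w)) ((c x).e y) := by
  classical
  have : ∀ x : K, ∃ A : Set E, IsCompact A ∧ A ⊆ (c x).e.target ∧ (c x).e.symm '' A ∈ 𝓝 x.1 ∧
      ∃ φ : M → E, ContMDiff 𝓘(ℝ, 𝕍) 𝓘(ℝ, E) ∞ φ ∧ (∀ y, y ∉ U → φ y = 0) ∧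
        ∀ z ∈ A, (fun w => φ ((c x).e.symm w)) =ᶠ[𝓝 z] id := fun x => by
    have hz := (c x).e.map_source (hc _ x.2)
    have e := (c x).e.left_inv (hc _ x.2)
    obtain ⟨b, hb, hbU⟩ := (c x).exists_bump hz (U := U) (by rw [e]; exact hU _ x.2)
    obtain ⟨φ, a1, a2, a3⟩ := (c x).exists_ext (v := fun w => b w • w)
      (b.contDiff.smul contDiff_id) (isCompact_closedBall _ b.rOut) hb fun w hw => by
        rw [b.zero_of_le_dist (not_le.1 fun h => hw (mem_closedBall.2 h)).le, zero_smul]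
    have hr := b.rIn_pos
    have hsub : closedBall ((c x).e x) (b.rIn / 2) ⊆ ball ((c x).e x) b.rIn :=
      closedBall_subset_ball (by linarith)
    have hsub' : ball ((c x).e x) b.rIn ⊆ (c x).e.target :=
      (ball_subset_closedBall.trans (closedBall_subset_closedBall b.rIn_lt_rOut.le)).trans hb
    refine ⟨_, isCompact_closedBall _ _, hsub.trans hsub', ?_, φ, a1,
      fun y hy => a3 y fun h => hy (hbU h), fun z hz => ?_⟩
    · have := (c x).image_mem_nhds hz (closedBall_mem_nhds _ (half_pos hr))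
      rwa [e] at this
    · filter_upwards [isOpen_ball.mem_nhds (hsub hz)] with w hw
      rw [a2 w (hsub' hw), b.one_of_mem_closedBall (ball_subset_closedBall hw), one_smul, id]
  choose A A1 A2 A3 φ φ1 φ2 φ3 using this
  obtain ⟨t, ht⟩ := hK.elim_nhds_subcover' (fun x hx => (c x).e.symm '' A ⟨x, hx⟩)
    fun x hx => A3 ⟨x, hx⟩
  suffices ∀ t : Finset K, ∃ h : M → ℝ, ContMDiff 𝓘(ℝ, 𝕍) 𝓘(ℝ, ℝ) ∞ h ∧ (∀ y, y ∉ U → h y = h₀ y) ∧
      (∀ z ∈ K₀, ND (fun w => h (c₀.e.symm w)) z) ∧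
      ∀ x ∈ t, ∀ z ∈ A x, ND (fun w => h ((c x).e.symm w)) z by
    obtain ⟨h, a1, a2, a3, a4⟩ := this t
    refine ⟨h, a1, a2, a3, (t.finite_toSet.biUnion fun x hx => (finite_crit (A1 x)
      fun z hz => ⟨(c x).contDiffAt_fun a1 (A2 x hz), a4 x hx z hz⟩).image (c x).e.symm).subset
        fun y hy => ?_, fun y hy => ?_⟩
    · obtain ⟨x, hx, z, hz, rfl⟩ := mem_iUnion₂.1 (ht hy.1)
      exact mem_biUnion hx ⟨z, ⟨hz, ((c x).crit_iff a1 (A2 x hz)).1 hy.2⟩, rfl⟩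
    · obtain ⟨x, hx, z, hz, rfl⟩ := mem_iUnion₂.1 (ht hy)
      refine ⟨x, (c x).e.map_target (A2 x hz), ?_⟩
      rw [(c x).e.right_inv (A2 x hz)]
      exact a4 x hx z hz
  intro t
  induction t using Finset.induction_on with
  | empty => exact ⟨h₀, hh, fun _ _ => rfl, hn, by simp⟩
  | insert x t hxt ih =>
    obtain ⟨h, a1, a2, a3, a4⟩ := ih
    have e0 := eventually_ND hK₀ fun z hz => ⟨c₀.contDiffAt_fun a1 (hK₀t hz),
      c₀.contDiffAt_fun (φ1 x) (hK₀t hz), a3 z hz⟩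
    have e1 := (Finset.eventually_all t).2 fun w hw => eventually_ND (A1 w) fun z hz =>
      ⟨(c w).contDiffAt_fun a1 (A2 w hz), (c w).contDiffAt_fun (φ1 x) (A2 w hz), a4 w hw z hz⟩
    obtain ⟨l, b1, b2, b3⟩ := ((frequently_ND fun z hz =>
      ⟨(c x).contDiffAt_fun a1 (A2 x hz), φ3 x z hz⟩).and_eventually (e0.and e1)).exists
    refine ⟨fun y => h y + (l.1 * (φ x y).1 + l.2 * (φ x y).2), a1.add
      ((show ContDiff ℝ ∞ fun v : E => l.1 * v.1 + l.2 * v.2 by fun_prop).contMDiff.comp (φ1 x)),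
      fun y hy => by simp [φ2 x y hy, a2 y hy], b2, fun w hw => ?_⟩
    rcases Finset.mem_insert.1 hw with rfl | hw
    exacts [b1, b3 w hw]

end Pool.Agent.Lib.MP_fe72db_an.Surf
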