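import Pool.Agent.Lib.MP_fe72db_an.Surf.Henon
import Pool.Agent.Lib.MP_fe72db_an.Surf.Morse

/-! The model functions: a quadratic bowl and a cubic with a maximum, a minimum and two saddles. -/

open Filter Topology Set Metric
open scoped ContDiff

namespace Pool.Agent.Lib.MP_fe72db_an.Surf

/-- Squared distance to the centre of the cubic. -/
def mm (z : E) : ℝ := (z.1 - 40) ^ 2 + z.2 ^ 2

/-- The cubic. -/
noncomputable def cub (z : E) : ℝ := (z.1 - 40) * ((z.1 - 40) ^ 2 / 3 - 1 + z.2 ^ 2)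

/-- The bowl. -/
def nq (z : E) : ℝ := z.1 ^ 2 + 16 * z.2 ^ 2

/-- The rotated gradient of the cubic. -/
def Xc (z : E) : E := ((z.1 - 40 - z.2) ^ 2 - 1, (z.1 - 40 + z.2) ^ 2 - 1)

lemma contDiff_mm : ContDiff ℝ ∞ mm := by unfold mm; fun_prop

lemma contDiff_cub : ContDiff ℝ ∞ cub := by unfold cub; fun_prop

lemma contDiff_nq : ContDiff ℝ ∞ nq := by unfold nq; fun_prop

lemma grad_eq_of {u : E → ℝ} {z : E} {A : E →L[ℝ] ℝ} (h : HasFDerivAt u A z) :
    grad u z = (A (1, 0), A (0, 1)) := by rw [grad, h.fderiv]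

lemma d1 (z : E) : HasFDerivAt (fun w : E => w.1 - 40) (ContinuousLinearMap.fst ℝ ℝ ℝ) z :=
  hasFDerivAt_fst.sub_const 40

lemma d2 (z : E) : HasFDerivAt (fun w : E => w.2) (ContinuousLinearMap.snd ℝ ℝ ℝ) z :=
  hasFDerivAt_snd

lemma grad_cub : grad cub = fun z => ((z.1 - 40) ^ 2 - 1 + z.2 ^ 2, 2 * ((z.1 - 40) * z.2)) := by
  funext z
  rw [grad_eq_of (u := cub) ((d1 z).fun_mul ((((d1 z).pow 2).mul_const (1 / 3)).sub_const 1
    |>.fun_add ((d2 z).pow 2)) |>.congr_of_eventuallyEq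
      (Eventually.of_forall fun w => by simp only [cub]; ring))]
  ext <;> simp <;> ring

lemma grad_nq : grad nq = fun z => (2 * z.1, 32 * z.2) := by
  funext z
  rw [grad_eq_of (u := nq) ((hasFDerivAt_fst.pow 2).fun_add (((d2 z).pow 2).const_mul 16))]
  ext <;> simp <;> ring

lemma ND_cub (z : E) : ND cub z := by
  rw [ND, grad_cub, ((((d1 z).pow 2).sub_const 1 |>.fun_add ((d2 z).pow 2)).prodMk
    (((d1 z).fun_mul (d2 z)).const_mul 2)).fderiv]
  intro h
  have h1 : (z.1 - 40) ^ 2 - 1 + z.2 ^ 2 = 0 := congrArg Prod.fst h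
  have h2 : 2 * ((z.1 - 40) * z.2) = 0 := congrArg Prod.snd h
  simp only [dt]
  simp
  intro h3
  nlinarith [sq_nonneg (z.1 - 40), sq_nonneg z.2]

lemma ND_nq (z : E) : ND nq z := by
  rw [ND, grad_nq, ((hasFDerivAt_fst.const_mul 2).prodMk ((d2 z).const_mul 32)).fderiv]
  simp [dt]

lemma fderiv_Xc (z v : E) : fderiv ℝ Xc z v =
    (2 * (z.1 - 40 - z.2) * (v.1 - v.2), 2 * (z.1 - 40 + z.2) * (v.1 + v.2)) := by
  rw [show fderiv ℝ Xc z = _ from (((((d1 z).fun_sub (d2 z)).pow 2).sub_const 1).prodMk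
    ((((d1 z).fun_add (d2 z)).pow 2).sub_const 1)).fderiv]
  ext <;> simp <;> ring

lemma nq_eq (z : E) : nq z = ‖PP z‖ ^ 2 := (norm_PP_sq z).symm

lemma of_mm_lt {z : E} (h : mm z < 12) : 36 ≤ ‖PP z‖ ∧ ‖PP z‖ < 48 := by
  unfold mm at h
  refine ⟨le_trans ?_ (abs_le_PP z).1, ?_⟩
  · exact le_abs.2 (Or.inl (by nlinarith [sq_nonneg z.2]))
  · rw [← sq_lt_sq₀ (norm_nonneg _) (by norm_num), norm_PP_sq]
    nlinarith [sq_nonneg (z.1 - 43)]

lemma mm_near {z w : E} (h : mm z < 3) (hw : ‖w - z‖ ≤ 1 / 10) : mm w < 5 := by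
  have h1 := abs_le.1 ((norm_fst_le (w - z)).trans hw)
  have h2 := abs_le.1 ((norm_snd_le (w - z)).trans hw)
  simp only [Prod.fst_sub, Prod.snd_sub] at h1 h2
  unfold mm at *
  have a1 : |z.1 - 40| ≤ 2 := abs_le_of_sq_le_sq' (by nlinarith [sq_nonneg z.2]) (by norm_num) |>
    abs_le.2
  have a2 : |z.2| ≤ 2 := abs_le_of_sq_le_sq' (by nlinarith [sq_nonneg (z.1 - 40)]) (by norm_num) |>
    abs_le.2
  rw [abs_le] at a1 a2
  nlinarith

lemma norm_PP_le (v : E) : ‖PP v‖ ≤ 5 * ‖v‖ := by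
  rw [← sq_le_sq₀ (norm_nonneg _) (by positivity), norm_PP_sq, mul_pow]
  have h1 := sq_le_sq' (abs_le.1 (norm_fst_le v)).1 (abs_le.1 (norm_fst_le v)).2
  have h2 := sq_le_sq' (abs_le.1 (norm_snd_le v)).1 (abs_le.1 (norm_snd_le v)).2
  nlinarith [sq_nonneg ‖v‖]

/-- The invariant half ellipses. -/
def Qs (s t : ℝ) : Set E := {z | 0 ≤ s * (z.1 - 40) ∧ s * cub z ≤ -t}

lemma Qs_sub {s t : ℝ} (ht : 0 < t) {z : E} (h : z ∈ Qs s t) : mm z < 3 ∧ 0 < s * (z.1 - 40) := by
  obtain ⟨h1, h2⟩ := h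
  rw [cub, ← mul_assoc] at h2
  have h3 : (z.1 - 40) ^ 2 / 3 - 1 + z.2 ^ 2 < 0 := by
    by_contra h
    linarith [mul_nonneg h1 (not_lt.1 h)]
  refine ⟨by unfold mm; nlinarith [sq_nonneg z.2], lt_of_le_of_ne h1 fun e => ?_⟩
  rw [← e] at h2
  linarith

lemma isCompact_Qs (s : ℝ) {t : ℝ} (ht : 0 < t) : IsCompact (Qs s t) :=
  (isCompact_PP 48).of_isClosed_subset (IsClosed.inter
    (isClosed_le continuous_const (show Continuous fun z : E => s * (z.1 - 40) by fun_prop))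
    (isClosed_le (show Continuous fun z => s * cub z from
      continuous_const.mul contDiff_cub.continuous) continuous_const))
    fun z hz => (of_mm_lt (by linarith [(Qs_sub ht hz).1])).2.le

lemma sign_const {z v : E} {ε : ℝ} (hε : 0 ≤ ε) (h : ∀ θ ∈ Icc 0 ε, cub (z - θ • v) ≠ 0) :
    0 < (z.1 - 40) * ((z - ε • v).1 - 40) := by
  by_contra hc
  obtain ⟨θ, hθ, e⟩ := intermediate_value_uIcc (f := fun θ : ℝ => (z - θ • v).1 - 40) (a := 0)
    (b := ε) (by fun_prop) (show (0 : ℝ) ∈ uIcc _ _ by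
      simp only [zero_smul, sub_zero, mem_uIcc]
      rcases mul_nonpos_iff.1 (not_lt.1 hc) with h | h
      exacts [Or.inr ⟨h.2, h.1⟩, Or.inl h])
  rw [uIcc_of_le hε] at hθ
  exact h θ hθ (by simp only at e; rw [cub, e, zero_mul])

lemma eq_of_grad_cub {s : ℝ} (hs : s ^ 2 = 1) {z : E} (h : grad cub z = 0)
    (h1 : 0 < s * (z.1 - 40)) : z = (40 + s, 0) := by
  rw [grad_cub] at h
  have a1 : (z.1 - 40) ^ 2 - 1 + z.2 ^ 2 = 0 := congrArg Prod.fst h
  have a2 : 2 * ((z.1 - 40) * z.2) = 0 := congrArg Prod.snd h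
  have a3 : z.2 = 0 := by
    by_contra h
    rw [(mul_eq_zero.1 (show (z.1 - 40) * z.2 = 0 by linarith)).resolve_right h] at h1
    linarith
  rw [a3] at a1
  have a4 : s * (z.1 - 40) = 1 := by nlinarith
  ext
  · simp only; linear_combination s * a4 - (z.1 - 40) * hs
  · exact a3

/-- The initial function. -/
lemma exists_init : ∃ u : E → ℝ, ContDiff ℝ ∞ u ∧ (∀ z, mm z ≤ 7 → u z = cub z) ∧
    ∀ z, 9 ≤ mm z → u z = nq z := by
  refine ⟨fun z => nq z + Real.smoothTransition ((9 - mm z) / 2) * (cub z - nq z),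
    contDiff_nq.add ((Real.smoothTransition.contDiff.comp
      ((contDiff_const.sub contDiff_mm).div_const 2)).mul (contDiff_cub.sub contDiff_nq)),
    fun z hz => ?_, fun z hz => ?_⟩
  · simp only [Real.smoothTransition.one_of_one_le (show 1 ≤ (9 - mm z) / 2 by linarith)]; ring
  · simp only [Real.smoothTransition.zero_of_nonpos (show (9 - mm z) / 2 ≤ 0 by linarith)]; ring

/-- The gradient like vector field. -/
lemma exists_field {u : E → ℝ} (hu : ∀ z ∈ closedBall (0 : E) 80, ContDiffAt ℝ ∞ u z)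
    (h1 : ∀ z, mm z < 5 → u z = cub z) : ∃ X : E → E, ContDiff ℝ 1 X ∧
      (∀ z, 80 ≤ ‖z‖ ∨ ‖PP z‖ ≤ 23 ∨ grad u z = 0 → X z = 0) ∧
      (∀ z, ‖X z‖ ^ 2 ≤ 4 * fderiv ℝ u z (X z)) ∧
      (∀ z, 23 < ‖PP z‖ → ‖z‖ ≤ 70 → X z = 0 → grad u z = 0) ∧
      (∀ z, mm z < 2 → X z = Xc z) ∧ ∀ z, 4 < mm z → mm z < 12 → X z = grad u z := by
  let b : ContDiffBump (0 : E) := ⟨70, 80, by norm_num, by norm_num⟩
  let χ : E → ℝ := fun z => Real.smoothTransition (nq z - 529) * b z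
  let ρ : E → ℝ := fun z => Real.smoothTransition ((4 - mm z) / 2)
  have hρ : ContDiff ℝ ∞ ρ :=
    Real.smoothTransition.contDiff.comp ((contDiff_const.sub contDiff_mm).div_const 2)
  have χ0 : ∀ z, 0 ≤ χ z := fun z => mul_nonneg (Real.smoothTransition.nonneg _) b.nonneg
  have χ1 : ∀ z, χ z ≤ 1 := fun z => mul_le_one₀ (Real.smoothTransition.le_one _) b.nonneg b.le_one
  have hb : ∀ z, 80 ≤ ‖z‖ → χ z = 0 := fun z hz => by
    simp only [χ, b.zero_of_le_dist (show b.rOut ≤ dist z 0 by simpa using hz), mul_zero]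
  have hone : ∀ z, mm z < 12 → χ z = 1 := fun z hz => by
    have := of_mm_lt hz
    simp only [χ]
    rw [Real.smoothTransition.one_of_one_le (by rw [nq_eq]; nlinarith), b.one_of_mem_closedBall
      (mem_closedBall_zero_iff.2 ((norm_le_PP z).trans (by simp only [b]; linarith))), one_mul]
  have hd : ∀ z, fderiv ℝ u z (χ z • (grad u z + ρ z • (-(grad u z).2, (grad u z).1))) =
      χ z * ((grad u z).1 ^ 2 + (grad u z).2 ^ 2) := fun z => by
    rw [fderiv_eq_grad]; simp; ring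
  refine ⟨fun z => χ z • (grad u z + ρ z • (-(grad u z).2, (grad u z).1)), ?_, fun z hz => ?_,
    fun z => ?_, fun z a1 a2 a3 => ?_, fun z hz => ?_, fun z a1 a2 => ?_⟩
  · refine contDiff_smul_of_supp isClosed_closedBall (((Real.smoothTransition.contDiff.comp
      (contDiff_nq.sub contDiff_const)).mul b.contDiff).of_le (by norm_cast))
      (fun z hz => hb z (not_le.1 fun h => hz (mem_closedBall_zero_iff.2 h)).le) fun z hz => ?_
    have := contDiffAt_grad (hu z hz)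
    exact (this.add (hρ.contDiffAt.smul (this.snd.neg.prodMk this.fst))).of_le (by norm_cast)
  · rcases hz with hz | hz | hz
    · simp only [hb z hz, zero_smul]
    · simp only [χ]
      rw [Real.smoothTransition.zero_of_nonpos (by rw [nq_eq]; nlinarith [norm_nonneg (PP z)])]
      simp
    · simp [hz]
  · rw [hd, norm_smul, Real.norm_of_nonneg (χ0 z), mul_pow]
    have a1 := norm_sq_le (grad u z + ρ z • (-(grad u z).2, (grad u z).1))
    have a2 : χ z ^ 2 ≤ χ z := pow_le_of_le_one (χ0 z) (χ1 z) two_ne_zero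
    have a3 : ρ z ^ 2 ≤ 1 :=
      pow_le_one₀ (Real.smoothTransition.nonneg _) (Real.smoothTransition.le_one _)
    simp only [Prod.fst_add, Prod.snd_add, Prod.smul_fst, Prod.smul_snd, smul_eq_mul] at a1
    have a4 : 0 ≤ (grad u z).1 ^ 2 + (grad u z).2 ^ 2 := by positivity
    have a5 : ‖grad u z + ρ z • (-(grad u z).2, (grad u z).1)‖ ^ 2 ≤
        4 * ((grad u z).1 ^ 2 + (grad u z).2 ^ 2) := by nlinarith [mul_le_mul_of_nonneg_right a3 a4]
    calc _ ≤ χ z * (4 * ((grad u z).1 ^ 2 + (grad u z).2 ^ 2)) :=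
          mul_le_mul a2 a5 (by positivity) (χ0 z)
      _ = _ := by ring
  · have h2 := hd z
    simp only at a3
    rw [a3, map_zero] at h2
    have h3 : 0 < χ z := by
      simp only [χ]
      rw [b.one_of_mem_closedBall (mem_closedBall_zero_iff.2 a2), mul_one]
      exact Real.smoothTransition.pos_of_pos (by rw [nq_eq]; nlinarith)
    have h4 := (mul_eq_zero.1 h2.symm).resolve_left h3.ne'
    have h5 := norm_sq_le (grad u z)
    rw [h4] at h5
    exact norm_eq_zero.1 (pow_eq_zero_iff two_ne_zero |>.1 (le_antisymm h5 (sq_nonneg _)))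
  · have e : u =ᶠ[𝓝 z] cub := by
      filter_upwards [contDiff_mm.continuous.continuousAt.eventually_lt continuousAt_const
        (show mm z < 5 by linarith)] using h1
    simp only [hone z (by linarith), ρ, one_smul, (grad_congr e).self_of_nhds, grad_cub,
      Real.smoothTransition.one_of_one_le (show 1 ≤ (4 - mm z) / 2 by linarith)]
    ext <;> simp [Xc] <;> ring
  · simp only [hone z a2, ρ, one_smul, zero_smul, add_zero,
      Real.smoothTransition.zero_of_nonpos (show (4 - mm z) / 2 ≤ 0 by linarith)]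

end Pool.Agent.Lib.MP_fe72db_an.Surf
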