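import Mathlib

/-!
Definitions for `C^1` diffeomorphisms of a compact surface: the `C^1` topology, Axiom A,
no cycles, homoclinic classes and centralizers.
-/

open Filter Topology Bundle
open scoped Manifold ContDiff

namespace Pool.Agent.Lib.MP_fe72db_an.Surf

variable {V M : Type} [NormedAddCommGroup V] [NormedSpace ℝ V]
  [TopologicalSpace M] [ChartedSpace V M] [IsManifold 𝓘(ℝ, V) ∞ M]

variable (V M) in
/-- Continuous Riemannian metrics on `M`. -/
abbrev RMetric : Type := ContinuousRiemannianMetric V (fun x : M => TangentSpace 𝓘(ℝ, V) x)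

variable (V M) in
/-- The group of `C^1` diffeomorphisms of `M`. -/
def Diff1 : Subgroup (Equiv.Perm M) where
  carrier := {f | ContMDiff 𝓘(ℝ, V) 𝓘(ℝ, V) 1 f ∧ ContMDiff 𝓘(ℝ, V) 𝓘(ℝ, V) 1 (f⁻¹ : Equiv.Perm M)}
  one_mem' := ⟨contMDiff_id, contMDiff_id⟩
  mul_mem' := fun hf hg => ⟨hf.1.comp hg.1, hg.2.comp hf.2⟩
  inv_mem' := fun hf => ⟨hf.2, hf.1⟩

/-- The tangent map of a diffeomorphism, as a continuous self map of the tangent bundle. -/
noncomputable def tmap (f : Diff1 V M) : C(TangentBundle 𝓘(ℝ, V) M, TangentBundle 𝓘(ℝ, V) M) :=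
  ⟨tangentMap 𝓘(ℝ, V) 𝓘(ℝ, V) f.1, f.2.1.continuous_tangentMap le_rfl⟩

/-- The `C^1` topology: compact-open convergence of tangent maps. -/
noncomputable instance c1Topology : TopologicalSpace (Diff1 V M) :=
  TopologicalSpace.induced tmap ContinuousMap.compactOpen

variable (V) in
/-- The derivative of `f` at `x`, a linear map from the tangent space at `x` to the tangent space
at `f x` (in Mathlib both are copies of the model space `V`). -/
noncomputable def D (f : M → M) (x : M) : V →L[ℝ] V := mfderiv 𝓘(ℝ, V) 𝓘(ℝ, V) f x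

/-- The Riemannian length of a tangent vector `v` at `x`. -/
noncomputable def nrm (g : RMetric V M) (x : M) (v : V) : ℝ := √(g.inner x v v)

/-- The full orbit of a point. -/
def orbit (f : Equiv.Perm M) (x : M) : Set M := Set.range fun n : ℤ => (f ^ n) x

/-- The nonwandering set. -/
def nonwandering (f : Equiv.Perm M) : Set M :=
  {x | ∀ U ∈ 𝓝 x, ∃ n : ℕ, 1 ≤ n ∧ ∃ y ∈ U, (f ^ n) y ∈ U}

/-- Uniform hyperbolicity of `f` over `Λ`. -/
def IsHyperbolic (g : RMetric V M) (f : Equiv.Perm M) (Λ : Set M) : Prop :=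
  ∃ (Es Eu : M → Submodule ℝ V) (C lam : ℝ), 0 < C ∧ 0 < lam ∧ lam < 1 ∧ ∀ x ∈ Λ,
    IsCompl (Es x) (Eu x) ∧
    (Es x).map (D V f x).toLinearMap = Es (f x) ∧ (Eu x).map (D V f x).toLinearMap = Eu (f x) ∧
    ∀ n : ℕ,
      (∀ v ∈ Es x, nrm g ((f ^ n) x) (D V (f ^ n : Equiv.Perm M) x v) ≤ C * lam ^ n * nrm g x v) ∧
      (∀ v ∈ Eu x,
        nrm g ((f⁻¹ ^ n) x) (D V (f⁻¹ ^ n : Equiv.Perm M) x v) ≤ C * lam ^ n * nrm g x v)

/-- The stable set of `Λ`: points whose forward orbit eventually stays in every neighbourhood of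
`Λ`; the unstable set is the stable set for `f⁻¹`. -/
def Ws (f : Equiv.Perm M) (Λ : Set M) : Set M :=
  {x | Tendsto (fun n : ℕ => (f ^ n) x) atTop (𝓝ˢ Λ)}

/-- Axiom A. -/
def AxiomA (g : RMetric V M) (f : Equiv.Perm M) : Prop :=
  IsHyperbolic g f (nonwandering f) ∧ nonwandering f ⊆ closure (Function.periodicPts f)

/-- The nonwandering set splits into finitely many basic sets (pairwise disjoint, closed,
invariant, transitive), with no cycle through distinct basic sets. -/
def NoCycles (f : Equiv.Perm M) : Prop :=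
  ∃ (k : ℕ) (Λ : Fin k → Set M),
    (∀ i, IsClosed (Λ i) ∧ f '' Λ i = Λ i ∧ ∃ x ∈ Λ i, Λ i ⊆ closure (orbit f x)) ∧
    (∀ i j, i ≠ j → Disjoint (Λ i) (Λ j)) ∧ ⋃ i, Λ i = nonwandering f ∧
    ∀ i, ¬ Relation.TransGen
      (fun a b => a ≠ b ∧ ((Ws f⁻¹ (Λ a) ∩ Ws f (Λ b)) \ nonwandering f).Nonempty) i i

/-- Vectors at `x` contracted to zero by the forward derivative cocycle; at a point of the
stable manifold of a hyperbolic periodic orbit this is the tangent space of that manifold. -/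
def stableVec (g : RMetric V M) (f : Equiv.Perm M) (x : M) : Set V :=
  {v | Tendsto (fun n : ℕ => nrm g ((f ^ n) x) (D V (f ^ n : Equiv.Perm M) x v)) atTop (𝓝 0)}

/-- The homoclinic class of `p`. -/
def homoclinicClass (g : RMetric V M) (f : Equiv.Perm M) (p : M) : Set M :=
  closure {x | x ∈ Ws f (orbit f p) ∧ x ∈ Ws f⁻¹ (orbit f p) ∧
    ∀ w : V, ∃ v ∈ stableVec g f x, ∃ v' ∈ stableVec g f⁻¹ x, w = v + v'}

/-- Axiom A diffeomorphisms with no cycles and a nontrivial homoclinic class. -/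
def O (g : RMetric V M) : Set (Diff1 V M) :=
  {f | AxiomA g f.1 ∧ NoCycles f.1 ∧ ∃ p ∈ Function.periodicPts f.1,
    IsHyperbolic g f.1 (orbit f.1 p) ∧ homoclinicClass g f.1 p ≠ orbit f.1 p}

/-- The centralizer of `f` in the group of `C^1` diffeomorphisms consists of the powers of `f`. -/
def TrivialCentralizer (f : Diff1 V M) : Prop :=
  Subgroup.centralizer {f} = Subgroup.zpowers f

end Pool.Agent.Lib.MP_fe72db_an.Surf
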