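import Pool.Agent.Lib.MP_fe72db_an.Surf.Model
import Pool.Agent.Lib.MP_fe72db_an.Surf.Assemble

/-! The example on an arbitrary compact surface. -/

open Filter Topology Set Metric
open scoped Manifold ContDiff

namespace Pool.Agent.Lib.MP_fe72db_an.Surf

set_option linter.unusedSectionVars false

open Pool.Agent.Lib.MP_fe72db_an renaming D → TD, Diff1 → TDiff

variable {𝕍 M : Type} [NormedAddCommGroup 𝕍] [NormedSpace ℝ 𝕍] [FiniteDimensional ℝ 𝕍]
  [TopologicalSpace M] [ChartedSpace 𝕍 M] [IsManifold 𝓘(ℝ, 𝕍) ∞ M] [T2Space M]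
  [CompactSpace M] {g : RMetric 𝕍 M}

lemma exists_torus {Φ : Equiv.Perm E} (h1 : ContDiff ℝ 1 Φ)
    (h2 : ContDiff ℝ 1 (Φ⁻¹ : Equiv.Perm E)) (hs : ∀ z, 80 ≤ ‖z‖ → Φ z = z) :
    ∃ F ∈ TDiff, ∀ z, ‖z‖ < 100 → (F (proj ((200 : ℝ)⁻¹ • z)) = proj ((200 : ℝ)⁻¹ • Φ z) ∧
      TD F (proj ((200 : ℝ)⁻¹ • z)) = fderiv ℝ Φ z) ∧
      F⁻¹ (proj ((200 : ℝ)⁻¹ • z)) = proj ((200 : ℝ)⁻¹ • Φ⁻¹ z) ∧
      TD (F⁻¹ : Equiv.Perm T) (proj ((200 : ℝ)⁻¹ • z)) = fderiv ℝ (Φ⁻¹ : Equiv.Perm E) z := by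
  let S : Equiv.Perm E := MulAction.toPerm (Units.mk0 (200 : ℝ) (by norm_num))
  have hd : ∀ {G : E → E}, ContDiff ℝ 1 G →
      ContDiff ℝ 1 (fun w => (200 : ℝ)⁻¹ • G ((200 : ℝ) • w)) := fun hG =>
    (hG.comp (contDiff_id.const_smul _)).const_smul _
  have key : ∀ {G : E → E}, ContDiff ℝ 1 G → Supp (fun w => (200 : ℝ)⁻¹ • G ((200 : ℝ) • w)) →
      ∀ z, ‖z‖ < 100 → tp 0 (fun w => (200 : ℝ)⁻¹ • G ((200 : ℝ) • w)) (proj ((200 : ℝ)⁻¹ • z)) =
        proj ((200 : ℝ)⁻¹ • G z) ∧ TD (tp 0 fun w => (200 : ℝ)⁻¹ • G ((200 : ℝ) • w))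
          (proj ((200 : ℝ)⁻¹ • z)) = fderiv ℝ G z := by
    intro G hG hS z hz
    have e : lift (proj ((200 : ℝ)⁻¹ • z) - 0) = (200 : ℝ)⁻¹ • z := by
      rw [sub_zero, lift_proj (by rw [norm_smul]; norm_num; linarith)]
    have e' : (200 : ℝ) • (200 : ℝ)⁻¹ • z = z := smul_inv_smul₀ (by norm_num) z
    refine ⟨by rw [tp, e, e', zero_add], ?_⟩
    have a1 : HasFDerivAt G (fderiv ℝ G z) ((200 : ℝ) • (200 : ℝ)⁻¹ • z) :=
      e'.symm ▸ (hG.differentiable one_ne_zero z).hasFDerivAt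
    have a2 : HasFDerivAt (fun w => (200 : ℝ)⁻¹ • G ((200 : ℝ) • w)) _ ((200 : ℝ)⁻¹ • z) :=
      (HasFDerivAt.comp (f := fun w : E => (200 : ℝ) • w) _ a1
        ((hasFDerivAt_id _).const_smul (200 : ℝ))).const_smul (200 : ℝ)⁻¹
    rw [D_tp 0 (hd hG) hS, e, a2.fderiv]
    refine ContinuousLinearMap.ext fun v => ?_
    simp [smul_smul]
  have hS : Supp (S⁻¹ * Φ * S : Equiv.Perm E) := ⟨2 / 5, by norm_num, fun v hv => by
    change (200 : ℝ)⁻¹ • Φ ((200 : ℝ) • v) = v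
    rw [hs _ (by rw [norm_smul]; norm_num; linarith), inv_smul_smul₀ (by norm_num)]⟩
  exact ⟨tpPerm 0 _ hS, tpPerm_mem 0 hS (hd h1) (hd h2), fun z hz =>
    ⟨key h1 hS z hz, key h2 hS.inv z hz⟩⟩

lemma robustP (c : Ch 𝕍 M) (hc : closedBall 0 100 ⊆ c.e.target) {f₀ : Diff1 𝕍 M} {Φ : Equiv.Perm E}
    (h1 : ContDiff ℝ 1 Φ) (h2 : ContDiff ℝ 1 (Φ⁻¹ : Equiv.Perm E)) (hs : ∀ z, 80 ≤ ‖z‖ → Φ z = z)
    (m : ∀ z, ‖PP z‖ ≤ 50 → ‖PP (Φ z)‖ < 50)
    (e : ∀ z, ‖PP z‖ < 55 → f₀.1 (c.e.symm z) = c.e.symm (Φ z)) {p r x : E} (hp₀ : ‖PP p‖ < 50)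
    (hr₀ : ‖PP r‖ < 50) (hx : ‖x‖ < 100) (hpr : p ≠ r) (hp : Φ p = p) (hr : Φ r = r)
    (cp : Cplx (fderiv ℝ Φ p)) (cr : Cplx (fderiv ℝ (Φ⁻¹ : Equiv.Perm E) r))
    (t1 : Tendsto (fun n : ℕ => (Φ ^ n) x) atTop (𝓝 p))
    (t2 : Tendsto (fun n : ℕ => (Φ⁻¹ ^ n) x) atTop (𝓝 r)) :
    ∀ᶠ f : Diff1 𝕍 M in 𝓝 f₀, f.1 ∈ OP g → ∀ N ∈ 𝓝 f, ∃ k ∈ N, k.1 ∈ OP g ∧
      ¬ TrivialCentralizer k := by
  obtain ⟨F, hF, H⟩ := exists_torus h1 h2 hs
  obtain ⟨c', a1, a2⟩ := c.exists_aff 0 (σ := 200) (by norm_num)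
  set π : E → T := fun z => proj ((200 : ℝ)⁻¹ • z) with hπ
  have πc : Continuous π := continuous_proj.comp (continuous_const_smul _)
  have πo : IsOpenMap π := isOpenMap_proj.comp (isOpenMap_smul₀ (by norm_num))
  have hb : ∀ z : E, ‖z‖ < 100 → (200 : ℝ)⁻¹ • z ∈ ball (0 : E) (1 / 2) := fun z hz => by
    rw [mem_ball_zero_iff, norm_smul]; norm_num; linarith
  have hj : ∀ z, ‖z‖ < 100 → c'.j (π z) = c.e.symm z := fun z hz => by
    rw [Ch.j_proj (hb z hz), a1, zero_add, smul_inv_smul₀ (by norm_num)]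
  have hin : ∀ {G : Equiv.Perm E}, (∀ z, 80 ≤ ‖z‖ → G z = z) → ∀ z, ‖z‖ < 100 → ‖G z‖ < 100 :=
    fun {G} hG z hz => by
      by_contra h
      rw [G.injective (hG _ (by linarith))] at h
      exact h hz
  have hs' : ∀ z, 80 ≤ ‖z‖ → Φ⁻¹ z = z := fun z hz => Equiv.Perm.inv_eq_iff_eq.2 (hs z hz).symm
  have hit : ∀ {G : Equiv.Perm E} {K : Equiv.Perm T}, (∀ z, 80 ≤ ‖z‖ → G z = z) →
      (∀ z, ‖z‖ < 100 → K (π z) = π (G z)) → ∀ n : ℕ, ‖(G ^ n) x‖ < 100 ∧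
        π ((G ^ n) x) = (K ^ n) (π x) := fun {G K} hG hK n => by
    induction n with
    | zero => exact ⟨hx, rfl⟩
    | succ n ih =>
      rw [pow_succ', pow_succ', Equiv.Perm.mul_apply, Equiv.Perm.mul_apply, ← ih.2, hK _ ih.1]
      exact ⟨hin hG _ ih.1, rfl⟩
  have n1 : ∀ {z : E}, ‖PP z‖ ≤ 55 → ‖z‖ < 100 := fun h => (norm_le_PP _).trans_lt (by linarith)
  have hint : ∀ z, ‖PP z‖ < 50 → π z ∈ interior (π '' {z | ‖PP z‖ ≤ 50}) := fun z hz =>
    interior_maximal (image_mono fun w (hw : ‖PP w‖ < 50) => hw.le)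
      (πo _ (isOpen_lt PP.continuous.norm continuous_const)) (mem_image_of_mem _ hz)
  have hp1 := n1 (hp₀.le.trans (by norm_num))
  have hr1 := n1 (hr₀.le.trans (by norm_num))
  refine robustM (c := c') (fun w hw => a2 w (hc ?_)) hF ((isCompact_PP 50).image πc).isClosed
    ?_ (πo _ (isOpen_lt PP.continuous.norm (continuous_const (y := 55))))
    (image_mono fun w (hw : ‖PP w‖ ≤ 50) => hw.trans_lt (by norm_num)) ?_ ?_ (hint p hp₀)
    (hint r hr₀) (fun h => hpr ?_) (by rw [(H p hp1).1.1, hp])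
    (by rw [(H r hr1).2.1, Equiv.Perm.inv_eq_iff_eq.2 hr.symm]) (by rwa [(H p hp1).1.2])
    (by rwa [(H r hr1).2.2]) (x₀ := π x)
    (((πc.tendsto p).comp t1).congr fun n => (hit hs (fun z hz => (H z hz).1.1) n).2)
    (((πc.tendsto r).comp t2).congr fun n => (hit hs' (fun z hz => (H z hz).2.1) n).2)
  · rw [mem_ball_zero_iff] at hw
    rw [zero_add, mem_closedBall_zero_iff, norm_smul]; norm_num; linarith
  · rintro _ ⟨z, hz, rfl⟩
    exact proj_mem (hb z (n1 (le_trans hz (by norm_num))))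
  · rintro _ ⟨z, hz, rfl⟩
    rw [(H z (n1 (le_trans hz (by norm_num)))).1.1]
    exact hint _ (m z hz)
  · rintro _ ⟨z, hz, rfl⟩
    have := n1 (le_of_lt hz)
    rw [(H z this).1.1, hj z this, hj _ (hin hs z this), e z hz]
  · have := congrArg lift h
    rwa [lift_proj' (hb p hp1), lift_proj' (hb r hr1), smul_right_inj (by norm_num)] at this

lemma exists_morse' (hV : Module.finrank ℝ 𝕍 = 2) (c : Ch 𝕍 M) (hc : closedBall 0 100 ⊆ c.e.target) :
    ∃ h : M → ℝ, ContMDiff 𝓘(ℝ, 𝕍) 𝓘(ℝ, ℝ) ∞ h ∧ (Crit 𝕍 h).Finite ∧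
      (∀ x, ∃ c' : Ch 𝕍 M, x ∈ c'.e.source ∧ ND (fun w => h (c'.e.symm w)) (c'.e x)) ∧
      (∀ z ∈ ball (0 : E) 90, ND (fun w => h (c.e.symm w)) z) ∧
      (∀ z, mm z < 5 → h (c.e.symm z) = cub z) ∧
      ∀ z, 11 < mm z → ‖z‖ < 85 → h (c.e.symm z) = nq z := by
  have ht : ∀ {z : E} {r : ℝ}, ‖z‖ ≤ r → r ≤ 100 → z ∈ c.e.target := fun h h' =>
    hc (mem_closedBall_zero_iff.2 (h.trans h'))
  have hb : ∀ {r : ℝ}, r ≤ 100 → closedBall (0 : E) r ⊆ c.e.target := fun h z hz =>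
    ht (mem_closedBall_zero_iff.1 hz) h
  have hm : ∀ {z : E}, mm z < 12 → ‖z‖ ≤ 48 := fun h => (norm_le_PP _).trans (of_mm_lt h).2.le
  obtain ⟨u, u1, u2, u3⟩ := exists_init
  let b : ContDiffBump (0 : E) := ⟨95, 100, by norm_num, by norm_num⟩
  obtain ⟨h₀, a1, a2, -⟩ := c.exists_ext (v := fun z => b z * u z) (b.contDiff.mul u1)
    (isCompact_closedBall 0 100) hc fun w hw => by
      rw [b.zero_of_le_dist (not_le.1 fun h => hw (mem_closedBall.2 h)).le, zero_mul]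
  have a3 : ∀ z, ‖z‖ < 95 → h₀ (c.e.symm z) = u z := fun z hz => by
    rw [a2 z (ht hz.le (by norm_num)), b.one_of_mem_closedBall (mem_closedBall_zero_iff.2 hz.le),
      one_mul]
  have mc := contDiff_mm.continuous
  have hS : IsCompact {z | 6 ≤ mm z ∧ mm z ≤ 10} := (isCompact_closedBall 0 48).of_isClosed_subset
    ((isClosed_le continuous_const mc).inter (isClosed_le mc continuous_const))
    fun z hz => mem_closedBall_zero_iff.2 (hm (by linarith [hz.2]))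
  obtain ⟨h₁, b1, b2, b3, -, b5⟩ := exists_morse a1 c
    (K₀ := closedBall 0 90 ∩ ({z | mm z ≤ 6} ∪ {z | 10 ≤ mm z}))
    ((isCompact_closedBall 0 90).inter_right
      ((isClosed_le mc continuous_const).union (isClosed_le continuous_const mc)))
    (inter_subset_left.trans (hb (by norm_num))) (fun z hz => by
      have e := continuous_norm.continuousAt.eventually_lt continuousAt_const
        ((mem_closedBall_zero_iff.1 hz.1).trans_lt (show (90 : ℝ) < 95 by norm_num))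
      rcases hz.2 with h | h
      · refine (ND_cub z).congr ?_
        filter_upwards [e, ev_mm_lt (h.trans_lt (show (6 : ℝ) < 7 by norm_num))] with w d1 d2
        rw [a3 w d1, u2 w d2.le]
      · refine (ND_nq z).congr ?_
        filter_upwards [e, ev_lt_mm ((show (9 : ℝ) < 10 by norm_num).trans_le h)] with w d1 d2
        rw [a3 w d1, u3 w d2.le])
    (c.isCompact_image hS fun z hz => ht (hm (by linarith [hz.2])) (by norm_num))
    (U := c.e.symm '' {z | 5 < mm z ∧ mm z < 11}) (by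
      rintro _ ⟨z, hz, rfl⟩
      exact c.image_mem_nhds (ht (hm (by linarith [hz.2])) (by norm_num))
        ((ev_lt_mm (by linarith [hz.1])).and (ev_mm_lt (by linarith [hz.2])))) (fun _ => c) (by
      rintro _ ⟨z, hz, rfl⟩
      exact c.e.map_target (ht (hm (by linarith [hz.2])) (by norm_num)))
  have b6 : ∀ z ∈ closedBall (0 : E) 90, ND (fun w => h₁ (c.e.symm w)) z := fun z hz => by
    by_cases h : mm z ≤ 6 ∨ 10 ≤ mm z
    · exact b3 z ⟨hz, h⟩
    · push Not at h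
      obtain ⟨-, -, d⟩ := b5 _ (mem_image_of_mem _ ⟨h.1.le, h.2.le⟩)
      rwa [c.e.right_inv (hb (by norm_num) hz)] at d
  have b7 : ∀ z, ‖z‖ < 85 → ¬ (5 < mm z ∧ mm z < 11) → h₁ (c.e.symm z) = u z := fun z d1 d2 => by
    rw [b2, a3 z (by linarith)]
    rintro ⟨w, hw, e⟩
    rw [c.e.symm.injOn (ht (hm (by linarith [hw.2])) (by norm_num)) (ht d1.le (by norm_num)) e]
      at hw
    exact d2 hw
  choose c' hc' using Ch.exists_at (M := M) hV
  obtain ⟨h, d1, d2, d3, d4, d5⟩ := exists_morse b1 c (isCompact_closedBall 0 90) (hb (by norm_num))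
    b6 (K := (c.e.symm '' ball 0 90)ᶜ) (U := (c.e.symm '' closedBall 0 85)ᶜ)
    (c.e.isOpen_image_symm_of_subset_target isOpen_ball
      (ball_subset_closedBall.trans (hb (by norm_num)))).isClosed_compl.isCompact
    (fun x hx => (c.isCompact_image (isCompact_closedBall 0 85)
      (hb (by norm_num))).isClosed.isOpen_compl.mem_nhds fun h =>
        hx (image_mono (closedBall_subset_ball (by norm_num)) h)) c' fun x _ => hc' x
  have d6 : ∀ z, ‖z‖ < 85 → h (c.e.symm z) = h₁ (c.e.symm z) := fun z hz =>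
    d2 _ fun h => h (mem_image_of_mem _ (mem_closedBall_zero_iff.2 hz.le))
  refine ⟨h, d1, (d4.union ((finite_crit (isCompact_closedBall 0 90) fun z hz =>
    ⟨c.contDiffAt_fun d1 (hb (by norm_num) hz), d3 z hz⟩).image c.e.symm)).subset fun y hy => ?_,
    fun x => ?_, fun z hz => d3 z (ball_subset_closedBall hz), fun z hz => ?_, fun z e1 e2 => ?_⟩
  · by_cases e : y ∈ c.e.symm '' ball 0 90
    · obtain ⟨z, hz, rfl⟩ := e
      have := ball_subset_closedBall hz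
      exact Or.inr ⟨z, ⟨this, (c.crit_iff d1 (hb (by norm_num) this)).1 hy⟩, rfl⟩
    · exact Or.inl ⟨e, hy⟩
  · by_cases e : x ∈ c.e.symm '' ball 0 90
    · obtain ⟨z, hz, rfl⟩ := e
      have := hb (by norm_num) (ball_subset_closedBall hz)
      exact ⟨c, c.e.map_target this, by
        rw [c.e.right_inv this]; exact d3 z (ball_subset_closedBall hz)⟩
    · obtain ⟨y, hy⟩ := d5 x e
      exact ⟨_, hy⟩
  · have : ‖z‖ < 85 := (hm (by linarith)).trans_lt (by norm_num)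
    rw [d6 z this, b7 z this fun h => by linarith [h.1], u2 z (by linarith)]
  · rw [d6 z e2, b7 z e2 fun h => by linarith [h.2], u3 z (by linarith)]

theorem exists_example (hV : Module.finrank ℝ 𝕍 = 2) [Nonempty M] (g : RMetric 𝕍 M) :
    ∃ f₀ : Diff1 𝕍 M, f₀.1 ∈ OP g ∧
    ∀ᶠ f : Diff1 𝕍 M in 𝓝 f₀, f.1 ∈ OP g → ∀ N ∈ 𝓝 f, ∃ k ∈ N, k.1 ∈ OP g ∧
      ¬ TrivialCentralizer k := by
  obtain ⟨c, hc⟩ := Ch.exists_big (M := M) hV (show (0 : ℝ) < 100 by norm_num)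
  have ht : ∀ {z : E} {r : ℝ}, ‖z‖ ≤ r → r ≤ 100 → z ∈ c.e.target := fun h h' =>
    hc (mem_closedBall_zero_iff.2 (h.trans h'))
  have hb : ∀ {r : ℝ}, r ≤ 100 → closedBall (0 : E) r ⊆ c.e.target := fun h z hz =>
    ht (mem_closedBall_zero_iff.1 hz) h
  obtain ⟨h, h1, h2, h3, h4, h5, h6⟩ := exists_morse' hV c hc
  obtain ⟨Φ, P1, P2, P3, P4, P5, P6, P7, P8, P9, P10, P11, P12, P13, P14, P15⟩ :=
    exists_model (u := fun w => h (c.e.symm w)) (fun z hz => ⟨c.contDiffAt_fun h1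
      (hb (by norm_num) (ball_subset_closedBall hz)), h4 z hz⟩) h5 h6
  obtain ⟨k, k1, k2, k3⟩ := c.exists_tp P1 P2 (isCompact_closedBall 0 80) (hb (by norm_num))
    fun z hz => P3 z (not_le.1 fun h => hz (mem_closedBall_zero_iff.2 h)).le
  obtain ⟨Ψ, Q1, Q2, Q3, Q4, Q5⟩ := exists_outer h1 h2 h3 (K := (c.e.symm '' ball 0 70)ᶜ)
    (c.e.isOpen_image_symm_of_subset_target isOpen_ball
      (ball_subset_closedBall.trans (hb (by norm_num)))).isClosed_compl.isCompact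
    (c.isCompact_image (isCompact_closedBall 0 60) (hb (by norm_num))).isClosed
    fun x hx h => hx (image_mono (closedBall_subset_ball (by norm_num)) h)
  have hf := mul_mem_Diff1 Q1 k1
  have e : ∀ z ∈ c.e.target, ‖Φ z‖ ≤ 60 → (Ψ * k) (c.e.symm z) = c.e.symm (Φ z) := fun z a b => by
    rw [Equiv.Perm.mul_apply, (k2 z a).2, Q3 _ (mem_image_of_mem _ (mem_closedBall_zero_iff.2 b))]
  have e' : ∀ z, ‖PP z‖ < 55 → (Ψ * k) (c.e.symm z) = c.e.symm (Φ z) := fun z a =>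
    e z (ht ((norm_le_PP z).trans a.le) (by norm_num)) (P9 z a)
  have hCt : {z : E | ‖PP z‖ ≤ 3} ⊆ c.e.target := fun z hz =>
    ht ((norm_le_PP z).trans hz) (by norm_num)
  have hout : ∀ z, c.e.symm z ∉ c.e.symm '' {z : E | ‖PP z‖ ≤ 3} → 3 < ‖PP z‖ := fun z hz =>
    not_le.1 fun h => hz (mem_image_of_mem _ h)
  have hk : ∀ y, y ∉ c.e.symm '' {z : E | ‖PP z‖ ≤ 3} → k y = y ∨ h (k y) < h y := fun y hy => by
    by_cases a : y ∈ c.e.symm '' closedBall 0 80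
    · obtain ⟨z, hz, rfl⟩ := a
      rw [(k2 z (hb (by norm_num) hz)).2]
      exact (P5 z (hout z hy)).imp_left fun a => by rw [a]
    · exact Or.inl (k3 y a)
  have hl : ∀ x ∈ C1, |(lift x).1| ≤ 45 / 100 ∧ |(lift x).2| ≤ 45 / 100 ∧ ‖PP (lift x)‖ ≤ 3 :=
    fun x hx => by
      have : ‖lift x‖ ≤ 45 / 100 := by rw [norm_lift]; exact max_le hx.1 hx.2
      exact ⟨(norm_fst_le _).trans this, (norm_snd_le _).trans this,
        (norm_PP_le _).trans (by linarith)⟩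
  refine ⟨⟨Ψ * k, hf⟩, mem_OP_of_lyap (c := c) (ball_subset_closedBall.trans (hb (by norm_num))) hf
    (c.isCompact_image (isCompact_PP 3) hCt).isClosed ?_ h1.continuous
    (h2.subset (diff_subset (t := c.e.symm '' {z : E | ‖PP z‖ ≤ 3}))) (fun x hx => hx.2)
    (fun y hy => LocHyp.hyp g hf ?_) (fun y hy => ?_) (fun y hy hy' => ?_) (fun x hx => ?_) ?_ ?_,
    robustP c hc P1 P2 P3 P8 e' ((of_mm_lt (by simp [mm]; norm_num)).2.trans (by norm_num))
      ((of_mm_lt (by simp [mm]; norm_num)).2.trans (by norm_num)) (by simp; norm_num) (by simp)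
      P10 P11 P12 P13 P14 P15⟩
  · rintro _ ⟨z, hz, rfl⟩
    rw [e' z (hz.trans_lt (by norm_num))]
    exact interior_maximal (image_mono fun w (hw : ‖PP w‖ < 3) => hw.le)
      (c.e.isOpen_image_symm_of_subset_target (isOpen_lt PP.continuous.norm continuous_const)
        fun w (hw : ‖PP w‖ < 3) => hCt hw.le) (mem_image_of_mem _ (P4 z hz).2)
  · by_cases a : y ∈ c.e.symm '' ball 0 85
    · obtain ⟨z, hz, rfl⟩ := a
      have hz' := hb (by norm_num) (ball_subset_closedBall hz)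
      obtain ⟨a1, a2, A, a3, a4⟩ := P7 z (hout z hy.2) (mem_ball_zero_iff.1 hz)
        ((c.crit_iff h1 hz').1 hy.1)
      refine ⟨c, z, Φ, A, hz', rfl, a2, a3, ?_, a4⟩
      filter_upwards [c.e.open_target.mem_nhds hz', P1.continuous.norm.continuousAt.eventually_lt
        continuousAt_const (show ‖Φ z‖ < 60 by rw [a2]; linarith)] with w b1 b2
      exact e w b1 b2.le
    · refine (Q5 y (fun h => a (image_mono (ball_subset_ball (by norm_num)) h)) hy.1).congr ?_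
      filter_upwards [(c.isCompact_image (isCompact_closedBall 0 80)
        (hb (by norm_num))).isClosed.isOpen_compl.mem_nhds fun h =>
          a (image_mono (closedBall_subset_ball (by norm_num)) h)] with w hw
      rw [Equiv.Perm.mul_apply, k3 w hw]
  · exact (Q2.le _).trans ((hk y hy).elim (fun a => by rw [a]) le_of_lt)
  · have hy'' : y ∉ Crit 𝕍 h := fun h => hy' ⟨h, hy⟩
    rw [Equiv.Perm.mul_apply]
    by_cases a : y ∈ c.e.symm '' ball 0 70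
    · obtain ⟨z, hz, rfl⟩ := a
      have hz' := hb (by norm_num) (ball_subset_closedBall hz)
      refine (Q2.le _).trans_lt ?_
      rw [(k2 z hz').2]
      exact P6 z (hout z hy) (mem_ball_zero_iff.1 hz).le fun h => hy'' ((c.crit_iff h1 hz').2 h)
    · rcases hk y hy with b | b
      · rw [b]; exact Q4 y a hy''
      · exact (Q2.le _).trans_lt b
  · obtain ⟨a1, a2, a3⟩ := hl x hx
    have a4 := tau0_bound (lift x).2
    rw [abs_le] at a1 a2
    have a5 : f0 x = proj (Φ (lift x)) := by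
      rw [(P4 _ a3).1, ← tau_eq (by linarith) (by linarith), ← gam_lin (abs_le.2 a1), ← f0_proj,
        proj_lift]
    rw [a5, Ch.j_proj, Ch.j, e' _ (a3.trans_lt (by norm_num))]
    rw [(P4 _ a3).1, mem_ball_zero_iff]
    refine max_lt ?_ ?_ <;> rw [Real.norm_eq_abs, abs_lt] <;> constructor <;> linarith
  · rintro _ ⟨x, hx, rfl⟩
    exact mem_image_of_mem _ (hl x hx).2.2
  · rintro _ ⟨z, hz, rfl⟩
    have a1 := P4 z hz
    have a2 := P4 _ a1.2.le
    have a3 := P4 _ a2.2.le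
    rw [e' z (hz.trans_lt (by norm_num)), e' _ (a1.2.trans (by norm_num)),
      e' _ (a2.2.trans (by norm_num))]
    have b1 := abs_le.1 ((abs_le_PP z).1.trans hz)
    have b2 := abs_le.1 ((abs_le_PP z).2.trans hz)
    have b3 : (Φ z).2 = tau0 z.2 - z.1 / 16 := by rw [a1.1]
    have b4 : (Φ (Φ z)).2 = tau0 (Φ z).2 - z.2 / 16 := by rw [a2.1, a1.1]
    have b5 : Φ (Φ (Φ z)) = ((Φ (Φ z)).2, tau0 (Φ (Φ z)).2 - (Φ z).2 / 16) := by
      rw [a3.1, a2.1]
    have t1 := tau0_bound z.2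
    have t2 := tau0_bound (Φ z).2
    have t3 := tau0_bound (Φ (Φ z)).2
    have b6 : |(Φ (Φ (Φ z))).1| ≤ 45 / 100 := by rw [b5, abs_le]; constructor <;> linarith
    have b7 : |(Φ (Φ (Φ z))).2| ≤ 45 / 100 := by rw [b5, abs_le]; constructor <;> linarith
    exact ⟨proj _, ⟨(norm_coe_le _).trans b6, (norm_coe_le _).trans b7⟩, Ch.j_proj
      (mem_ball_zero_iff.2 (max_lt (b6.trans_lt (by norm_num)) (b7.trans_lt (by norm_num))))⟩

theorem main (hV : Module.finrank ℝ 𝕍 = 2) [Nonempty M] (g : RMetric 𝕍 M) :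
    ¬ ∃ U : Set (O g), IsOpen U ∧ Dense U ∧ ∀ f ∈ U, TrivialCentralizer f.1 := by
  obtain ⟨f₀, h1, h2⟩ := exists_example hV g
  exact not_exists_of_robust h1 h2

end Pool.Agent.Lib.MP_fe72db_an.Surf
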