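import Pool.Agent.Lib.MP_fe72db_an.Surf.Hyp
import Pool.Agent.Lib.MP_fe72db_an.Abstract

/-! Linear maps of the plane giving hyperbolic fixed points. -/

open Filter Topology Set Metric
open scoped Manifold ContDiff

namespace Pool.Agent.Lib.MP_fe72db_an.Surf

set_option linter.unusedSectionVars false

/-- Hyperbolicity of a linear map of the plane, in adapted coordinates. -/
def LinHyp (A : E →L[ℝ] E) : Prop :=
  ∃ (P : E ≃L[ℝ] ℂ) (Es Eu : Submodule ℝ E) (lam : ℝ), IsCompl Es Eu ∧ (∀ v ∈ Es, A v ∈ Es) ∧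
    (∀ v ∈ Eu, A v ∈ Eu) ∧ 0 < lam ∧ lam < 1 ∧ (∀ v ∈ Es, ‖P (A v)‖ ≤ lam * ‖P v‖) ∧
    ∀ v ∈ Eu, ‖P v‖ ≤ lam * ‖P (A v)‖

lemma linHyp_of_conf {A : E →L[ℝ] E} (P : E ≃L[ℝ] ℂ) {a b : ℝ} (ha : 0 < a) (hab : a ≤ b)
    (h : ∀ v, a * ‖P v‖ ≤ ‖P (A v)‖ ∧ ‖P (A v)‖ ≤ b * ‖P v‖) (h1 : b < 1 ∨ 1 < a) : LinHyp A := by
  rcases h1 with h1 | h1
  · exact ⟨P, ⊤, ⊥, b, isCompl_top_bot, fun _ _ => trivial, by simp, by linarith, h1,
      fun v _ => (h v).2, by simp⟩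
  · refine ⟨P, ⊥, ⊤, a⁻¹, isCompl_bot_top, by simp, fun _ _ => trivial, by positivity,
      inv_lt_one_of_one_lt₀ h1, by simp, fun v _ => ?_⟩
    rw [← div_eq_inv_mul, le_div_iff₀' ha]
    exact (h v).1

lemma norm_mk_bounds {s t a b l m : ℝ} (hl : 0 ≤ l) (ha : l ≤ a) (hb : l ≤ b) (ha' : a ≤ m)
    (hb' : b ≤ m) : l * ‖(⟨s, t⟩ : ℂ)‖ ≤ ‖(⟨a * s, b * t⟩ : ℂ)‖ ∧
      ‖(⟨a * s, b * t⟩ : ℂ)‖ ≤ m * ‖(⟨s, t⟩ : ℂ)‖ := by
  have hm : 0 ≤ m := by linarith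
  rw [← sq_le_sq₀ (by positivity) (norm_nonneg _), ← sq_le_sq₀ (norm_nonneg _) (by positivity),
    mul_pow, mul_pow, Complex.sq_norm, Complex.sq_norm, Complex.normSq_mk, Complex.normSq_mk]
  have a1 : l ^ 2 ≤ a ^ 2 := by gcongr
  have a2 : l ^ 2 ≤ b ^ 2 := by gcongr
  have a3 : a ^ 2 ≤ m ^ 2 := by gcongr; linarith
  have a4 : b ^ 2 ≤ m ^ 2 := by gcongr; linarith
  constructor <;> nlinarith [mul_self_nonneg s, mul_self_nonneg t]

lemma linHyp_saddle {A : E →L[ℝ] E} {u w : E} (h : u.1 * w.2 - u.2 * w.1 ≠ 0) {a b : ℝ}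
    (hu : A u = a • u) (hw : A w = b • w) (ha0 : 0 < a) (ha : a < 1) (hb : 1 < b) : LinHyp A := by
  refine ⟨confEquiv 1 0 1 one_ne_zero one_ne_zero, _, _, max a b⁻¹, isCompl_span h, ?_, ?_,
    lt_max_of_lt_left ha0, max_lt ha (inv_lt_one_of_one_lt₀ hb), ?_, ?_⟩
  all_goals
    intro v hv
    obtain ⟨t, rfl⟩ := Submodule.mem_span_singleton.1 hv
  · rw [map_smul, hu, smul_comm]
    exact Submodule.smul_mem _ _ hv
  · rw [map_smul, hw, smul_comm]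
    exact Submodule.smul_mem _ _ hv
  · rw [A.map_smul, hu, smul_comm, map_smul _ a, norm_smul, Real.norm_of_nonneg ha0.le]
    gcongr
    exact le_max_left _ _
  · rw [A.map_smul, hw, smul_comm, map_smul _ b, norm_smul, Real.norm_of_nonneg (by linarith),
      ← mul_assoc]
    refine le_mul_of_one_le_left (norm_nonneg _) ?_
    calc (1 : ℝ) = b⁻¹ * b := by field_simp
      _ ≤ _ := by gcongr; exact le_max_right _ _

lemma linHyp_diag {A : E →L[ℝ] E} {u w : E} (h : u.1 * w.2 - u.2 * w.1 ≠ 0) {a b : ℝ}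
    (hu : A u = a • u) (hw : A w = b • w) (ha0 : 0 < a) (hb0 : 0 < b) (ha : a ≠ 1) (hb : b ≠ 1) :
    LinHyp A := by
  let Q : ℂ →ₗ[ℝ] E := Complex.reLm.smulRight u + Complex.imLm.smulRight w
  have hQ : ∀ z, Q z = z.re • u + z.im • w := fun z => rfl
  have hi : Function.Injective Q := by
    rw [injective_iff_map_eq_zero]
    intro z hz
    have h1 : z.re * u.1 + z.im * w.1 = 0 := congrArg Prod.fst hz
    have h2 : z.re * u.2 + z.im * w.2 = 0 := congrArg Prod.snd hz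
    apply Complex.ext
    · exact (mul_eq_zero.1 (show z.re * (u.1 * w.2 - u.2 * w.1) = 0 by
        linear_combination w.2 * h1 - w.1 * h2)).resolve_right h
    · exact (mul_eq_zero.1 (show z.im * (u.1 * w.2 - u.2 * w.1) = 0 by
        linear_combination u.1 * h2 - u.2 * h1)).resolve_right h
  let P : E ≃L[ℝ] ℂ := (Q.linearEquivOfInjective hi (by simp)).symm.toContinuousLinearEquiv
  have hP : ∀ z, P (Q z) = z := fun z => (Q.linearEquivOfInjective hi (by simp)).symm_apply_apply z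
  have key : ∀ v, min a b * ‖P v‖ ≤ ‖P (A v)‖ ∧ ‖P (A v)‖ ≤ max a b * ‖P v‖ := by
    intro v
    obtain ⟨z, rfl⟩ : ∃ z, Q z = v := (Q.linearEquivOfInjective hi (by simp)).surjective v
    have : A (Q z) = Q ⟨a * z.re, b * z.im⟩ := by
      rw [hQ, hQ, map_add, map_smul, map_smul, hu, hw, smul_smul, smul_smul, mul_comm a,
        mul_comm b]
    rw [this, hP, hP]
    exact norm_mk_bounds (lt_min ha0 hb0).le (min_le_left _ _) (min_le_right _ _)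
      (le_max_left _ _) (le_max_right _ _)
  rcases lt_or_gt_of_ne ha with ha | ha <;> rcases lt_or_gt_of_ne hb with hb | hb
  · exact linHyp_of_conf P (lt_min ha0 hb0) min_le_max key (Or.inl (max_lt ha hb))
  · exact linHyp_saddle h hu hw ha0 ha hb
  · exact linHyp_saddle (fun e => h (by linear_combination -e)) hw hu hb0 hb ha
  · exact linHyp_of_conf P (lt_min ha0 hb0) min_le_max key (Or.inr (lt_min ha hb))

/-- The identity minus a small nondegenerate symmetric map is hyperbolic. -/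
lemma linHyp_symm {S : E →L[ℝ] E} (hS : ‖S‖ ≤ 1 / 2) (hsym : (S (1, 0)).2 = (S (0, 1)).1)
    (hd : dt S ≠ 0) : LinHyp (1 - S) := by
  have hA := apply_eq_comb S
  unfold dt at hd
  rw [hsym] at hd
  set p := (S (1, 0)).1
  set q := (S (0, 1)).1
  set r := (S (0, 1)).2
  have hS1 : S (1, 0) = (p, q) := Prod.ext rfl hsym
  have hS2 : S (0, 1) = (q, r) := rfl
  have ev : ∀ {u : E} {μ : ℝ}, u ≠ 0 → S u = μ • u → (1 - S) u = (1 - μ) • u ∧ 0 < 1 - μ := by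
    intro u μ hu h
    refine ⟨by rw [sub_smul, one_smul, ← h]; rfl, ?_⟩
    have h1 := S.le_opNorm u
    rw [h, norm_smul] at h1
    have h2 : ‖μ‖ ≤ ‖S‖ := le_of_mul_le_mul_right h1 (norm_pos_iff.2 hu)
    linarith [le_abs_self μ, Real.norm_eq_abs μ]
  by_cases hq : q = 0
  · have e1 := ev (u := (1, 0)) (μ := p) (by simp) (by rw [hS1, hq]; simp)
    have e2 := ev (u := (0, 1)) (μ := r) (by simp) (by rw [hS2, hq]; simp)
    refine linHyp_diag (by simp) e1.1 e2.1 e1.2 e2.2 (fun e => hd ?_) (fun e => hd ?_)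
    · rw [show p = 0 by linarith, hq]; ring
    · rw [show r = 0 by linarith, hq]; ring
  · have hpos : 0 < ((p - r) / 2) ^ 2 + q ^ 2 := by positivity
    set ϖ := √(((p - r) / 2) ^ 2 + q ^ 2)
    have hϖ : 0 < ϖ := Real.sqrt_pos.2 hpos
    have hϖ2 : ϖ ^ 2 = ((p - r) / 2) ^ 2 + q ^ 2 := Real.sq_sqrt hpos.le
    have e : ∀ μ : ℝ, (μ - (p + r) / 2) ^ 2 = ϖ ^ 2 →
        ((1 - S) (q, μ - p) = (1 - μ) • (q, μ - p) ∧ 0 < 1 - μ) ∧ 1 - μ ≠ 1 := by
      intro μ hμ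
      refine ⟨ev (fun h => hq (congrArg Prod.fst h)) ?_, fun h => hd ?_⟩
      · rw [hA, hS1, hS2]
        ext
        · simp; ring
        · simp; linear_combination -hμ - hϖ2
      · rw [show μ = 0 by linarith] at hμ
        linear_combination hμ + hϖ2
    have e1 := e ((p + r) / 2 + ϖ) (by ring)
    have e2 := e ((p + r) / 2 - ϖ) (by ring)
    refine linHyp_diag ?_ e1.1.1 e2.1.1 e1.1.2 e2.1.2 e1.2 e2.2
    have : q * (-2 * ϖ) ≠ 0 := mul_ne_zero hq (by linarith)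
    intro h
    exact this (by simp only at h; linear_combination h)

lemma norm_rot (α β : ℝ) (v : E) :
    ‖confEquiv 1 0 1 one_ne_zero one_ne_zero (α * v.1 - β * v.2, β * v.1 + α * v.2)‖ =
      √(α ^ 2 + β ^ 2) * ‖confEquiv 1 0 1 one_ne_zero one_ne_zero v‖ := by
  rw [← Complex.norm_add_mul_I, ← norm_mul]
  congr 1
  apply Complex.ext <;> simp [confEquiv_apply] <;> ring

lemma linHyp_rot {A : E →L[ℝ] E} {α β : ℝ} (h : ∀ v, A v = (α * v.1 - β * v.2, β * v.1 + α * v.2))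
    (hβ : β ≠ 0) (h1 : α ^ 2 + β ^ 2 ≠ 1) : LinHyp A := by
  refine linHyp_of_conf (confEquiv 1 0 1 one_ne_zero one_ne_zero) (a := √(α ^ 2 + β ^ 2))
    (Real.sqrt_pos.2 (by positivity)) le_rfl (fun v => by rw [h, norm_rot]; simp) ?_
  rcases lt_or_gt_of_ne h1 with h1 | h1
  · exact Or.inl (by rwa [Real.sqrt_lt' one_pos, one_pow])
  · exact Or.inr (by rwa [Real.lt_sqrt zero_le_one, one_pow])

lemma cplx_rot {A : E →L[ℝ] E} {α β : ℝ} (h : ∀ v, A v = (α * v.1 - β * v.2, β * v.1 + α * v.2))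
    (hβ : β ≠ 0) (h1 : α ^ 2 + β ^ 2 < 1) : Cplx A := by
  have := sq_pos_of_ne_zero hβ
  simp only [Cplx, dt, h]
  constructor <;> nlinarith

lemma cplx_rot_inv {A B : E →L[ℝ] E} {α β : ℝ}
    (h : ∀ v, A v = (α * v.1 - β * v.2, β * v.1 + α * v.2)) (hB : ∀ v, B (A v) = v)
    (hβ : β ≠ 0) (h1 : 1 < α ^ 2 + β ^ 2) : Cplx B := by
  have h0 : α ^ 2 + β ^ 2 ≠ 0 := by positivity
  refine cplx_rot (α := α / (α ^ 2 + β ^ 2)) (β := -β / (α ^ 2 + β ^ 2)) (fun v => ?_)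
    (div_ne_zero (neg_ne_zero.2 hβ) h0) ?_
  · rw [← hB (_, _), h]
    congr 1
    ext
    · simp only; field_simp; ring
    · simp only; field_simp; ring
  · rw [show (α / (α ^ 2 + β ^ 2)) ^ 2 + (-β / (α ^ 2 + β ^ 2)) ^ 2 = (α ^ 2 + β ^ 2)⁻¹ by
      field_simp]
    exact inv_lt_one_of_one_lt₀ h1

variable {𝕍 M : Type} [NormedAddCommGroup 𝕍] [NormedSpace ℝ 𝕍] [FiniteDimensional ℝ 𝕍]
  [TopologicalSpace M] [ChartedSpace 𝕍 M] [IsManifold 𝓘(ℝ, 𝕍) ∞ M]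

lemma Ch.hyp_of_linHyp (c : Ch 𝕍 M) (g : RMetric 𝕍 M) {f : Equiv.Perm M} (hf : f ∈ Diff1 𝕍 M)
    {F : E → E} {z : E} {A : E →L[ℝ] E} (hz : z ∈ c.e.target) (hFz : F z = z)
    (hF : HasFDerivAt F A z) (h : ∀ᶠ w in 𝓝 z, f (c.e.symm w) = c.e.symm (F w)) (hA : LinHyp A) :
    f (c.e.symm z) = c.e.symm z ∧ IsHyperbolic g f {c.e.symm z} := by
  obtain ⟨P, Es, Eu, lam, a1, a2, a3, a4, a5, a6, a7⟩ := hA
  have hfix : f (c.e.symm z) = c.e.symm z := by rw [h.self_of_nhds, hFz]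
  exact ⟨hfix, c.hyp_fixed g hf hz hfix
    (fun u => by rw [c.D_conj hz (hFz.symm ▸ hz) hF h, hFz]) P a1 a2 a3 a4 a5 a6 a7⟩

end Pool.Agent.Lib.MP_fe72db_an.Surf
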