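import Pool.Agent.Lib.MP_fe72db_an.Surf.Planar
import Pool.Agent.Lib.MP_fe72db_an.Funcs

/-! A compactly supported diffeomorphism of the plane extending the horseshoe map. -/

open Filter Topology Set Metric
open scoped ContDiff

namespace Pool.Agent.Lib.MP_fe72db_an.Surf

/-- The coordinate `x + 4 i y`. -/
noncomputable def PP : E ≃L[ℝ] ℂ := confEquiv 1 0 4 one_ne_zero four_ne_zero

lemma PP_apply (z : E) : PP z = ⟨z.1, 4 * z.2⟩ := by simp [PP, confEquiv_apply]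

lemma norm_PP_sq (z : E) : ‖PP z‖ ^ 2 = z.1 ^ 2 + 16 * z.2 ^ 2 := by
  rw [Complex.sq_norm, PP_apply, Complex.normSq_mk]; ring

lemma abs_le_PP (z : E) : |z.1| ≤ ‖PP z‖ ∧ |4 * z.2| ≤ ‖PP z‖ :=
  ⟨by simpa [PP_apply] using Complex.abs_re_le_norm (PP z),
    by simpa only [PP_apply] using Complex.abs_im_le_norm (PP z)⟩

lemma norm_le_PP (z : E) : ‖z‖ ≤ ‖PP z‖ := by
  have := abs_le_PP z
  rw [abs_mul, abs_of_pos (show (0 : ℝ) < 4 by norm_num)] at this
  exact max_le this.1 (by rw [Real.norm_eq_abs]; linarith [abs_nonneg z.2])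

lemma isCompact_PP (r : ℝ) : IsCompact {z : E | ‖PP z‖ ≤ r} :=
  (isCompact_closedBall (0 : E) r).of_isClosed_subset
    (isClosed_le PP.continuous.norm continuous_const)
    fun z hz => mem_closedBall_zero_iff.2 ((norm_le_PP z).trans hz)

lemma tau0_bound (t : ℝ) : 0 ≤ tau0 t ∧ tau0 t ≤ 4 / 10 := by
  rcases le_total t (9 / 100) with h | h
  · rw [tau0_lo h]; norm_num
  rcases le_total (31 / 100) t with h' | h'
  · rw [tau0_hi h']; norm_num
  rw [← tau_eq (by linarith) (by linarith)]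
  exact tau_bound (by rw [abs_le]; constructor <;> linarith)

lemma contDiff_tau0 : ContDiff ℝ 1 tau0 :=
  contDiff_const.mul (((contDiff_ramp _).sub (contDiff_const.mul (contDiff_ramp _))).add
    (contDiff_ramp _))

lemma contDiff_perm_pow {Φ : Equiv.Perm E} (h : ContDiff ℝ 1 Φ) (n : ℕ) :
    ContDiff ℝ 1 (Φ ^ n : Equiv.Perm E) := by
  induction n with
  | zero => exact contDiff_id
  | succ n ih => rw [pow_succ]; exact ih.comp h

lemma norm_PP_shift (z : E) (d : ℝ) : ‖PP (z.1 - d, z.2)‖ ≤ ‖PP z‖ + |d| := by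
  have : PP (z.1 - d, z.2) = PP z - d := by apply Complex.ext <;> simp [PP_apply]
  rw [this]
  simpa using norm_sub_le (PP z) d

lemma exists_shear : ∃ Θ : Equiv.Perm E, ContDiff ℝ 1 Θ ∧ ContDiff ℝ 1 (Θ⁻¹ : Equiv.Perm E) ∧
    (∀ z, ‖PP z‖ ≤ 3 → Θ z = (z.1 - 16 * tau0 z.2, z.2)) ∧ (∀ z, 13 ≤ ‖PP z‖ → Θ z = z) ∧
    ∀ z, ‖PP (Θ z)‖ ≤ ‖PP z‖ + 7 := by
  let b : ContDiffBump (0 : ℂ) := ⟨10, 13, by norm_num, by norm_num⟩
  have hY : ContDiff ℝ 1 fun z : E => b (PP z) • ((16 * tau0 z.2, 0) : E) :=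
    (b.contDiff.comp PP.contDiff).smul
      ((contDiff_const.mul (contDiff_tau0.comp contDiff_snd)).prodMk contDiff_const)
  have h0 : ∀ z, 13 ≤ ‖PP z‖ → b (PP z) = 0 := fun z hz => b.zero_of_le_dist (by simpa using hz)
  obtain ⟨L, hL, hb⟩ := exists_bounds hY (isCompact_PP 13) fun z hz => by
    rw [h0 z (not_le.1 hz).le, zero_smul]
  obtain ⟨N, hN⟩ := exists_nat_ge (2 * L)
  have hN0 : (0 : ℝ) < N := by linarith
  obtain ⟨Φ, h1, h2, h3⟩ := exists_perm_of_small (hY.const_smul (-(N : ℝ)⁻¹)) fun z => by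
    rw [fderiv_fun_const_smul (hY.differentiable one_ne_zero z), norm_smul, norm_neg,
      Real.norm_of_nonneg (by positivity), inv_mul_le_iff₀ hN0]
    linarith [(hb z).2]
  have hd : ∀ (z : E) (s : ℝ), 0 ≤ s → s ≤ N → |s / N * (16 * tau0 z.2)| ≤ 7 := fun z s a b => by
    have := tau0_bound z.2
    have a1 : s / N ≤ 1 := (div_le_one hN0).2 b
    rw [abs_of_nonneg (by have := this.1; positivity)]
    nlinarith [div_nonneg a hN0.le]
  have key : ∀ (z : E) (k : ℕ), ∃ s : ℝ, 0 ≤ s ∧ s ≤ k ∧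
      (Φ ^ k) z = (z.1 - s / N * (16 * tau0 z.2), z.2) ∧ (k ≤ N → ‖PP z‖ ≤ 3 → s = k) := by
    intro z k
    induction k with
    | zero => exact ⟨0, le_rfl, by simp, by simp, by simp⟩
    | succ k ih =>
      obtain ⟨s, a1, a2, a3, a4⟩ := ih
      refine ⟨s + b (PP ((Φ ^ k) z)), add_nonneg a1 b.nonneg,
        by rw [Nat.cast_succ]; exact add_le_add a2 b.le_one, ?_, fun b1 b2 => ?_⟩
      · rw [pow_succ', Equiv.Perm.mul_apply, h1]
        generalize b (PP ((Φ ^ k) z)) = t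
        rw [a3]
        ext
        · simp; ring
        · simp
      · rw [b.one_of_mem_closedBall, a4 (by omega) b2, Nat.cast_succ]
        rw [a3, mem_closedBall_zero_iff]
        have := hd z s a1 (a2.trans (by exact_mod_cast (by omega)))
        exact (norm_PP_shift z _).trans (by simp only [b]; linarith)
  refine ⟨Φ ^ N, contDiff_perm_pow h2 N, by rw [← inv_pow]; exact contDiff_perm_pow h3 N,
    fun z hz => ?_, fun z hz => ?_, fun z => ?_⟩
  · obtain ⟨s, -, -, a3, a4⟩ := key z N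
    rw [a3, a4 le_rfl hz, div_self hN0.ne', one_mul]
  · exact Equiv.Perm.pow_apply_eq_self_of_apply_eq_self (by rw [h1, h0 z hz]; simp) N
  · obtain ⟨s, a1, a2, a3, -⟩ := key z N
    rw [a3]
    exact (norm_PP_shift z _).trans (by linarith [hd z s a1 a2])

lemma exists_spiral : ∃ Λ : Equiv.Perm E, ContDiff ℝ 1 Λ ∧ ContDiff ℝ 1 (Λ⁻¹ : Equiv.Perm E) ∧
    (∀ z, ‖PP z‖ ≤ 22 → PP (Λ z) = -Complex.I / 4 * PP z) ∧ (∀ z, 25 ≤ ‖PP z‖ → Λ z = z) ∧
    ∀ z, 0 < ‖PP z‖ → ‖PP z‖ < 25 → ‖PP (Λ z)‖ < ‖PP z‖ := by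
  let b : ContDiffBump (0 : ℂ) := ⟨22, 25, by norm_num, by norm_num⟩
  have hY : ContDiff ℝ 1 fun z : E => b (PP z) • PP z :=
    (b.contDiff.comp PP.contDiff).smul PP.contDiff
  have h0 : ∀ z, 25 ≤ ‖PP z‖ → b (PP z) = 0 := fun z hz => b.zero_of_le_dist (by simpa using hz)
  obtain ⟨L, hL, hb⟩ := exists_bounds hY (isCompact_PP 25) fun z hz => by
    rw [h0 z (not_le.1 hz).le, zero_smul]
  set l := Complex.log (-Complex.I / 4)
  have t1 : Tendsto (fun n : ℕ => inm PP * (‖Complex.exp (l / n) - 1‖ * L)) atTop (𝓝 0) := by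
    have := ((Complex.continuous_exp.tendsto _).comp (tendsto_const_div_atTop_nhds_zero_nat l))
    simpa using (((this.sub_const 1).norm).mul_const L).const_mul (inm PP)
  obtain ⟨N, hN, hN1⟩ := ((t1.eventually_lt_const (show (0 : ℝ) < 1 / 2 by norm_num)).and
    (eventually_ge_atTop 1)).exists
  set w := Complex.exp (l / N)
  have hw : w ^ N = -Complex.I / 4 := by
    rw [← Complex.exp_nat_mul, mul_div_cancel₀ _ (by exact_mod_cast (by omega)),
      Complex.exp_log (by simp)]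
  have hw1 : ‖w‖ < 1 := by
    by_contra h
    have := one_le_pow₀ (n := N) (not_lt.1 h)
    rw [← norm_pow, hw] at this
    norm_num at this
  let A : ℂ →L[ℝ] E := (PP.symm : ℂ →L[ℝ] E).comp (ContinuousLinearMap.mul ℝ ℂ (w - 1))
  obtain ⟨Φ, h1, h2, h3⟩ := exists_perm_of_small (A.contDiff.comp hY) fun z => by
    rw [(A.hasFDerivAt.comp z (hY.differentiable one_ne_zero z).hasFDerivAt).fderiv]
    refine (ContinuousLinearMap.opNorm_comp_le _ _).trans (le_trans ?_ hN.le)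
    rw [← mul_assoc]
    refine mul_le_mul ((ContinuousLinearMap.opNorm_comp_le _ _).trans ?_) (hb z).2
      (norm_nonneg _) (mul_nonneg (inm_nonneg _) (norm_nonneg _))
    rw [ContinuousLinearMap.opNorm_mul_apply]; rfl
  have e : ∀ z, PP (Φ z) = ((1 - b (PP z) : ℝ) + b (PP z) * w) * PP z := fun z => by
    simp [h1, A]; ring
  have e1 : ∀ z, ‖PP (Φ z)‖ ≤ (1 - b (PP z) * (1 - ‖w‖)) * ‖PP z‖ := fun z => by
    rw [e, norm_mul]
    refine mul_le_mul_of_nonneg_right ((norm_add_le _ _).trans (le_of_eq ?_)) (norm_nonneg _)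
    rw [norm_mul, Complex.norm_real, Complex.norm_real, Real.norm_of_nonneg b.nonneg,
      Real.norm_of_nonneg (sub_nonneg.2 b.le_one)]
    ring
  have key : ∀ (k : ℕ) (z : E), ‖PP ((Φ ^ k) z)‖ ≤ ‖PP z‖ ∧
      (‖PP z‖ ≤ 22 → PP ((Φ ^ k) z) = w ^ k * PP z) := by
    intro k z
    induction k with
    | zero => simp
    | succ k ih =>
      rw [pow_succ', Equiv.Perm.mul_apply]
      refine ⟨(e1 _).trans ((mul_le_of_le_one_left (norm_nonneg _) ?_).trans ih.1), fun h => ?_⟩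
      · linarith [mul_nonneg (b.nonneg (x := PP ((Φ ^ k) z))) (sub_pos.2 hw1).le]
      · rw [e, b.one_of_mem_closedBall (mem_closedBall_zero_iff.2 (ih.1.trans h)), ih.2 h]
        simp; ring
  refine ⟨Φ ^ N, contDiff_perm_pow h2 N, by rw [← inv_pow]; exact contDiff_perm_pow h3 N,
    fun z hz => by rw [(key N z).2 hz, hw], fun z hz => ?_, fun z hz hz' => ?_⟩
  · exact Equiv.Perm.pow_apply_eq_self_of_apply_eq_self (by simp [h1, h0 z hz]) N
  · obtain ⟨m, rfl⟩ := Nat.exists_eq_add_of_le' hN1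
    rw [pow_succ, Equiv.Perm.mul_apply]
    refine (key m _).1.trans_lt ((e1 z).trans_lt (mul_lt_of_lt_one_left hz ?_))
    linarith [mul_pos (b.pos_of_mem_ball (mem_ball_zero_iff.2 hz')) (sub_pos.2 hw1)]

theorem exists_henon : ∃ Φ : Equiv.Perm E, ContDiff ℝ 1 Φ ∧ ContDiff ℝ 1 (Φ⁻¹ : Equiv.Perm E) ∧
    (∀ z, ‖PP z‖ ≤ 3 → Φ z = (z.2, tau0 z.2 - z.1 / 16) ∧ ‖PP (Φ z)‖ < 3) ∧
    (∀ z, 25 ≤ ‖PP z‖ → Φ z = z) ∧ ∀ z, 3 ≤ ‖PP z‖ → ‖PP z‖ < 25 → ‖PP (Φ z)‖ < ‖PP z‖ := by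
  obtain ⟨Θ, a1, a2, a3, a4, a5⟩ := exists_shear
  obtain ⟨Λ, b1, b2, b3, b4, b5⟩ := exists_spiral
  have key : ∀ z, ‖PP z‖ ≤ 13 → ‖PP (Λ (Θ z))‖ ≤ (‖PP z‖ + 7) / 4 := fun z hz => by
    rw [b3 _ (by linarith [a5 z]), norm_mul]
    simp only [norm_div, norm_neg, Complex.norm_I, Complex.norm_ofNat]
    linarith [a5 z]
  refine ⟨Λ * Θ, b1.comp a1, a2.comp b2, fun z hz => ⟨PP.injective ?_, ?_⟩,
    fun z hz => by rw [Equiv.Perm.mul_apply, a4 z (by linarith), b4 z hz], fun z h1 h2 => ?_⟩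
  · rw [Equiv.Perm.mul_apply, b3 _ (by linarith [a5 z]), a3 z hz, PP_apply, PP_apply]
    apply Complex.ext <;> simp <;> ring
  · exact (key z (by linarith)).trans_lt (by linarith)
  · rw [Equiv.Perm.mul_apply]
    rcases le_total ‖PP z‖ 13 with h | h
    · exact (key z h).trans_lt (by linarith)
    · rw [a4 z h]
      exact b5 z (by linarith) h2

end Pool.Agent.Lib.MP_fe72db_an.Surf
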