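import Pool.Agent.Lib.MP_fe72db_an.Surf.Bridge

/-! Construction of charts, and hyperbolicity read in a chart. -/

open Filter Topology Set Metric
open scoped Manifold ContDiff

namespace Pool.Agent.Lib.MP_fe72db_an.Surf

set_option linter.unusedSectionVars false

open Pool.Agent.Lib.MP_fe72db_an renaming D → TD, Diff1 → TDiff, IsHyperbolic → THyp

variable {𝕍 M : Type} [NormedAddCommGroup 𝕍] [NormedSpace ℝ 𝕍] [FiniteDimensional ℝ 𝕍]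
  [TopologicalSpace M] [ChartedSpace 𝕍 M] [IsManifold 𝓘(ℝ, 𝕍) ∞ M]

namespace Ch

lemma exists_at (hV : Module.finrank ℝ 𝕍 = 2) (x : M) : ∃ c : Ch 𝕍 M, x ∈ c.e.source := by
  let L : 𝕍 ≃L[ℝ] E := ContinuousLinearEquiv.ofFinrankEq (by simp [hV])
  refine ⟨⟨(chartAt 𝕍 x).trans L.toHomeomorph.toOpenPartialHomeomorph, ?_, ?_⟩, by simp⟩
  · exact L.contDiff.contMDiff.comp_contMDiffOn (contMDiffOn_chart.mono fun y hy => hy.1)
  · exact contMDiffOn_chart_symm.comp L.symm.contDiff.contMDiff.contMDiffOn fun y hy => hy.2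

/-- Composition of a chart with a smooth change of coordinates. -/
noncomputable def trans (c : Ch 𝕍 M) (A : E ≃ₜ E) (h1 : ContDiff ℝ ∞ A) (h2 : ContDiff ℝ ∞ A.symm) :
    Ch 𝕍 M where
  e := c.e.trans A.toOpenPartialHomeomorph
  sm := h1.contMDiff.comp_contMDiffOn (c.sm.mono fun _ hy => hy.1)
  sm' := c.sm'.comp h2.contMDiff.contMDiffOn fun _ hy => hy.2

lemma exists_aff (c : Ch 𝕍 M) (z : E) {σ : ℝ} (hσ : σ ≠ 0) : ∃ c' : Ch 𝕍 M,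
    (∀ w, c'.e.symm w = c.e.symm (z + σ • w)) ∧ ∀ w, z + σ • w ∈ c.e.target → w ∈ c'.e.target :=
  ⟨c.trans ((Homeomorph.smulOfNeZero σ hσ).trans (Homeomorph.addLeft z)).symm
    ((contDiff_const.add contDiff_id).const_smul σ⁻¹)
    (contDiff_const.add (contDiff_id.const_smul σ)), fun _ => rfl, fun _ h => ⟨trivial, h⟩⟩

lemma exists_big (hV : Module.finrank ℝ 𝕍 = 2) [Nonempty M] {R : ℝ} (hR : 0 < R) :
    ∃ c : Ch 𝕍 M, closedBall 0 R ⊆ c.e.target := by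
  obtain ⟨x⟩ := ‹Nonempty M›
  obtain ⟨c, hc⟩ := exists_at hV x
  obtain ⟨r, hr, hr'⟩ := nhds_basis_closedBall.mem_iff.1
    (c.e.open_target.mem_nhds (c.e.map_source hc))
  obtain ⟨c', -, h⟩ := c.exists_aff (c.e x) (σ := r / R) (by positivity)
  refine ⟨c', fun w hw => h w (hr' ?_)⟩
  rw [mem_closedBall_zero_iff] at hw
  rw [mem_closedBall, dist_self_add_left, norm_smul, Real.norm_of_nonneg (by positivity),
    div_mul_eq_mul_div, div_le_iff₀ hR]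
  gcongr

variable (c : Ch 𝕍 M)

lemma hyp_of (g : RMetric 𝕍 M) {f : Equiv.Perm M} {K Λ : Set E} (hK : IsCompact K)
    (hKt : K ⊆ c.e.target) (hΛ : Λ ⊆ K) (Es Eu : E → Submodule ℝ E) {C lam : ℝ} (hC : 0 < C)
    (h0 : 0 < lam) (h1 : lam < 1)
    (h : ∀ z ∈ Λ, IsCompl (Es z) (Eu z) ∧
      (∃ z' ∈ K, f (c.e.symm z) = c.e.symm z' ∧ ∃ A : E →L[ℝ] E,
        (∀ u, D 𝕍 f (c.e.symm z) (c.dsym z u) = c.dsym z' (A u)) ∧
        (Es z).map A.toLinearMap = Es z' ∧ (Eu z).map A.toLinearMap = Eu z') ∧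
      ∀ n : ℕ, (∃ z' ∈ K, (f ^ n) (c.e.symm z) = c.e.symm z' ∧ ∀ u ∈ Es z, ∃ u',
        D 𝕍 (f ^ n : Equiv.Perm M) (c.e.symm z) (c.dsym z u) = c.dsym z' u' ∧
          ‖u'‖ ≤ C * lam ^ n * ‖u‖) ∧
        ∃ z' ∈ K, (f⁻¹ ^ n) (c.e.symm z) = c.e.symm z' ∧ ∀ u ∈ Eu z, ∃ u',
          D 𝕍 (f⁻¹ ^ n : Equiv.Perm M) (c.e.symm z) (c.dsym z u) = c.dsym z' u' ∧
            ‖u'‖ ≤ C * lam ^ n * ‖u‖) :
    IsHyperbolic g f (c.e.symm '' Λ) := by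
  obtain ⟨a, b, ha, hb, H⟩ := c.exists_norm_bounds g hK hKt
  have key : ∀ z ∈ K, ∀ z' ∈ K, ∀ (n : ℕ) (u u' : E), ‖u'‖ ≤ C * lam ^ n * ‖u‖ →
      nrm g (c.e.symm z') (c.dsym z' u') ≤
        b * C / a * lam ^ n * nrm g (c.e.symm z) (c.dsym z u) := by
    intro z hz z' hz' n u u' hu
    calc _ ≤ b * (C * lam ^ n * ‖u‖) := (H z' hz' u').2.trans (by gcongr)
      _ = b * C / a * lam ^ n * (a * ‖u‖) := by field_simp
      _ ≤ _ := by gcongr; exact (H z hz u).1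
  refine ⟨fun x => (Es (c.e x)).map (c.dsym (c.e x)).toLinearMap,
    fun x => (Eu (c.e x)).map (c.dsym (c.e x)).toLinearMap, b * C / a, lam, by positivity, h0,
    h1, ?_⟩
  rintro _ ⟨z, hz, rfl⟩
  obtain ⟨a1, ⟨z', hz', e', A, hA, a2, a3⟩, a4⟩ := h z hz
  have hzt := hKt (hΛ hz)
  have hc : (D 𝕍 f (c.e.symm z)).toLinearMap ∘ₗ (c.dsym z).toLinearMap =
      (c.dsym z').toLinearMap ∘ₗ A.toLinearMap := LinearMap.ext hA
  simp only [e', c.e.right_inv hzt, c.e.right_inv (hKt hz')]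
  refine ⟨(Submodule.orderIsoMapComap (c.deq hzt).symm.toLinearEquiv).isCompl a1, ?_, ?_,
    fun n => ⟨?_, ?_⟩⟩
  · rw [← Submodule.map_comp, hc, Submodule.map_comp, a2]
  · rw [← Submodule.map_comp, hc, Submodule.map_comp, a3]
  · rintro _ ⟨u, hu, rfl⟩
    obtain ⟨w, hw, e1, e2⟩ := (a4 n).1
    obtain ⟨u', e3, e4⟩ := e2 u hu
    rw [e1]
    exact e3 ▸ key z (hΛ hz) w hw n u u' e4
  · rintro _ ⟨u, hu, rfl⟩
    obtain ⟨w, hw, e1, e2⟩ := (a4 n).2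
    obtain ⟨u', e3, e4⟩ := e2 u hu
    rw [e1]
    exact e3 ▸ key z (hΛ hz) w hw n u u' e4

lemma map_eq_of_inj {A : E →L[ℝ] E} (hA : Function.Injective A) {S : Submodule ℝ E}
    (h : ∀ v ∈ S, A v ∈ S) : S.map A.toLinearMap = S :=
  Submodule.eq_of_le_of_finrank_eq (by rintro _ ⟨v, hv, rfl⟩; exact h v hv)
    (Submodule.equivMapOfInjective A.toLinearMap hA S).finrank_eq.symm

/-- Hyperbolic fixed points. -/
lemma hyp_fixed (g : RMetric 𝕍 M) {f : Equiv.Perm M} (hf : f ∈ Diff1 𝕍 M) {z : E}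
    (hz : z ∈ c.e.target) (hfix : f (c.e.symm z) = c.e.symm z) {A : E →L[ℝ] E}
    (hA : ∀ u, D 𝕍 f (c.e.symm z) (c.dsym z u) = c.dsym z (A u)) {F : Type} [NormedAddCommGroup F]
    [NormedSpace ℝ F] (P : E ≃L[ℝ] F) {Es Eu : Submodule ℝ E} (hc : IsCompl Es Eu)
    (ms : ∀ v ∈ Es, A v ∈ Es) (mu : ∀ v ∈ Eu, A v ∈ Eu) {lam : ℝ} (h0 : 0 < lam) (h1 : lam < 1)
    (hs : ∀ v ∈ Es, ‖P (A v)‖ ≤ lam * ‖P v‖) (hu : ∀ v ∈ Eu, ‖P v‖ ≤ lam * ‖P (A v)‖) :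
    IsHyperbolic g f {c.e.symm z} := by
  have hinj : Function.Injective (c.dsym z) := (c.deq hz).symm.injective
  have hAi : Function.Injective A := fun u v huv => hinj (by
    rw [← D_inv_apply hf (c.e.symm z) (c.dsym z u), hA, huv, ← hA, D_inv_apply hf])
  have hfix' : f⁻¹ (c.e.symm z) = c.e.symm z := Equiv.Perm.inv_eq_iff_eq.2 hfix.symm
  have hb : ∀ (n : ℕ) (u u' : E), ‖P u'‖ ≤ lam ^ n * ‖P u‖ →
      ‖u'‖ ≤ (‖(P.symm : F →L[ℝ] E)‖ * ‖(P : E →L[ℝ] F)‖ + 1) * lam ^ n * ‖u‖ := by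
    intro n u u' h
    calc ‖u'‖ = ‖(P.symm : F →L[ℝ] E) (P u')‖ := by simp
      _ ≤ ‖(P.symm : F →L[ℝ] E)‖ * (lam ^ n * (‖(P : E →L[ℝ] F)‖ * ‖u‖)) := by
        refine ((P.symm : F →L[ℝ] E).le_opNorm _).trans ?_
        gcongr
        exact h.trans (mul_le_mul_of_nonneg_left ((P : E →L[ℝ] F).le_opNorm u) (by positivity))
      _ = (‖(P.symm : F →L[ℝ] E)‖ * ‖(P : E →L[ℝ] F)‖) * lam ^ n * ‖u‖ := by ring
      _ ≤ _ := by gcongr; linarith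
  rw [← image_singleton]
  refine c.hyp_of g isCompact_singleton (singleton_subset_iff.2 hz) subset_rfl (fun _ => Es)
    (fun _ => Eu) (C := ‖(P.symm : F →L[ℝ] E)‖ * ‖(P : E →L[ℝ] F)‖ + 1) (by positivity) h0 h1 ?_
  rintro w rfl
  refine ⟨hc, ⟨w, rfl, hfix, A, hA, map_eq_of_inj hAi ms, map_eq_of_inj hAi mu⟩, fun n =>
    ⟨⟨w, rfl, pow_fixed hfix n, fun u hu => ?_⟩, w, rfl, pow_fixed hfix' n, fun u hu' => ?_⟩⟩
  · rw [D_pow_fixed hf hfix]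
    suffices ∃ u' ∈ Es, (D 𝕍 f (c.e.symm w) ^ n) (c.dsym w u) = c.dsym w u' ∧
        ‖P u'‖ ≤ lam ^ n * ‖P u‖ by
      obtain ⟨u', -, a, b⟩ := this
      exact ⟨u', a, hb n u u' b⟩
    induction n with
    | zero => exact ⟨u, hu, rfl, by simp⟩
    | succ n ih =>
      obtain ⟨u', a, b, d⟩ := ih
      refine ⟨A u', ms _ a, by rw [pow_succ', ContinuousLinearMap.mul_apply, b, hA], ?_⟩
      rw [pow_succ', mul_assoc]
      exact (hs _ a).trans (by gcongr)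
  · rw [D_pow_fixed (inv_mem_Diff1 hf) hfix']
    suffices ∃ u' ∈ Eu, (D 𝕍 (f⁻¹ : Equiv.Perm M) (c.e.symm w) ^ n) (c.dsym w u) = c.dsym w u' ∧
        ‖P u'‖ ≤ lam ^ n * ‖P u‖ by
      obtain ⟨u', -, a, b⟩ := this
      exact ⟨u', a, hb n u u' b⟩
    induction n with
    | zero => exact ⟨u, hu', rfl, by simp⟩
    | succ n ih =>
      obtain ⟨u', a, b, d⟩ := ih
      rw [← map_eq_of_inj hAi mu] at a
      obtain ⟨v, hv, rfl⟩ := a
      refine ⟨v, hv, ?_, ?_⟩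
      · have := D_inv_apply hf (c.e.symm w) (c.dsym w v)
        rw [hfix, hA] at this
        rw [pow_succ', ContinuousLinearMap.mul_apply, b]
        exact this
      · rw [pow_succ', mul_assoc]
        exact (hu _ hv).trans (by gcongr; exact d)

variable {c}

lemma conj_pow_ev {f : Equiv.Perm M} {G : Equiv.Perm T} (hG : Continuous G) {U : Set T}
    (hU : IsOpen U) (h : ∀ x ∈ U, f (c.j x) = c.j (G x)) {x : T} (hx : ∀ n : ℕ, (G ^ n) x ∈ U)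
    (n : ℕ) : ∀ᶠ y in 𝓝 x, (f ^ n) (c.j y) = c.j ((G ^ n) y) := by
  induction n with
  | zero => exact Eventually.of_forall fun _ => rfl
  | succ n ih =>
    have hc : Continuous (G ^ n : Equiv.Perm T) := by
      rw [← Equiv.Perm.iterate_eq_pow]; exact hG.iterate n
    filter_upwards [ih, hc.continuousAt.eventually (hU.mem_nhds (hx n))] with y a b
    rw [pow_succ', pow_succ', Equiv.Perm.mul_apply, Equiv.Perm.mul_apply, a, h _ b]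

/-- Transfer of hyperbolicity from the torus. -/
lemma Big.hyp (hc : c.Big) (g : RMetric 𝕍 M) {f : Equiv.Perm M} {G : Equiv.Perm T} (hG : G ∈ TDiff)
    {Λ U : Set T} (hΛ : IsClosed Λ) (hS : Λ ⊆ Sq) (hU : IsOpen U) (hΛU : Λ ⊆ U)
    (m : ∀ x ∈ Λ, G x ∈ Λ) (m' : ∀ x ∈ Λ, G⁻¹ x ∈ Λ) (h : ∀ x ∈ U, f (c.j x) = c.j (G x))
    (hh : THyp G Λ) : IsHyperbolic g f (c.j '' Λ) := by
  obtain ⟨Es, Eu, C, lam, hC, h0, h1, H⟩ := hh
  have hG' := MP_fe72db_an.inv_mem_Diff1 hG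
  have h' : ∀ x ∈ (G⁻¹ : Equiv.Perm T) ⁻¹' U, f⁻¹ (c.j x) = c.j (G⁻¹ x) := fun x hx => by
    rw [Equiv.Perm.inv_eq_iff_eq, h _ hx]; simp
  have i : ∀ x ∈ Λ, ∀ n : ℕ, (G ^ n) x ∈ Λ := fun x hx n => MP_fe72db_an.pow_mapsTo m n hx
  have i' : ∀ x ∈ Λ, ∀ n : ℕ, (G⁻¹ ^ n) x ∈ Λ := fun x hx n => MP_fe72db_an.pow_mapsTo m' n hx
  rw [show c.j '' Λ = c.e.symm '' (lift '' Λ) from (image_image c.e.symm lift Λ).symm]
  refine c.hyp_of g (isCompact_lift hΛ hS) (hc.lift_subset hS) subset_rfl (fun z => Es (proj z))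
    (fun z => Eu (proj z)) hC h0 h1 ?_
  rintro _ ⟨x, hx, rfl⟩
  obtain ⟨a1, a2, a3, a4⟩ := H x hx
  simp only [proj_lift]
  have e1 := conj_pow_ev hG.1.continuous hU h fun n => hΛU (i x hx n)
  have e2 := conj_pow_ev hG'.1.continuous (hU.preimage hG'.1.continuous) h'
    fun n => hΛU (m' _ (i' x hx n))
  refine ⟨a1, ⟨_, mem_image_of_mem _ (m x hx), h x (hΛU hx), TD G x,
    hc.D_j hG.1 (hS hx) (hS (m x hx)) (by filter_upwards [hU.mem_nhds (hΛU hx)] using h),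
    by rwa [proj_lift], by rwa [proj_lift]⟩, fun n =>
    ⟨⟨_, mem_image_of_mem _ (i x hx n), (e1 n).self_of_nhds, fun u hu => ⟨_,
      hc.D_j (MP_fe72db_an.pow_mem_Diff1 hG n).1 (hS hx) (hS (i x hx n)) (e1 n) u,
      (a4 n).1 u hu⟩⟩, _, mem_image_of_mem _ (i' x hx n), (e2 n).self_of_nhds, fun u hu => ⟨_,
      hc.D_j (MP_fe72db_an.pow_mem_Diff1 hG' n).1 (hS hx) (hS (i' x hx n)) (e2 n) u,
      (a4 n).2 u hu⟩⟩⟩

end Ch

end Pool.Agent.Lib.MP_fe72db_an.Surf
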