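import Pool.Agent.Lib.MP_fe72db_an.Robust

/-! The perturbation argument on the torus for an abstract class of diffeomorphisms that is stable
under modifications in the basin of a sink inside a given region. -/

open Filter Topology Set Metric
open scoped Pointwise

namespace Pool.Agent.Lib.MP_fe72db_an

/-- A class of diffeomorphisms stable under modification near a sink inside `W`. -/
structure Cls (𝒞 : Set (Equiv.Perm T)) (W : Set T) : Prop where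
  sub : ∀ {f : Equiv.Perm T}, f ∈ 𝒞 → f ∈ Diff1
  modify : ∀ {f f' : Equiv.Perm T}, f ∈ 𝒞 → f' ∈ Diff1 → ∀ {p : T} {K U : Set T}, IsClosed K →
    IsOpen U → K ⊆ U → K ⊆ W → p ∈ K → f p = p → f' p = p → D f' p = D f p →
    (∀ x, x ∉ K → f' x = f x) → MapsTo f K K → MapsTo f' K K → Attr f p U → Attr f' p U → f' ∈ 𝒞

/-- A commuting diffeomorphism supported on the orbit of a wandering set. -/
def Comm (g : Equiv.Perm T) (W : Set T) : Prop :=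
  ∃ c ∈ Diff1, c * g = g * c ∧ c ≠ 1 ∧ ∃ S : Set T, ∃ x₀ ∈ S, c x₀ ∈ S ∧
    (∀ i : ℕ, 1 ≤ i → ∀ x ∈ S, (g ^ i) x ∉ S) ∧ (∀ x ∈ S, ∃ n : ℕ, ∀ m ≥ n, (g⁻¹ ^ m) x ∈ W) ∧
    ∀ x, (∀ n : ℤ, x ∉ (g ^ n : Equiv.Perm T) '' S) → c x = x

variable {𝒞 : Set (Equiv.Perm T)} {W W₀ : Set T}

lemma Cls.perturb_sink (hC : Cls 𝒞 W) {f : Equiv.Perm T} (hf : f ∈ 𝒞) {p : T} {P : E ≃L[ℝ] ℂ} {ρ κ ρ₁ : ℝ}
    (hc : Contr f p P ρ κ) (h0 : 0 ≤ κ) (hκ : κ < 1) (h1 : 0 < ρ₁) (h2 : ρ₁ < ρ)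
    (hsm : ρ * inm P < 1 / 4) (hW : czone p P ρ₁ ⊆ W) :
    ∃ η > 0, ∀ h ∈ Diff1, (∀ x, x ∉ czone p P ρ₁ → h x = x) → h p = p → D h p = 1 →
      (∀ x, ‖D h x - 1‖ ≤ η) →
      f * h ∈ 𝒞 ∧ Attr (f * h) p (zone p P ρ) ∧ MapsTo (f * h) (czone p P ρ₁) (czone p P ρ₁) := by
  have ht : Tendsto (fun η : ℝ => 1 + η * cst P) (𝓝 0) (𝓝 1) := by
    have : Continuous fun η : ℝ => 1 + η * cst P := by fun_prop
    simpa using this.tendsto 0
  have e1 := (ht.const_mul κ).eventually_lt_const (by simpa using hκ)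
  have e2 := (ht.mul_const ρ₁).eventually_lt_const (by simpa using h2)
  obtain ⟨η, ⟨hη1, hη2⟩, hη⟩ := (((e1.and e2).filter_mono nhdsWithin_le_nhds).and
    (self_mem_nhdsWithin (a := (0 : ℝ)) (s := Ioi 0))).exists
  have hη0 : 0 < η := hη
  have hθ : 1 ≤ 1 + η * cst P := by linarith [mul_nonneg hη0.le (cst_nonneg P)]
  refine ⟨η, hη0, fun h hh hsupp hp hDp hD => ?_⟩
  have hc' : Contr (f * h) p P ρ (κ * (1 + η * cst P)) := by
    intro v hv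
    by_cases hK : p + proj v ∈ czone p P ρ₁
    · obtain ⟨v', hv', e⟩ := hK
      have : v = v' := by
        apply proj_injOn (add_left_cancel e)
        have a1 := norm_le_of_P hv.le
        have a2 := norm_le_of_P (hv'.trans h2.le)
        linarith [norm_sub_le v v']
      subst this
      obtain ⟨w, hw, hw'⟩ := exists_lift_small hh hp hD v
      have b1 : ‖P w‖ ≤ (1 + η * cst P) * ‖P v‖ := by
        have : P w = P v + P (w - v) := by simp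
        rw [this]
        refine (norm_add_le _ _).trans ?_
        have : ‖P (w - v)‖ ≤ ‖(P : E →L[ℝ] ℂ)‖ * (η * (inm P * ‖P v‖)) :=
          (norm_P_le P _).trans (mul_le_mul_of_nonneg_left
            (hw'.trans (mul_le_mul_of_nonneg_left (norm_le_inm P v) hη0.le)) (norm_nonneg _))
        unfold cst; unfold inm at this; nlinarith
      have b2 : ‖P w‖ < ρ := (b1.trans (mul_le_mul_of_nonneg_left hv' (by linarith))).trans_lt hη2
      obtain ⟨u, hu, hu'⟩ := hc w b2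
      refine ⟨u, by rw [Equiv.Perm.mul_apply, hw, hu], hu'.trans ?_⟩
      rw [mul_assoc]; exact mul_le_mul_of_nonneg_left b1 h0
    · obtain ⟨u, hu, hu'⟩ := hc v hv
      refine ⟨u, by rw [Equiv.Perm.mul_apply, hsupp _ hK, hu], hu'.trans ?_⟩
      apply mul_le_mul_of_nonneg_right _ (norm_nonneg _)
      exact le_mul_of_one_le_right h0 hθ
  have hρ : 0 < ρ := h1.trans h2
  have ha' := hc'.attr (mul_nonneg h0 (by linarith)) hη1
  have hm' := hc'.mapsTo hη1.le h2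
  refine ⟨hC.modify hf (mul_mem_Diff1 (hC.sub hf) hh) (isClosed_czone p P ρ₁) (isOpen_zone p P ρ)
    (czone_subset_zone p P h2) hW (mem_of_mem_nhds (czone_mem_nhds p P h1)) (hc.fixed hρ) (hc'.fixed hρ) ?_ ?_
    (hc.mapsTo hκ.le h2) hm' (hc.attr h0 hκ) ha', ha', hm'⟩
  · rw [D_mul (hC.sub hf) hh, hp, hDp, mul_one]
  · intro x hx
    rw [Equiv.Perm.mul_apply, hsupp x hx]

lemma Cls.linearize (hC : Cls 𝒞 W₀) {f : Equiv.Perm T} (hf : f ∈ 𝒞) {p : T} (hW₀ : W₀ ∈ 𝓝 p) (hp : f p = p) {P : E ≃L[ℝ] ℂ}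
    {a : ℝ} (ha0 : 0 ≤ a) (ha : a < 1) (hconf : ∀ v, ‖P (D f p v)‖ = a * ‖P v‖) {ε : ℝ}
    (hε : 0 < ε) {W : Set T} (hW : W ∈ 𝓝 p) :
    ∃ f₁ ∈ 𝒞, Near f₁ f ε ∧ ∃ K ⊆ W, IsClosed K ∧ K ∈ 𝓝 p ∧ (∀ x, x ∉ K → f₁ x = f x) ∧
      MapsTo f K K ∧ Attr f₁ p K ∧ ∃ ρ > 0, Lin f₁ p P (D f p) ρ := by
  obtain ⟨ρ₀, hρ₀, hc₀⟩ := exists_contr (hC.sub hf) hp ha hconf
  obtain ⟨ρ, ⟨⟨hρW, hρs⟩, hρ1⟩, hρ⟩ := ((((eventually_czone_subset P (inter_mem hW hW₀)).and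
    (Iio_mem_nhds hρ₀)).filter_mono nhdsWithin_le_nhds).and
    (self_mem_nhdsWithin (a := (0 : ℝ)) (s := Ioi 0))).exists
  have hρ : 0 < ρ := hρ
  have hc := hc₀.mono (le_of_lt hρ1)
  have hκ : (1 + a) / 2 < 1 := by linarith
  obtain ⟨η₁, hη₁, H1⟩ := hC.perturb_sink hf hc (by linarith) hκ (half_pos hρ) (half_lt_self hρ) hρs
    fun x hx => (hρW (zone_subset_czone p P le_rfl (czone_subset_zone p P (half_lt_self hρ) hx))).2
  obtain ⟨δ, hδ, H2⟩ := near_mul_right (hC.sub hf) hε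
  have hp' : f⁻¹ p = p := Equiv.Perm.inv_eq_iff_eq.2 hp.symm
  obtain ⟨G, hG, hG0, hGf, hGD⟩ := (hC.sub hf).2.exists_lift_at p
  set A := D f p with hA
  have hw : ContDiff ℝ 1 fun v => G (A v) - v := (hG.comp A.contDiff).sub contDiff_id
  have hwD : fderiv ℝ (fun v => G (A v) - v) 0 = 0 := by
    have d1 : HasFDerivAt G (D (f⁻¹ : Equiv.Perm T) p) (A 0) := by
      have := (hG.differentiable one_ne_zero 0).hasFDerivAt
      rw [hGD, proj_zero, add_zero] at this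
      simpa using this
    have d2 := (d1.comp (0 : E) A.hasFDerivAt).sub (hasFDerivAt_id (0 : E))
    have e := D_inv_mul (hC.sub hf) p
    rw [hp] at e
    have e' : (D (f⁻¹ : Equiv.Perm T) p).comp A - ContinuousLinearMap.id ℝ E = 0 :=
      sub_eq_zero.2 e
    rw [e'] at d2
    exact d2.fderiv
  have hη : 0 < min (min η₁ (δ / 2)) (1 / 2) := by positivity
  obtain ⟨r, ⟨⟨U, hU, hUb, hU1, hU2⟩, hr1⟩, hr⟩ := (((exists_cutoff P hw (by simp [hG0]) hwD hη).and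
    ((Iio_mem_nhds (show (0 : ℝ) < ρ / 4 by positivity)) |> mem_nhdsWithin_of_mem_nhds)).and
    (self_mem_nhdsWithin (a := (0 : ℝ)) (s := Ioi 0))).exists
  have hr : 0 < r := hr
  have hr1 : r < ρ / 4 := hr1
  obtain ⟨Φ, hΦ, hΦ1, hΦ2⟩ := exists_perm_of_small hU fun v => (hUb v).trans (min_le_right _ _)
  have hin := inm_nonneg P
  have hS : Supp Φ := by
    refine ⟨1 / 4, by norm_num, fun v hv => ?_⟩
    rw [hΦ, hU2, add_zero]
    by_contra hc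
    have := norm_le_of_P (not_le.1 hc).le
    nlinarith
  have hDh : ∀ x, D (tpPerm p Φ hS) x - 1 = fderiv ℝ U (lift (x - p)) := by
    intro x
    have e1 : D (tpPerm p Φ hS) x = fderiv ℝ Φ (lift (x - p)) := D_tp p hΦ1 hS x
    have e2 : (Φ : E → E) = fun v => v + U v := funext hΦ
    have e3 : HasFDerivAt (fun v => v + U v) (1 + fderiv ℝ U (lift (x - p))) (lift (x - p)) :=
      (hasFDerivAt_id _).add (hU.differentiable one_ne_zero _).hasFDerivAt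
    rw [e1, e2, e3.fderiv]
    exact add_sub_cancel_left _ _
  have hU0 : U 0 = 0 := by rw [hU1 0 (by simpa using hr.le)]; simp [hG0]
  have hhp : tpPerm p Φ hS p = p := tp_eq_self p (by simp [hΦ, hU0])
  have hmem := tpPerm_mem p hS hΦ1 hΦ2
  have hsupp : ∀ x, x ∉ czone p P (ρ / 2) → tpPerm p Φ hS x = x := by
    intro x hx
    apply tp_eq_self
    rw [hΦ, hU2, add_zero]
    by_contra hc
    exact hx ⟨lift (x - p), by linarith [not_le.1 hc], (add_proj_lift_sub _ _).symm⟩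
  have hDp : D (tpPerm p Φ hS) p = 1 := by
    rw [← sub_eq_zero, hDh, sub_self, lift_zero, ← hwD]
    apply Filter.EventuallyEq.fderiv_eq
    have hc : Continuous fun v : E => ‖P v‖ := by fun_prop
    filter_upwards [(hc.tendsto 0).eventually_lt_const (show ‖P 0‖ < r by simpa)]
      with u hu using hU1 u hu.le
  obtain ⟨m1, m2, -⟩ := H1 _ hmem hsupp hhp hDp fun x => by
    rw [hDh]; exact (hUb _).trans ((min_le_left _ _).trans (min_le_left _ _))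
  refine ⟨_, m1, H2 _ hmem (near_one_of_D hmem hhp (η := δ / 2) (fun x => ?_) (half_lt_self hδ)),
    czone p P (ρ / 2), fun x hx => (hρW (zone_subset_czone p P le_rfl
      (czone_subset_zone p P (half_lt_self hρ) hx))).1, isClosed_czone _ _ _,
    czone_mem_nhds p P (half_pos hρ), fun x hx => by rw [Equiv.Perm.mul_apply, hsupp x hx],
    hc.mapsTo hκ.le (half_lt_self hρ), fun e he => ?_, r, hr, fun v hv => ?_⟩
  · rw [hDh]; exact (hUb _).trans ((min_le_left _ _).trans (min_le_right _ _))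
  · filter_upwards [m2 e he] with n hn x hx using hn x (czone_subset_zone p P (half_lt_self hρ) hx)
  · have hv2 : ‖v‖ < 1 / 2 := by
      have := norm_le_of_P hv.le
      nlinarith
    rw [Equiv.Perm.mul_apply, tpPerm_apply, tp_apply p _ hv2, hΦ, hU1 v hv.le, add_sub_cancel,
      ← hp', ← hGf, hp']
    simp

lemma Cls.half (hC' : Cls 𝒞 W) {f : Equiv.Perm T} (hf : f ∈ 𝒞) {p : T} {P : E ≃L[ℝ] ℂ} {A : E →L[ℝ] E} {ρ a : ℝ}
    (hlin : Lin f p P A ρ) (hconf : ∀ v, ‖P (A v)‖ = a * ‖P v‖) (ha0 : 0 < a) (ha : a < 1)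
    (hsm : ρ * inm P < 1 / 4) {S : Set T} (hS : IsCompact S) (M : Model S) (m : ℕ) {ρ' : ℝ}
    (hρ'0 : 0 < ρ') (hρ' : ρ' < ρ) (hW : czone p P ρ' ⊆ W)
    (hann : ∀ x ∈ S, ∃ v, a * ρ' < ‖P v‖ ∧ ‖P v‖ < ρ' ∧ (f ^ m) x = p + proj v)
    {ε : ℝ} (hε : 0 < ε) :
    ∃ f' ∈ 𝒞, Near f' f ε ∧ (∀ x, x ∉ czone p P ρ' → f' x = f x) ∧
      MapsTo f' (czone p P ρ') (czone p P ρ') ∧ (∀ i : ℕ, 1 ≤ i → ∀ x ∈ S, (f' ^ i) x ∉ S) ∧
      (∀ᶠ n : ℕ in atTop, ∀ x ∈ S, (f' ^ n) x ∈ czone p P ρ') ∧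
      ∀ t, ∀ η > 0, ∀ᶠ n : ℕ in atTop, ∀ x,
        ‖D (f' ^ n * M.ξ t * (f' ^ n)⁻¹ : Equiv.Perm T) x - 1‖ ≤ η := by
  have hD := hC'.sub hf
  have hC := cst_nonneg P
  have hi := inm_nonneg P
  let Sj : ℕ → Set T := fun j => (f ^ (j + m) : Equiv.Perm T) '' S
  have hSj : ∀ j, ∀ y ∈ Sj j, ∃ w, a ^ (j + 1) * ρ' < ‖P w‖ ∧ ‖P w‖ < a ^ j * ρ' ∧
      y = p + proj w := by
    rintro j _ ⟨x, hx, rfl⟩
    obtain ⟨v, h1, h2, h3⟩ := hann x hx
    have haj : 0 < a ^ j := by positivity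
    refine ⟨(A ^ j) v, ?_, ?_, ?_⟩
    · rw [conf_pow hconf, pow_succ, mul_assoc]; gcongr
    · rw [conf_pow hconf]; gcongr
    · rw [pow_add, Equiv.Perm.mul_apply, h3, hlin.pow hconf ha0.le ha.le j v (h2.trans hρ')]
  have hle : ∀ j, a ^ j * ρ' ≤ ρ' := fun j =>
    mul_le_of_le_one_left hρ'0.le (pow_le_one₀ ha0.le ha.le)
  have hSK : ∀ j, Sj j ⊆ czone p P ρ' := fun j y hy => by
    obtain ⟨w, -, h2, h3⟩ := hSj j y hy
    exact ⟨w, h2.le.trans (hle j), h3⟩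
  have hinj : ∀ v w, ‖P v‖ ≤ ρ' → ‖P w‖ ≤ ρ' → p + proj v = p + proj w → v = w := by
    intro v w hv hw e
    apply proj_injOn (add_left_cancel e)
    have a1 := norm_le_of_P (hv.trans hρ'.le)
    have a2 := norm_le_of_P (hw.trans hρ'.le)
    linarith [norm_sub_le v w]
  have hdisj' : ∀ i j, i < j → Disjoint (Sj i) (Sj j) := by
    intro i j hij
    rw [Set.disjoint_left]
    intro y hy hy'
    obtain ⟨v, h1, h2, h3⟩ := hSj i y hy
    obtain ⟨w, -, h5, h6⟩ := hSj j y hy'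
    have := hinj v w (h2.le.trans (hle i)) (h5.le.trans (hle j)) (h3.symm.trans h6)
    subst this
    have : a ^ j * ρ' ≤ a ^ (i + 1) * ρ' := by
      gcongr ?_ * _
      exact pow_le_pow_of_le_one ha0.le ha.le hij
    linarith
  have hdisj : ∀ i j, i ≠ j → Disjoint (Sj i) (Sj j) := fun i j hij => by
    rcases lt_or_gt_of_ne hij with h | h
    · exact hdisj' i j h
    · exact (hdisj' j i h).symm
  have hpS : ∀ j, p ∉ Sj j := by
    intro j hj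
    obtain ⟨w, h1, h2, h3⟩ := hSj j p hj
    have := hinj 0 w (by simpa using hρ'0.le) (h2.le.trans (hle j)) (by simpa using h3)
    subst this
    have : 0 < a ^ (j + 1) * ρ' := by positivity
    simp at h1; linarith
  have hcl : ∀ j, IsClosed (Sj j) := fun j =>
    (hS.image (continuous_of_Diff1 (pow_mem_Diff1 hD _))).isClosed
  have hwand : ∀ i : ℕ, 1 ≤ i → ∀ x ∈ S, (f ^ i) x ∉ S := by
    intro i hi x hx hx'
    refine Set.disjoint_left.1 (hdisj' 0 i hi) ⟨_, hx', rfl⟩ ⟨x, hx, ?_⟩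
    rw [zero_add, add_comm i m, pow_add]; rfl
  have hsmall : ∀ η > 0, ∃ δ > 0, ∀ k ∈ Diff1, (∀ x, x ∉ S → k x = x) → Near k 1 δ →
      ∀ j x, ‖D (f ^ (j + m) * k * (f ^ (j + m))⁻¹ : Equiv.Perm T) x - 1‖ ≤ η := by
    intro η hη
    have hη' : 0 < η / (cst P * cst P + 1) := by positivity
    obtain ⟨δ, hδ, H⟩ := near_conj (pow_mem_Diff1 hD m) hη'
    refine ⟨δ, hδ, fun k hk hs hn j x => ?_⟩
    have e : f ^ (j + m) * k * (f ^ (j + m))⁻¹ = f ^ j * (f ^ m * k * (f ^ m)⁻¹) * (f ^ j)⁻¹ := by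
      rw [pow_add]; group
    rw [e]
    have hz : (f ^ m : Equiv.Perm T) '' S ⊆ zone p P ρ := by
      have := (hSK 0).trans (czone_subset_zone p P hρ')
      simpa [Sj] using this
    refine (conj_deriv_bound hD hlin hconf ha0 ha.le
      (hS.image (continuous_of_Diff1 (pow_mem_Diff1 hD m))).isClosed hz
      (mul_mem_Diff1 (mul_mem_Diff1 (pow_mem_Diff1 hD m) hk) (inv_mem_Diff1 (pow_mem_Diff1 hD m)))
      (conj_supp hs) (fun y => by simpa only [D_one] using (H k hk hn y).2.le) j x).trans ?_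
    rw [mul_div_assoc', div_le_iff₀ (by positivity)]
    nlinarith
  obtain ⟨η₁, hη₁, H1⟩ := hC'.perturb_sink hf (hlin.contr hconf) ha0.le ha hρ'0 hρ' hsm hW
  obtain ⟨δ₃, hδ₃, H2⟩ := near_mul_right hD hε
  have hη₀ : 0 < min η₁ (δ₃ / 2) := by positivity
  obtain ⟨δ₁, hδ₁, H3⟩ := hsmall _ hη₀
  obtain ⟨δ₂, hδ₂, H4⟩ := M.κ_near δ₁ hδ₁
  let d : ℕ → ℝ := fun j => δ₂ / 2 * (1 / ((j : ℝ) + 1))
  have hd1 : ∀ j, |d j| < δ₂ := fun j => by
    have h1 : 0 < 1 / ((j : ℝ) + 1) := by positivity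
    have h2 : 1 / ((j : ℝ) + 1) ≤ 1 := by
      rw [div_le_one (by positivity)]; linarith [Nat.cast_nonneg (α := ℝ) j]
    rw [abs_of_pos (by positivity)]
    simp only [d]; nlinarith
  have hd2 : Tendsto d atTop (𝓝 0) := by
    simpa only [mul_zero] using tendsto_one_div_add_atTop_nhds_zero_nat.const_mul (δ₂ / 2)
  let s : ℕ → ℝ := fun j => ∑ i ∈ Finset.range j, d i
  have hs : Tendsto s atTop atTop := by
    simp only [s, d, ← Finset.mul_sum]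
    exact Real.tendsto_sum_range_one_div_nat_succ_atTop.const_mul_atTop (half_pos hδ₂)
  let k : ℕ → Equiv.Perm T := fun j => f ^ (j + m) * M.κ (d j) * (f ^ (j + m))⁻¹
  have hk : ∀ j, k j ∈ Diff1 := fun j =>
    mul_mem_Diff1 (mul_mem_Diff1 (pow_mem_Diff1 hD _) (M.κ_mem _))
      (inv_mem_Diff1 (pow_mem_Diff1 hD _))
  have hks : ∀ j x, x ∉ Sj j → k j x = x := fun j => conj_supp (M.κ_supp _)
  obtain ⟨h, hh, hh1, hh2⟩ := exists_glue hk hcl hks hdisj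
    (fun j x => by
      by_cases hx : x ∈ Sj j
      · have a1 := dist_le_of_mem_czone (hSK j hx)
        have a2 := dist_le_of_mem_czone (hSK j (perm_mapsTo_of_supp (hks j) hx))
        have a3 := dist_triangle_right (k j x) x p
        nlinarith
      · simp [hks j x hx])
    (fun η hη => by
      obtain ⟨δ, hδ, G1⟩ := hsmall η hη
      obtain ⟨δ', hδ', G2⟩ := M.κ_near δ hδ
      rw [Nat.cofinite_eq_atTop]
      filter_upwards [hd2.abs.eventually_lt_const (by simpa using hδ')] with j hj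
      exact G1 _ (M.κ_mem _) (M.κ_supp _) (G2 _ hj) j)
  have hhD : ∀ x, ‖D h x - 1‖ ≤ min η₁ (δ₃ / 2) := by
    intro x
    by_cases hx : ∃ j, x ∈ Sj j
    · obtain ⟨j, hj⟩ := hx
      rw [(hh1 j x hj).2]
      exact H3 _ (M.κ_mem _) (M.κ_supp _) (H4 _ (hd1 j)) j x
    · push Not at hx
      rw [(hh2 x hx).2, sub_self, norm_zero]; exact hη₀.le
  have hhK : ∀ x, x ∉ czone p P ρ' → h x = x := fun x hx =>
    (hh2 x fun j hj => hx (hSK j hj)).1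
  obtain ⟨m1, -, m3⟩ := H1 h hh hhK (hh2 p hpS).1 (hh2 p hpS).2
    fun x => (hhD x).trans (min_le_left _ _)
  have hit1 : ∀ i ≤ m, ∀ x ∈ S, ((f * h) ^ i) x = (f ^ i) x := by
    intro i hi x hx
    induction i with
    | zero => rfl
    | succ i ih =>
      rw [pow_succ', pow_succ', Equiv.Perm.mul_apply, Equiv.Perm.mul_apply, Equiv.Perm.mul_apply,
        ih (by omega), (hh2 _ _).1]
      rintro j ⟨y, hy, e⟩
      have e1 : j + m = i + (j + m - i) := by omega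
      rw [e1, pow_add, Equiv.Perm.mul_apply] at e
      exact hwand (j + m - i) (by omega) y hy (((f ^ i).injective e).symm ▸ hx)
  have hit2 : ∀ j, ∀ x ∈ S, ((f * h) ^ (j + m)) x = (f ^ (j + m) * M.κ (s j)) x := by
    intro j x hx
    induction j with
    | zero => simp [s, M.κ_zero, hit1 m le_rfl x hx]
    | succ j ih =>
      have e1 : j + 1 + m = (j + m) + 1 := by ring
      have e2 : s (j + 1) = d j + s j := by simp only [s]; rw [Finset.sum_range_succ, add_comm]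
      have e3 : (f ^ (j + m) * M.κ (s j)) x ∈ Sj j :=
        ⟨_, perm_mapsTo_of_supp (M.κ_supp _) hx, rfl⟩
      rw [e1, pow_succ', Equiv.Perm.mul_apply, ih, Equiv.Perm.mul_apply f h, (hh1 j _ e3).1, e2,
        M.κ_add, pow_succ']
      simp [k]
  have hit3 : ∀ j, ∀ x ∈ S, ((f * h) ^ (j + m)) x ∈ Sj j := fun j x hx => by
    rw [hit2 j x hx]; exact ⟨_, perm_mapsTo_of_supp (M.κ_supp _) hx, rfl⟩
  refine ⟨f * h, m1, H2 h hh (near_one_of_D hh (hh2 p hpS).1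
    (fun x => (hhD x).trans (min_le_right _ _)) (half_lt_self hδ₃)),
    fun x hx => by rw [Equiv.Perm.mul_apply, hhK x hx], m3, fun i hi x hx hx' => ?_, ?_,
    fun t η hη => ?_⟩
  · refine Set.disjoint_left.1 (hdisj' 0 i hi) (hit3 0 _ hx') ?_
    have := hit3 i x hx
    rwa [add_comm i m, pow_add, ← zero_add m] at this
  · rw [eventually_atTop]
    refine ⟨m, fun n hn x hx => ?_⟩
    obtain ⟨j, rfl⟩ := Nat.exists_eq_add_of_le' hn
    exact hSK j (hit3 j x hx)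
  · obtain ⟨δ, hδ, G1⟩ := hsmall η hη
    obtain ⟨δ', hδ', G2⟩ := M.ξ_near δ hδ
    have ht : Tendsto (fun j => |Real.exp (-s j) * t|) atTop (𝓝 0) := by
      simpa using ((Real.tendsto_exp_neg_atTop_nhds_zero.comp hs).mul_const t).abs
    obtain ⟨J, hJ⟩ := eventually_atTop.1 (ht.eventually_lt_const hδ')
    rw [eventually_atTop]
    refine ⟨J + m, fun n hn x => ?_⟩
    obtain ⟨j, rfl⟩ := Nat.exists_eq_add_of_le' ((Nat.le_add_left m J).trans hn)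
    have e : (f * h) ^ (j + m) * M.ξ t * ((f * h) ^ (j + m))⁻¹ =
        f ^ (j + m) * M.ξ (Real.exp (-s j) * t) * (f ^ (j + m))⁻¹ := by
      rw [conj_congr (M.ξ_supp t) (hit2 j), ← M.conj]; group
    rw [e]
    exact G1 _ (M.ξ_mem _) (M.ξ_supp _) (G2 _ (hJ j (by omega))) j x

lemma comm_of_model {g : Equiv.Perm T} (hg : g ∈ Diff1) {S : Set T} (hS : IsCompact S)
    {x₀ : T} (hx₀ : x₀ ∈ S) (M : Model S) (hw : ∀ i : ℕ, 1 ≤ i → ∀ x ∈ S, (g ^ i) x ∉ S)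
    (hd : ∀ᶠ n : ℤ in cofinite, ∀ x ∈ S, ∀ y ∈ S, dist ((g ^ n) x) ((g ^ n) y) < 1 / 2)
    (hη : ∀ t, ∀ η > 0, ∀ᶠ n : ℤ in cofinite, ∀ x,
      ‖D (g ^ n * M.ξ t * (g ^ n)⁻¹ : Equiv.Perm T) x - 1‖ ≤ η)
    (hW : ∀ x ∈ S, ∃ n : ℕ, ∀ m ≥ n, (g⁻¹ ^ m) x ∈ W) : Comm g W := by
  have hwz : ∀ i : ℤ, 0 < i → ∀ x ∈ S, (g ^ i) x ∉ S := by
    intro i hi
    obtain ⟨m, rfl⟩ := Int.eq_ofNat_of_zero_le hi.le
    rw [zpow_natCast]
    exact hw m (by exact_mod_cast hi)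
  rw [Filter.eventually_cofinite] at hd
  have h1 : ∀ n : ℤ, ∀ᶠ t in 𝓝 (0 : ℝ), ∀ y, dist ((g ^ n) (M.ξ t y)) ((g ^ n) y) < 1 / 2 := by
    intro n
    obtain ⟨δ, hδ, H⟩ := unifCont (continuous_of_Diff1 (zpow_mem_Diff1 hg n))
      (show (0 : ℝ) < 1 / 2 by norm_num)
    obtain ⟨δ', hδ', H'⟩ := M.ξ_near δ hδ
    filter_upwards [Metric.ball_mem_nhds (0 : ℝ) hδ'] with t ht y
    exact H _ _ (H' t (by simpa using ht) y).1
  obtain ⟨t, ht, ht0⟩ := ((((eventually_all_finite hd).2 fun n _ => h1 n).filter_mono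
    nhdsWithin_le_nhds).and (self_mem_nhdsWithin (a := (0 : ℝ)) (s := Ioi 0))).exists
  have ht0 : 0 < t := ht0
  let Sn : ℤ → Set T := fun n => (g ^ n : Equiv.Perm T) '' S
  have hdisj' : ∀ i j, i < j → Disjoint (Sn i) (Sn j) := by
    intro i j hij
    rw [Set.disjoint_left]
    rintro _ ⟨x, hx, rfl⟩ ⟨y, hy, e⟩
    have e1 : g ^ j = g ^ i * g ^ (j - i) := by group
    rw [e1, Equiv.Perm.mul_apply] at e
    exact hwz (j - i) (by omega) y hy (((g ^ i).injective e).symm ▸ hx)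
  have hdisj : ∀ i j, i ≠ j → Disjoint (Sn i) (Sn j) := fun i j hij => by
    rcases lt_or_gt_of_ne hij with h | h
    · exact hdisj' i j h
    · exact (hdisj' j i h).symm
  obtain ⟨c, hc, hc1, hc2⟩ := exists_glue (k := fun n : ℤ => g ^ n * M.ξ t * (g ^ n)⁻¹) (S := Sn)
    (fun n => mul_mem_Diff1 (mul_mem_Diff1 (zpow_mem_Diff1 hg n) (M.ξ_mem t))
      (inv_mem_Diff1 (zpow_mem_Diff1 hg n)))
    (fun n => (hS.image (continuous_of_Diff1 (zpow_mem_Diff1 hg n))).isClosed)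
    (fun n => conj_supp (M.ξ_supp t)) hdisj
    (fun n x => by
      by_cases hx : x ∈ Sn n
      · obtain ⟨y, hy, rfl⟩ := hx
        have e : (g ^ n * M.ξ t * (g ^ n)⁻¹) ((g ^ n) y) = (g ^ n) (M.ξ t y) := by simp
        rw [e]
        by_cases hn : ∀ x ∈ S, ∀ y ∈ S, dist ((g ^ n) x) ((g ^ n) y) < 1 / 2
        · exact hn _ (perm_mapsTo_of_supp (M.ξ_supp t) hy) _ hy
        · exact ht n hn y
      · rw [conj_supp (M.ξ_supp t) x hx]; simp)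
    (hη t)
  have hcomm : c * g = g * c := by
    ext1 x
    rw [Equiv.Perm.mul_apply, Equiv.Perm.mul_apply]
    by_cases hx : ∃ n, x ∈ Sn n
    · obtain ⟨n, y, hy, rfl⟩ := hx
      have e : g ((g ^ n) y) = (g ^ (1 + n)) y := by rw [zpow_one_add]; rfl
      rw [(hc1 n _ ⟨y, hy, rfl⟩).1, e, (hc1 (1 + n) _ ⟨y, hy, rfl⟩).1]
      simp [zpow_one_add]
    · push Not at hx
      rw [(hc2 x hx).1, (hc2 _ _).1]
      rintro n ⟨y, hy, e⟩
      refine hx (-1 + n) ⟨y, hy, ?_⟩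
      rw [zpow_add, zpow_neg_one, Equiv.Perm.mul_apply, e]; simp
  have hS0 : ∀ x ∈ S, c x = M.ξ t x := fun x hx => by
    simpa using (hc1 0 x ⟨x, hx, by simp⟩).1
  refine ⟨c, hc, hcomm, fun h1 => M.ξ_ne t ht0.ne' ?_, S, x₀, hx₀, ?_, hw, hW,
    fun x hx => (hc2 x hx).1⟩
  · ext1 x
    by_cases hx : x ∈ S
    · rw [← hS0 x hx, h1]
    · exact M.ξ_supp t x hx
  · rw [hS0 x₀ hx₀]; exact perm_mapsTo_of_supp (M.ξ_supp t) hx₀

lemma Cls.core (hC : Cls 𝒞 W) (hC' : Cls 𝒞⁻¹ W) {f : Equiv.Perm T} (hf : f ∈ 𝒞) {p r : T}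
    (hWp' : W ∈ 𝓝 p) (hWr' : W ∈ 𝓝 r) (hpr : p ≠ r) {P Q : E ≃L[ℝ] ℂ}
    {A B : E →L[ℝ] E} {a b ρ₁ ρ₂ : ℝ} (hρ₁ : 0 < ρ₁) (hρ₂ : 0 < ρ₂) (hA : Lin f p P A ρ₁)
    (hB : Lin f⁻¹ r Q B ρ₂) (cA : ∀ v, ‖P (A v)‖ = a * ‖P v‖) (cB : ∀ v, ‖Q (B v)‖ = b * ‖Q v‖)
    (ha0 : 0 < a) (ha : a < 1) (hb0 : 0 < b) (hb : b < 1) {x₀ : T} (hxp : x₀ ≠ p) (hxr : x₀ ≠ r)
    (h1 : Tendsto (fun n : ℕ => (f ^ n) x₀) atTop (𝓝 p))
    (h2 : Tendsto (fun n : ℕ => (f⁻¹ ^ n) x₀) atTop (𝓝 r)) {ε : ℝ} (hε : 0 < ε) :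
    ∃ g ∈ 𝒞, Near g f ε ∧ Comm g W := by
  obtain ⟨Wp, Wr, hWp, hWr, hpW, hrW, hW⟩ := t2_separation hpr
  obtain ⟨σ₁, ⟨⟨hσ₁W, hσ₁s⟩, hσ₁1⟩, hσ₁⟩ := ((((eventually_czone_subset P
    (inter_mem (inter_mem (hWp.mem_nhds hpW) hWp') (compl_singleton_mem_nhds hxp.symm))).and
    (Iio_mem_nhds hρ₁)).filter_mono nhdsWithin_le_nhds).and
    (self_mem_nhdsWithin (a := (0 : ℝ)) (s := Ioi 0))).exists
  obtain ⟨σ₂, ⟨⟨hσ₂W, hσ₂s⟩, hσ₂1⟩, hσ₂⟩ := ((((eventually_czone_subset Q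
    (inter_mem (inter_mem (hWr.mem_nhds hrW) hWr') (compl_singleton_mem_nhds hxr.symm))).and
    (Iio_mem_nhds hρ₂)).filter_mono nhdsWithin_le_nhds).and
    (self_mem_nhdsWithin (a := (0 : ℝ)) (s := Ioi 0))).exists
  have hσ₁ : 0 < σ₁ := hσ₁
  have hσ₂ : 0 < σ₂ := hσ₂
  replace hA := hA.mono (le_of_lt hσ₁1)
  replace hB := hB.mono (le_of_lt hσ₂1)
  obtain ⟨m₁, τ₁, hτ₁, hτ₁', hV₁⟩ := exists_annulus (hC.sub hf) ((hA.contr cA).fixed hσ₁) P hσ₁ ha0 ha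
    hxp h1
  obtain ⟨m₂, τ₂, hτ₂, hτ₂', hV₂⟩ := exists_annulus (inv_mem_Diff1 (hC.sub hf))
    ((hB.contr cB).fixed hσ₂) Q hσ₂ hb0 hb hxr h2
  have sub₁ : czone p P τ₁ ⊆ czone p P σ₁ :=
    (czone_subset_zone p P hτ₁').trans (zone_subset_czone p P le_rfl)
  have sub₂ : czone r Q τ₂ ⊆ czone r Q σ₂ :=
    (czone_subset_zone r Q hτ₂').trans (zone_subset_czone r Q le_rfl)
  have hV₃ : (czone p P τ₁)ᶜ ∈ 𝓝 x₀ :=
    (isClosed_czone _ _ _).isOpen_compl.mem_nhds fun hc => (hσ₁W (sub₁ hc)).2 rfl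
  have hV₄ : (czone r Q τ₂)ᶜ ∈ 𝓝 x₀ :=
    (isClosed_czone _ _ _).isOpen_compl.mem_nhds fun hc => (hσ₂W (sub₂ hc)).2 rfl
  obtain ⟨S, hSV, hS, hx₀, ⟨M⟩⟩ := exists_model (inter_mem (inter_mem hV₁ hV₂) (inter_mem hV₃ hV₄))
  obtain ⟨f₃, hf₃, n₃, o₃, -, w₃, z₃, d₃⟩ := hC.half hf hA cA ha0 ha hσ₁s hS M m₁ hτ₁ hτ₁'
    (fun x hx => (hσ₁W (sub₁ hx)).1.2)
    (fun x hx => (hSV hx).1.1) (half_pos hε)
  have hB₃ : Lin f₃⁻¹ r Q B σ₂ := hB.of_inv_modify cB hb.le (K := czone p P τ₁)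
    (by simpa only [inv_inv] using o₃) fun x hx hx' =>
      Set.disjoint_left.1 hW (hσ₁W (sub₁ hx')).1.1 (hσ₂W (zone_subset_czone r Q le_rfl hx)).1.1
  obtain ⟨δ, hδ, Hδ⟩ := near_inv (inv_mem_Diff1 (hC.sub hf₃)) (half_pos hε)
  obtain ⟨F₄, hF₄, n₄, o₄, -, -, z₄, d₄⟩ := hC'.half (Set.inv_mem_inv.2 hf₃) hB₃ cB hb0 hb hσ₂s hS
    M m₂ hτ₂ hτ₂' (fun x hx => (hσ₂W (sub₂ hx)).1.2)
    (fun x hx => by
      rw [inv_pow_eq_of_notMem ((hA.contr cA).mapsTo ha.le hτ₁') o₃ m₂ (hSV hx).2.1]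
      exact (hSV hx).1.2) hδ
  have hfw : ∀ n : ℕ, ∀ x ∈ S, (F₄⁻¹ ^ n) x = (f₃ ^ n) x := fun n x hx => by
    rw [inv_pow_eq_of_notMem ((hB₃.contr cB).mapsTo hb.le hτ₂') o₄ n (hSV hx).2.2, inv_inv]
  have hneg : ∀ n : ℕ, F₄⁻¹ ^ (-(n : ℤ)) = F₄ ^ n := fun n => by simp
  refine ⟨F₄⁻¹, Set.mem_inv.1 hF₄, ?_, comm_of_model (inv_mem_Diff1 (hC'.sub hF₄)) hS hx₀ M
    (fun i hi x hx => by rw [hfw i x hx]; exact w₃ i hi x hx) ?_ (fun t η hη => ?_)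
    fun x hx => ?_⟩
  · have := Hδ F₄ (hC'.sub hF₄) n₄
    rw [inv_inv] at this
    simpa using this.trans n₃
  · apply eventually_cofinite_int
    · filter_upwards [z₃] with n hn x hx y hy
      rw [zpow_natCast, hfw n x hx, hfw n y hy]
      have a1 := dist_le_of_mem_czone (sub₁ (hn x hx))
      have a2 := dist_le_of_mem_czone (sub₁ (hn y hy))
      linarith [dist_triangle_right ((f₃ ^ n) x) ((f₃ ^ n) y) p]
    · filter_upwards [z₄] with n hn x hx y hy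
      rw [hneg]
      have a1 := dist_le_of_mem_czone (sub₂ (hn x hx))
      have a2 := dist_le_of_mem_czone (sub₂ (hn y hy))
      linarith [dist_triangle_right ((F₄ ^ n) x) ((F₄ ^ n) y) r]
  · apply eventually_cofinite_int
    · filter_upwards [d₃ t η hη] with n hn
      rwa [zpow_natCast, conj_congr (M.ξ_supp t) (hfw n)]
    · filter_upwards [d₄ t η hη] with n hn
      rwa [hneg]
  · obtain ⟨n, hn⟩ := eventually_atTop.1 z₄
    exact ⟨n, fun m hm => by rw [inv_inv]; exact (hσ₂W (sub₂ (hn m hm x hx))).1.2⟩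

theorem Cls.exists_comm (hC : Cls 𝒞 W) (hC' : Cls 𝒞⁻¹ W) {f : Equiv.Perm T} (hf : f ∈ 𝒞)
    {p r : T} (hWp : W ∈ 𝓝 p) (hWr : W ∈ 𝓝 r) (hpr : p ≠ r)
    (hp : f p = p) (hr : f⁻¹ r = r) {P Q : E ≃L[ℝ] ℂ} {a b : ℝ}
    (cA : ∀ v, ‖P (D f p v)‖ = a * ‖P v‖)
    (cB : ∀ v, ‖Q (D (f⁻¹ : Equiv.Perm T) r v)‖ = b * ‖Q v‖)
    (ha0 : 0 < a) (ha : a < 1) (hb0 : 0 < b) (hb : b < 1) {x₀ : T}
    (h1 : Tendsto (fun n : ℕ => (f ^ n) x₀) atTop (𝓝 p))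
    (h2 : Tendsto (fun n : ℕ => (f⁻¹ ^ n) x₀) atTop (𝓝 r)) {ε : ℝ} (hε : 0 < ε) :
    ∃ g ∈ 𝒞, Near g f ε ∧ Comm g W := by
  have hfix : ∀ (g : Equiv.Perm T) (q : T), g q = q → ∀ n : ℕ, (g ^ n) q = q := by
    intro g q h n
    have : (g ^ n) q ∈ orbit g q := ⟨n, by simp⟩
    rwa [orbit_fixed h] at this
  have hr' : f r = r := (Equiv.Perm.inv_eq_iff_eq.1 hr).symm
  have hp' : f⁻¹ p = p := Equiv.Perm.inv_eq_iff_eq.2 hp.symm
  have hxp : x₀ ≠ p := by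
    rintro rfl
    simp only [hfix _ _ hp'] at h2
    exact hpr (tendsto_nhds_unique tendsto_const_nhds h2)
  have hxr : x₀ ≠ r := by
    rintro rfl
    simp only [hfix _ _ hr'] at h1
    exact hpr (tendsto_nhds_unique h1 tendsto_const_nhds)
  have hε3 : 0 < ε / 3 := by positivity
  obtain ⟨f₁, hf₁, n₁, K₁, hK₁W, hK₁, hK₁p, o₁, m₁, at₁, ρ₁, hρ₁, l₁⟩ := hC.linearize hf hWp hp ha0.le ha
    cA hε3 (inter_mem (compl_singleton_mem_nhds hpr) (compl_singleton_mem_nhds hxp.symm))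
  have hrK : r ∉ K₁ := fun hc => (hK₁W hc).1 rfl
  have hxK : x₀ ∉ K₁ := fun hc => (hK₁W hc).2 rfl
  have hag := agree_inv (hC.sub hf) (hC.sub hf₁) (Λ := {r}) (by rintro _ rfl; exact hr)
    (by
      rintro x rfl
      exact ⟨o₁ x hrK, D_congr (by
        filter_upwards [hK₁.isOpen_compl.mem_nhds hrK] with y hy using o₁ y hy)⟩) rfl
  have h1' := tendsto_of_modify hK₁p o₁ at₁ h1
  have h2' : Tendsto (fun n : ℕ => (f₁⁻¹ ^ n) x₀) atTop (𝓝 r) := by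
    simpa only [fun n => inv_pow_eq_of_notMem m₁ o₁ n hxK] using h2
  obtain ⟨δ, hδ, Hδ⟩ := near_inv (inv_mem_Diff1 (hC.sub hf₁)) hε3
  obtain ⟨F₂, hF₂, n₂, K₂, hK₂W, hK₂, hK₂r, o₂, m₂, at₂, ρ₂, hρ₂, l₂⟩ := hC'.linearize
    (Set.inv_mem_inv.2 hf₁) hWr
    (hag.1.trans hr) hb0.le hb (P := Q) (by rw [hag.2]; exact cB) hδ
    (inter_mem (compl_singleton_mem_nhds hpr.symm) (compl_singleton_mem_nhds hxr.symm))
  have hpK : p ∉ K₂ := fun hc => (hK₂W hc).1 rfl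
  have hxK₂ : x₀ ∉ K₂ := fun hc => (hK₂W hc).2 rfl
  obtain ⟨σ, ⟨⟨hσW, -⟩, hσ1⟩, hσ⟩ := ((((eventually_czone_subset P
    (hK₂.isOpen_compl.mem_nhds hpK)).and (Iio_mem_nhds hρ₁)).filter_mono nhdsWithin_le_nhds).and
    (self_mem_nhdsWithin (a := (0 : ℝ)) (s := Ioi 0))).exists
  have l₁' : Lin F₂⁻¹ p P (D f p) σ := (l₁.mono (le_of_lt hσ1)).of_inv_modify cA ha.le o₂
    fun x hx => hσW (zone_subset_czone p P le_rfl hx)
  rw [hag.2] at l₂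
  obtain ⟨g, hg, ng, hgc⟩ := hC.core hC' (Set.mem_inv.1 hF₂) hWp hWr hpr hσ hρ₂ l₁' (by rwa [inv_inv]) cA cB ha0 ha
    hb0 hb hxp hxr
    (by simpa only [fun n => inv_pow_eq_of_notMem m₂ o₂ n hxK₂, inv_inv] using h1')
    (by rw [inv_inv]; exact tendsto_of_modify hK₂r o₂ at₂ h2') hε3
  refine ⟨g, hg, ?_, hgc⟩
  have := Hδ F₂ (hC'.sub hF₂) n₂
  rw [inv_inv] at this
  exact ((ng.trans this).trans n₁).mono (by linarith)

end Pool.Agent.Lib.MP_fe72db_an
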