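import Pool.Agent.Lib.MP_fe72db_an.Surf.Cubic

/-! The planar model: a horseshoe at the bottom of a bowl, and a source connected to a sink on
the side of the bowl. -/

open Filter Topology Set Metric
open scoped ContDiff

namespace Pool.Agent.Lib.MP_fe72db_an.Surf

lemma ev_mm_lt {z : E} {a : ℝ} (h : mm z < a) : ∀ᶠ w in 𝓝 z, mm w < a :=
  contDiff_mm.continuous.continuousAt.eventually_lt continuousAt_const h

lemma ev_lt_mm {z : E} {a : ℝ} (h : a < mm z) : ∀ᶠ w in 𝓝 z, a < mm w :=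
  continuousAt_const.eventually_lt contDiff_mm.continuous.continuousAt h

lemma lt_mm {z : E} (h : ‖PP z‖ < 36 ∨ 48 ≤ ‖PP z‖) : 11 < mm z := by
  by_contra hc
  have := of_mm_lt (show mm z < 12 by linarith)
  rcases h with h | h <;> linarith

lemma step_rot {ε s : ℝ} (v : E) : (1 - ε • fderiv ℝ Xc (40 + s, 0)) v =
    ((1 - 2 * s * ε) * v.1 - -(2 * s * ε) * v.2, -(2 * s * ε) * v.1 + (1 - 2 * s * ε) * v.2) := by
  ext <;> simp [fderiv_Xc] <;> ring

theorem exists_model {u : E → ℝ} (hu : ∀ z ∈ ball (0 : E) 90, ContDiffAt ℝ ∞ u z ∧ ND u z)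
    (h1 : ∀ z, mm z < 5 → u z = cub z) (h2 : ∀ z, 11 < mm z → ‖z‖ < 85 → u z = nq z) :
    ∃ Φ : Equiv.Perm E, ContDiff ℝ 1 Φ ∧ ContDiff ℝ 1 (Φ⁻¹ : Equiv.Perm E) ∧
      (∀ z, 80 ≤ ‖z‖ → Φ z = z) ∧
      (∀ z, ‖PP z‖ ≤ 3 → Φ z = (z.2, tau0 z.2 - z.1 / 16) ∧ ‖PP (Φ z)‖ < 3) ∧
      (∀ z, 3 < ‖PP z‖ → Φ z = z ∨ u (Φ z) < u z) ∧
      (∀ z, 3 < ‖PP z‖ → ‖z‖ ≤ 70 → grad u z ≠ 0 → u (Φ z) < u z) ∧
      (∀ z, 3 < ‖PP z‖ → ‖z‖ < 85 → grad u z = 0 →
        ‖z‖ < 48 ∧ Φ z = z ∧ ∃ A, HasFDerivAt Φ A z ∧ LinHyp A) ∧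
      (∀ z, ‖PP z‖ ≤ 50 → ‖PP (Φ z)‖ < 50) ∧ (∀ z, ‖PP z‖ < 55 → ‖Φ z‖ ≤ 60) ∧
      Φ (41, 0) = (41, 0) ∧ Φ (39, 0) = (39, 0) ∧ Cplx (fderiv ℝ Φ (41, 0)) ∧
      Cplx (fderiv ℝ (Φ⁻¹ : Equiv.Perm E) (39, 0)) ∧
      Tendsto (fun n : ℕ => (Φ ^ n) (40, 0)) atTop (𝓝 (41, 0)) ∧
      Tendsto (fun n : ℕ => (Φ⁻¹ ^ n) (40, 0)) atTop (𝓝 (39, 0)) := by
  have hsub : closedBall (0 : E) 80 ⊆ ball 0 90 := closedBall_subset_ball (by norm_num)
  obtain ⟨H, H1, H2, H3, H4, H5⟩ := exists_henon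
  obtain ⟨X, X1, X2, X3, X4, X5, X6⟩ := exists_field (fun z hz => (hu z (hsub hz)).1) h1
  obtain ⟨ε, hε, hε', D1, D2, D3, A, A1, A2, A3⟩ := exists_descent isOpen_ball
    (isCompact_closedBall 0 80) hsub (fun z hz => (hu z hz).1) X1
    (fun z hz => X2 z (Or.inl (not_le.1 fun h => hz (mem_closedBall_zero_iff.2 h)).le))
    (fun z _ => X3 z) (show (0 : ℝ) < 1 / 10 by norm_num)
  have AA : ∀ z, A (A⁻¹ z) = z := fun z => by simp
  have Alt : ∀ z, X z ≠ 0 → u (A z) < u z := fun z hz => by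
    rw [A1]; simpa using D3 z hz ⟨le_rfl, hε.le⟩ ⟨hε.le, le_rfl⟩ hε
  have Aeq : ∀ z, X z = 0 → A z = z := fun z hz => by rw [A1, hz]; simp
  have Ale : ∀ z, u (A z) ≤ u z := fun z => by
    by_cases hz : X z = 0
    · rw [Aeq z hz]
    · exact (Alt z hz).le
  have Aseg : ∀ z, ∀ θ ∈ Icc 0 ε, u (A z) ≤ u (z - θ • X z) ∧ u (z - θ • X z) ≤ u z ∧
      ‖z - θ • X z - z‖ ≤ 1 / 10 ∧ ‖z - θ • X z - A z‖ ≤ 1 / 10 := fun z θ hθ => by
    have n : ∀ t ∈ Icc 0 ε, ‖t • X z‖ ≤ 1 / 10 := fun t ht => by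
      refine le_trans ?_ (D2 z)
      rw [norm_smul, norm_smul, Real.norm_of_nonneg ht.1, Real.norm_of_nonneg hε.le]
      exact mul_le_mul_of_nonneg_right ht.2 (norm_nonneg _)
    refine ⟨?_, ?_, by rw [sub_sub_cancel_left, norm_neg]; exact n θ hθ, ?_⟩
    · by_cases hz : X z = 0
      · rw [Aeq z hz, hz]; simp
      · rw [A1]; exact (D3 z hz).antitoneOn hθ ⟨hε.le, le_rfl⟩ hθ.2
    · by_cases hz : X z = 0
      · rw [hz]; simp
      · simpa using (D3 z hz).antitoneOn ⟨le_rfl, hε.le⟩ hθ hθ.1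
    · rw [A1, sub_sub_sub_cancel_left, ← sub_smul]
      exact n _ ⟨by linarith [hθ.2], by linarith [hθ.1]⟩
  have Anear : ∀ z, ‖PP (A z) - PP z‖ ≤ 1 / 2 := fun z => by
    rw [← map_sub, A1, sub_sub_cancel_left]
    exact (norm_PP_le _).trans (by rw [norm_neg]; linarith [D2 z])
  have unq : ∀ z, ‖PP z‖ < 36 ∨ 48 ≤ ‖PP z‖ → ‖PP z‖ < 85 → u z = ‖PP z‖ ^ 2 := fun z a b => by
    rw [h2 z (lt_mm a) ((norm_le_PP z).trans_lt b), nq_eq]
  have gnq : ∀ z, 11 < mm z → ‖z‖ < 85 → grad u z = 0 → z = 0 := fun z a b c => by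
    have e : u =ᶠ[𝓝 z] nq := by
      filter_upwards [ev_lt_mm a, continuous_norm.continuousAt.eventually_lt continuousAt_const b]
        using h2
    rw [(grad_congr e).self_of_nhds, grad_nq] at c
    ext
    · have : 2 * z.1 = 0 := congrArg Prod.fst c
      simpa using this
    · have : 32 * z.2 = 0 := congrArg Prod.snd c
      simpa using this
  have Hlt : ∀ z, 3 < ‖PP z‖ → ‖PP z‖ < 25 → u (A (H z)) < u z := fun z a b => by
    have := H5 z a.le b
    refine (Ale _).trans_lt ?_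
    rw [unq z (Or.inl (by linarith)) (by linarith), unq _ (Or.inl (by linarith)) (by linarith)]
    gcongr
  have Hle : ∀ z r, 3 ≤ r → ‖PP z‖ ≤ r → ‖PP (H z)‖ ≤ r := fun z r a b => by
    rcases le_total ‖PP z‖ 3 with h | h
    · linarith [(H3 z h).2]
    rcases lt_or_ge ‖PP z‖ 25 with h' | h'
    · linarith [H5 z h h']
    · rwa [H4 z h']
  have Hid : ∀ z, mm z < 12 → (A * H) z = A z := fun z hz => by
    rw [Equiv.Perm.mul_apply, H4 z (by linarith [(of_mm_lt hz).1])]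
  have hder : ∀ z, mm z < 12 → HasFDerivAt (A * H : Equiv.Perm E) (1 - ε • fderiv ℝ X z) z :=
    fun z hz => (hasFDerivAt_step X1 ε z).congr_of_eventuallyEq (by
      filter_upwards [ev_mm_lt hz] with w hw
      rw [Hid w hw, A1])
  have hXc : ∀ z, mm z < 2 → fderiv ℝ X z = fderiv ℝ Xc z := fun z hz =>
    EventuallyEq.fderiv_eq (by filter_upwards [ev_mm_lt hz] using X5)
  have gcub : ∀ z, mm z < 5 → grad u z = grad cub z := fun z hz =>
    (grad_congr (by filter_upwards [ev_mm_lt hz] using h1)).self_of_nhds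
  have hfix : ∀ s : ℝ, s ^ 2 = 1 → (A * H) (40 + s, 0) = (40 + s, 0) ∧
      fderiv ℝ (A * H : Equiv.Perm E) (40 + s, 0) = 1 - ε • fderiv ℝ Xc (40 + s, 0) := by
    intro s hs
    have m : mm (40 + s, 0) < 2 := by simp [mm, hs]
    refine ⟨?_, by rw [(hder _ (by linarith)).fderiv, hXc _ m]⟩
    rw [Hid _ (by linarith), Aeq _ (by rw [X5 _ m]; simp [Xc, hs])]
  have Xne : ∀ s : ℝ, s ^ 2 = 1 → ∀ z, mm z < 5 → 0 < s * (z.1 - 40) → z ≠ (40 + s, 0) →
      X z ≠ 0 := fun s hs z a b c d => by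
    have := of_mm_lt (show mm z < 12 by linarith)
    exact c (eq_of_grad_cub hs (gcub z a ▸ X4 z (by linarith)
      ((norm_le_PP z).trans (by linarith)) d) b)
  have f1 := hfix 1 (by norm_num)
  have f2 := hfix (-1) (by norm_num)
  have r1 := step_rot (ε := ε) (s := 1)
  have r2 := step_rot (ε := ε) (s := -1)
  rw [← f1.2] at r1
  rw [← f2.2] at r2
  rw [show (40 : ℝ) + 1 = 41 by norm_num] at f1 r1
  rw [show (40 : ℝ) + -1 = 39 by norm_num] at f2 r2
  have c1 : ContDiff ℝ 1 (A * H : Equiv.Perm E) := A2.comp H1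
  have c2 : ContDiff ℝ 1 ((A * H)⁻¹ : Equiv.Perm E) := H2.comp A3
  have hinv : ∀ z, mm z < 3 → mm (A⁻¹ z) < 5 ∧ (A * H)⁻¹ z = A⁻¹ z := fun z hz => by
    have a1 := (Aseg (A⁻¹ z) 0 ⟨le_rfl, hε.le⟩).2.2.2
    simp only [zero_smul, sub_zero, AA] at a1
    have a2 := mm_near hz a1
    exact ⟨a2, by rw [Equiv.Perm.inv_eq_iff_eq, Hid _ (by linarith)]; simp⟩
  refine ⟨A * H, c1, c2, fun z hz => ?_, fun z hz => ?_, fun z hz => ?_, fun z a b c => ?_,
    fun z a b c => ?_, fun z hz => ?_, fun z hz => ?_, f1.1, f2.1,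
    cplx_rot r1 (by linarith) (by nlinarith), cplx_rot_inv r2 (fun v => ?_) (by linarith)
      (by nlinarith), ?_, ?_⟩
  · rw [Equiv.Perm.mul_apply, H4 z (by linarith [norm_le_PP z]), Aeq z (X2 z (Or.inl hz))]
  · rw [Equiv.Perm.mul_apply, Aeq _ (X2 _ (Or.inr (Or.inl (by linarith [(H3 z hz).2]))))]
    exact H3 z hz
  · rcases lt_or_ge ‖PP z‖ 25 with h | h
    · exact Or.inr (Hlt z hz h)
    · rw [Equiv.Perm.mul_apply, H4 z h]
      exact (em (X z = 0)).imp (Aeq z) (Alt z)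
  · rcases lt_or_ge ‖PP z‖ 25 with h | h
    · exact Hlt z a h
    · rw [Equiv.Perm.mul_apply, H4 z h]
      exact Alt z fun d => c (X4 z (by linarith) b d)
  · have m : mm z < 12 := by
      by_contra h
      rw [gnq z (by linarith) b c] at a
      norm_num at a
    refine ⟨(norm_le_PP z).trans_lt (of_mm_lt m).2,
      by rw [Hid z m, Aeq z (X2 z (Or.inr (Or.inr c)))], _, hder z m, ?_⟩
    rcases lt_or_ge 4 (mm z) with h | h
    · have e : fderiv ℝ X z = fderiv ℝ (grad u) z := EventuallyEq.fderiv_eq (by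
        filter_upwards [ev_lt_mm h, ev_mm_lt m] using X6)
      have hz := hu z (mem_ball_zero_iff.2 (by linarith))
      rw [e]
      exact linHyp_hess hz.1 hz.2 c hε (e ▸ D1 z)
    · rw [gcub z (by linarith), grad_cub] at c
      have a1 : (z.1 - 40) ^ 2 - 1 + z.2 ^ 2 = 0 := congrArg Prod.fst c
      have a2 : 2 * ((z.1 - 40) * z.2) = 0 := congrArg Prod.snd c
      have e := hXc z (by unfold mm; linarith)
      rw [e]
      rcases mul_eq_zero.1 (show (z.1 - 40) * z.2 = 0 by linarith) with h3 | h3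
      · refine linHyp_symm (e ▸ D1 z) (by simp [fderiv_Xc, h3]) ?_
        rw [h3] at a1
        rw [show dt (ε • fderiv ℝ Xc z) = -8 * ε ^ 2 * z.2 ^ 2 by simp [dt, fderiv_Xc, h3]; ring,
          show z.2 ^ 2 = 1 by linarith]
        positivity
      · rw [h3] at a1
        obtain ⟨s, rfl⟩ : ∃ s, z = (40 + s, 0) := ⟨z.1 - 40, by ext <;> simp [h3]⟩
        have hs : s ^ 2 = 1 := by simp only [add_sub_cancel_left] at a1; linarith
        refine linHyp_rot step_rot ?_ ?_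
        · rcases sq_eq_one_iff.1 hs with rfl | rfl <;> linarith
        · rcases sq_eq_one_iff.1 hs with rfl | rfl <;> nlinarith
  · have a1 := Hle z 50 (by norm_num) hz
    rw [Equiv.Perm.mul_apply]
    have a2 := abs_le.1 ((abs_norm_sub_norm_le _ _).trans (Anear (H z)))
    rcases le_or_gt ‖PP (H z)‖ 49 with h | h
    · linarith
    · have a3 := Alt (H z) fun d => by
        have := gnq _ (lt_mm (Or.inr (by linarith))) ((norm_le_PP _).trans_lt (by linarith))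
          (X4 _ (by linarith) ((norm_le_PP _).trans (by linarith)) d)
        rw [this] at h
        norm_num at h
      rw [unq _ (Or.inr (by linarith)) (by linarith), unq _ (Or.inr (by linarith)) (by linarith),
        sq_lt_sq₀ (norm_nonneg _) (norm_nonneg _)] at a3
      linarith
  · have a1 := Hle z 55 (by norm_num) hz.le
    have a2 := abs_le.1 ((abs_norm_sub_norm_le _ _).trans (Anear (H z)))
    exact (norm_le_PP _).trans (by rw [Equiv.Perm.mul_apply]; linarith)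
  · have a1 := (c2.differentiable one_ne_zero ((A * H) (39, 0))).hasFDerivAt.comp (39, 0)
      (c1.differentiable one_ne_zero (39, 0)).hasFDerivAt
    rw [f2.1] at a1
    have a2 := a1.unique ((hasFDerivAt_id _).congr_of_eventuallyEq
      (Eventually.of_forall fun w => (A * H).symm_apply_apply w))
    exact congrArg (fun L : E →L[ℝ] E => L v) a2
  · have e0 : (A * H) (40, 0) = (40 + ε, ε) := by
      rw [Hid _ (by simp [mm]), A1, X5 _ (by simp [mm])]; simp [Xc]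
    have ht : 0 < -cub (40 + ε, ε) := by
      simp only [cub, add_sub_cancel_left]
      nlinarith [mul_pos hε (show 0 < 1 - ε ^ 2 / 3 - ε ^ 2 by nlinarith)]
    rw [← tendsto_add_atTop_iff_nat 1]
    simp only [pow_succ, Equiv.Perm.mul_apply _ (A * H), e0]
    have key : ∀ z ∈ Qs 1 (-cub (40 + ε, ε)), (A * H) z = A z ∧ cub (A z) = u (A z) ∧
        cub z = u z ∧ A z ∈ Qs 1 (-cub (40 + ε, ε)) := fun z hz => by
      obtain ⟨b1, b2⟩ := Qs_sub ht hz
      have b3 : ∀ θ ∈ Icc 0 ε, cub (z - θ • X z) = u (z - θ • X z) := fun θ hθ =>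
        (h1 _ (mm_near b1 (Aseg z θ hθ).2.2.1)).symm
      have b4 := (h1 z (by linarith)).symm
      have b5 := b3 ε ⟨hε.le, le_rfl⟩
      have b6 := sign_const hε.le fun θ hθ => (show cub (z - θ • X z) < 0 by
        linarith [b3 θ hθ, (Aseg z θ hθ).2.1, hz.2]).ne
      rw [← A1] at b5 b6
      refine ⟨Hid z (by linarith), b5, b4, ?_, by linarith [Ale z, hz.2]⟩
      rw [one_mul] at b2 ⊢
      exact (pos_of_mul_pos_right b6 b2.le).le
    refine tendsto_of_lyap c1.continuous (isCompact_Qs 1 ht)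
      (fun z hz => (key z hz).1 ▸ (key z hz).2.2.2) contDiff_cub.continuous f1.1
      (fun z hz hne => ?_) ⟨by simp [hε.le], by simp⟩
    obtain ⟨b1, b2, b3, -⟩ := key z hz
    rw [b1, b2, b3]
    exact Alt z (Xne 1 (by norm_num) z (by linarith [(Qs_sub ht hz).1]) (Qs_sub ht hz).2
      (by rwa [show (40 : ℝ) + 1 = 41 by norm_num]))
  · have m0 : mm (40, 0) < 2 := by simp [mm]
    obtain ⟨a1, a2⟩ := hinv (40, 0) (by linarith)
    have ht : 0 < cub (A⁻¹ (40, 0)) := by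
      have := Alt (A⁻¹ (40, 0)) fun d => by
        have e := Aeq _ d
        rw [AA] at e
        rw [← e, X5 _ m0] at d
        simp [Xc] at d
      rw [AA, h1 _ a1, h1 _ (by linarith)] at this
      simpa [cub] using this
    rw [← tendsto_add_atTop_iff_nat 1]
    simp only [pow_succ, Equiv.Perm.mul_apply _ (A * H)⁻¹, a2]
    have key : ∀ z ∈ Qs (-1) (cub (A⁻¹ (40, 0))), 0 < -1 * ((A⁻¹ z).1 - 40) ∧
        cub z = u (A (A⁻¹ z)) ∧ cub (A⁻¹ z) = u (A⁻¹ z) := fun z hz => by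
      obtain ⟨b1, b2⟩ := Qs_sub ht hz
      have b4 := (h1 z (by linarith)).symm
      have b6 := sign_const (z := A⁻¹ z) (v := X (A⁻¹ z)) hε.le fun θ hθ => by
        have b7 := Aseg (A⁻¹ z) θ hθ
        rw [AA] at b7
        rw [← h1 _ (mm_near b1 b7.2.2.2)]
        linarith [hz.2]
      rw [← A1, AA] at b6
      exact ⟨by nlinarith, by rw [AA, b4],
        (h1 _ (hinv z b1).1).symm⟩
    refine tendsto_of_lyap c2.continuous (isCompact_Qs (-1) ht) (fun z hz => ?_)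
      contDiff_cub.continuous.neg (Equiv.Perm.inv_eq_iff_eq.2 f2.1.symm)
      (fun z hz hne => ?_) ⟨?_, by simp⟩
    · obtain ⟨b1, b2, b3⟩ := key z hz
      rw [(hinv z (Qs_sub ht hz).1).2]
      exact ⟨b1.le, by linarith [Ale (A⁻¹ z), hz.2]⟩
    · obtain ⟨b1, b2, b3⟩ := key z hz
      rw [(hinv z (Qs_sub ht hz).1).2, Pi.neg_apply, Pi.neg_apply, neg_lt_neg_iff, b2, b3]
      refine Alt _ (Xne (-1) (by norm_num) _ (hinv z (Qs_sub ht hz).1).1 b1 fun e => hne ?_)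
      rw [show (40 : ℝ) + -1 = 39 by norm_num, ← (hinv z (Qs_sub ht hz).1).2,
        Equiv.Perm.inv_eq_iff_eq, f2.1] at e
      exact e
    · have b1 := (Aseg (A⁻¹ (40, 0)) 0 ⟨le_rfl, hε.le⟩).2.2.2
      simp only [zero_smul, sub_zero, AA] at b1
      have b2 := abs_le.1 ((norm_fst_le _).trans b1)
      have b3 := abs_le.1 ((norm_snd_le _).trans b1)
      simp only [Prod.fst_sub, Prod.snd_sub, sub_zero] at b2 b3
      by_contra h
      have b4 : ((A⁻¹ (40, 0)).1 - 40) ^ 2 / 3 - 1 + (A⁻¹ (40, 0)).2 ^ 2 ≤ 0 := by nlinarith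
      unfold cub at ht
      nlinarith

end Pool.Agent.Lib.MP_fe72db_an.Surf
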