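import Pool.Agent.Lib.MP_fe72db_an.Surf.Fix

/-! Gradients, descent steps and nondegenerate critical points in the plane. -/

open Filter Topology Set Metric MeasureTheory
open scoped ContDiff

namespace Pool.Agent.Lib.MP_fe72db_an.Surf

/-- The gradient. -/
noncomputable def grad (u : E → ℝ) (z : E) : E := (fderiv ℝ u z (1, 0), fderiv ℝ u z (0, 1))

lemma fderiv_eq_grad (u : E → ℝ) (z v : E) :
    fderiv ℝ u z v = v.1 * (grad u z).1 + v.2 * (grad u z).2 := by
  have : v = v.1 • ((1, 0) : E) + v.2 • ((0, 1) : E) := by ext <;> simp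
  conv_lhs => rw [this]
  rw [map_add, map_smul, map_smul]; rfl

lemma grad_eq_zero_iff {u : E → ℝ} {z : E} : grad u z = 0 ↔ fderiv ℝ u z = 0 :=
  ⟨fun h => ContinuousLinearMap.ext fun v => by rw [fderiv_eq_grad, h]; simp,
    fun h => by simp [grad, h]⟩

lemma grad_congr {u v : E → ℝ} {z : E} (h : u =ᶠ[𝓝 z] v) : grad u =ᶠ[𝓝 z] grad v := by
  filter_upwards [h.eventuallyEq_nhds] with w hw
  simp only [grad, hw.fderiv_eq]

lemma contDiffAt_grad {u : E → ℝ} {z : E} (h : ContDiffAt ℝ ∞ u z) : ContDiffAt ℝ ∞ (grad u) z :=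
  ((h.fderiv_right (by simp)).clm_apply contDiffAt_const).prodMk
    ((h.fderiv_right (by simp)).clm_apply contDiffAt_const)

lemma hess_symm {u : E → ℝ} {z : E} (h : ContDiffAt ℝ ∞ u z) :
    (fderiv ℝ (grad u) z (1, 0)).2 = (fderiv ℝ (grad u) z (0, 1)).1 := by
  have h1 : HasFDerivAt (fderiv ℝ u) (fderiv ℝ (fderiv ℝ u) z) z :=
    ((h.fderiv_right (m := 1) (by norm_cast)).differentiableAt one_ne_zero).hasFDerivAt
  have h2 : HasFDerivAt (grad u) _ z := (h1.clm_apply (hasFDerivAt_const ((1, 0) : E) z)).prodMk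
    (h1.clm_apply (hasFDerivAt_const ((0, 1) : E) z))
  rw [h2.fderiv]
  simpa using h.isSymmSndFDerivAt (by rw [minSmoothness_of_isRCLikeNormedField]; norm_cast)
    (1, 0) (0, 1)

/-- The point `z` is either a regular point or a nondegenerate critical point. -/
def ND (u : E → ℝ) (z : E) : Prop := grad u z = 0 → dt (fderiv ℝ (grad u) z) ≠ 0

lemma ND.congr {u v : E → ℝ} {z : E} (hu : ND u z) (h : v =ᶠ[𝓝 z] u) : ND v z := by
  rw [ND, (grad_congr h).fderiv_eq, (grad_congr h).self_of_nhds]; exact hu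

lemma det_eq_dt (A : E →L[ℝ] E) : A.det = dt A := by
  rw [ContinuousLinearMap.det, ← LinearMap.det_toMatrix (Module.Basis.finTwoProd ℝ),
    Matrix.det_fin_two]
  simp [LinearMap.toMatrix_apply, dt]

lemma ND.isolated {u : E → ℝ} {z : E} (h : ContDiffAt ℝ ∞ u z) (hu : ND u z) :
    ∀ᶠ w in 𝓝 z, grad u w = 0 → w = z := by
  have h1 := contDiffAt_grad h
  by_cases h0 : grad u z = 0
  · have hi : Function.Injective (fderiv ℝ (grad u) z).toLinearMap := by
      rw [← LinearMap.ker_eq_bot]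
      by_contra hk
      exact hu h0 (by rw [← det_eq_dt]; exact LinearMap.det_eq_zero_iff_ker_ne_bot.2 hk)
    obtain ⟨K, -, hK⟩ := (LinearMap.injective_iff_antilipschitz _).1 hi
    have := (h1.differentiableAt (by simp)).hasFDerivAt.eventually_ne (c := 0) ⟨K, hK⟩
    filter_upwards [eventually_nhdsWithin_iff.1 this] with w hw hw'
    by_contra hne
    exact hw hne hw'
  · filter_upwards [h1.continuousAt.eventually_ne h0] with w hw hw' using absurd hw' hw

lemma finite_crit {u : E → ℝ} {K : Set E} (hK : IsCompact K)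
    (h : ∀ z ∈ K, ContDiffAt ℝ ∞ u z ∧ ND u z) : {z ∈ K | grad u z = 0}.Finite := by
  obtain ⟨t, -, ht⟩ := hK.elim_nhds_subcover (fun z => {w | grad u w = 0 → w = z})
    fun z hz => (h z hz).2.isolated (h z hz).1
  refine t.finite_toSet.subset fun z hz => ?_
  obtain ⟨w, hw, hw'⟩ := mem_iUnion₂.1 (ht hz.1)
  exact hw' hz.2 ▸ hw

lemma grad_pert {u : E → ℝ} {φ : E → E} {z : E} (hu : ContDiffAt ℝ ∞ u z)
    (hφ : ContDiffAt ℝ ∞ φ z) (l : E) :
    grad (fun w => u w + (l.1 * (φ w).1 + l.2 * (φ w).2)) =ᶠ[𝓝 z] fun w =>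
      grad u w + (l.1 • grad (fun w => (φ w).1) w + l.2 • grad (fun w => (φ w).2) w) := by
  filter_upwards [(hu.of_le (m := 1) (by norm_cast)).eventually (by simp),
    (hφ.of_le (m := 1) (by norm_cast)).eventually (by simp)] with w a b
  have a1 := (a.differentiableAt one_ne_zero).hasFDerivAt
  have b1 := (b.fst.differentiableAt one_ne_zero).hasFDerivAt
  have b2 := (b.snd.differentiableAt one_ne_zero).hasFDerivAt
  have := (a1.add ((b1.const_mul l.1).add (b2.const_mul l.2))).fderiv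
  simp only [grad]
  erw [this]
  simp

/-- Nondegeneracy on a compact set is stable. -/
lemma eventually_ND {u : E → ℝ} {φ : E → E} {K : Set E} (hK : IsCompact K)
    (h : ∀ z ∈ K, ContDiffAt ℝ ∞ u z ∧ ContDiffAt ℝ ∞ φ z ∧ ND u z) :
    ∀ᶠ l : E in 𝓝 0, ∀ z ∈ K, ND (fun w => u w + (l.1 * (φ w).1 + l.2 * (φ w).2)) z := by
  set a := grad fun w => (φ w).1
  set b := grad fun w => (φ w).2
  have key : ∀ᶠ l : E in 𝓝 0, ∀ z ∈ K, grad u z + (l.1 • a z + l.2 • b z) ≠ 0 ∨
      dt (fderiv ℝ (grad u) z + (l.1 • fderiv ℝ a z + l.2 • fderiv ℝ b z)) ≠ 0 := by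
    refine hK.eventually_forall_of_forall_eventually fun z hz => ?_
    obtain ⟨h1, h2, h3⟩ := h z hz
    have g0 := contDiffAt_grad h1
    have g1 : ContDiffAt ℝ ∞ a z := contDiffAt_grad h2.fst
    have g2 : ContDiffAt ℝ ∞ b z := contDiffAt_grad h2.snd
    have c1 : ∀ {F : Type} [TopologicalSpace F] {v : E → F}, ContinuousAt v z →
        ContinuousAt (fun q : E × E => v q.2) (0, z) := fun hv =>
      ContinuousAt.comp (f := Prod.snd) hv continuousAt_snd
    by_cases h0 : grad u z = 0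
    · have hd : Continuous dt := by unfold dt; fun_prop
      have : ContinuousAt (fun q : E × E => dt (fderiv ℝ (grad u) q.2 +
          (q.1.1 • fderiv ℝ a q.2 + q.1.2 • fderiv ℝ b q.2))) (0, z) :=
        hd.continuousAt.comp ((c1 (g0.continuousAt_fderiv (by simp))).add
          ((continuousAt_fst.fst.smul (c1 (g1.continuousAt_fderiv (by simp)))).add
            (continuousAt_fst.snd.smul (c1 (g2.continuousAt_fderiv (by simp))))))
      exact (this.eventually_ne (by simpa using h3 h0)).mono fun q hq => Or.inr hq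
    · have : ContinuousAt (fun q : E × E => grad u q.2 + (q.1.1 • a q.2 + q.1.2 • b q.2))
          (0, z) := (c1 g0.continuousAt).add ((continuousAt_fst.fst.smul (c1 g1.continuousAt)).add
            (continuousAt_fst.snd.smul (c1 g2.continuousAt)))
      exact (this.eventually_ne (by simpa using h0)).mono fun q hq => Or.inl hq
  filter_upwards [key] with l hl z hz h0
  obtain ⟨h1, h2, -⟩ := h z hz
  have e := grad_pert h1 h2 l
  have d0 := ((contDiffAt_grad h1).differentiableAt (by simp)).hasFDerivAt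
  have d1 := ((contDiffAt_grad h2.fst).differentiableAt (by simp)).hasFDerivAt
  have d2 := ((contDiffAt_grad h2.snd).differentiableAt (by simp)).hasFDerivAt
  rw [e.self_of_nhds] at h0
  rw [e.fderiv_eq]
  erw [(d0.add ((d1.const_smul l.1).add (d2.const_smul l.2))).fderiv]
  exact (hl z hz).resolve_left fun h => h h0

/-- One step of Sard's lemma. -/
lemma frequently_ND {u : E → ℝ} {φ : E → E} {K : Set E}
    (h : ∀ z ∈ K, ContDiffAt ℝ ∞ u z ∧ φ =ᶠ[𝓝 z] id) :
    ∃ᶠ l : E in 𝓝 0, ∀ z ∈ K, ND (fun w => u w + (l.1 * (φ w).1 + l.2 * (φ w).2)) z := by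
  have hB : volume ((fun w => -grad u w) '' {z ∈ K | dt (fderiv ℝ (grad u) z) = 0}) = 0 := by
    refine addHaar_image_eq_zero_of_det_fderivWithin_eq_zero volume
      (f' := fun z => -fderiv ℝ (grad u) z) (fun z hz => ?_) fun z hz => ?_
    · exact ((contDiffAt_grad (h z hz.1).1).differentiableAt
        (by simp)).hasFDerivAt.neg.hasFDerivWithinAt
    · rw [det_eq_dt, ← hz.2]; simp [dt]
  have hd := Measure.dense_of_ae (μ := volume) (measure_eq_zero_iff_ae_notMem.1 hB)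
  refine (mem_closure_iff_frequently.1 (hd 0)).mono fun l hl z hz h0 h1 => hl ⟨z, ⟨hz, ?_⟩, ?_⟩
  all_goals
    obtain ⟨a1, a2⟩ := h z hz
    have e : grad (fun w => u w + (l.1 * (φ w).1 + l.2 * (φ w).2)) =ᶠ[𝓝 z]
        fun w => grad u w + l := by
      have e1 : (fun w => u w + (l.1 * (φ w).1 + l.2 * (φ w).2)) =ᶠ[𝓝 z]
          fun w => u w + (l.1 * (id w).1 + l.2 * (id w).2) := by
        filter_upwards [a2] with w hw
        rw [hw]
      filter_upwards [grad_congr e1, grad_pert a1 contDiffAt_id l] with w b1 b2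
      rw [b1, b2]
      ext <;> simp [grad, fderiv_fst, fderiv_snd]
  · rwa [e.fderiv_eq, fderiv_add_const] at h1
  · rw [e.self_of_nhds] at h0
    exact neg_eq_of_add_eq_zero_right h0

lemma contDiff_smul_of_supp {F : Type} [NormedAddCommGroup F] [NormedSpace ℝ F] {n : ℕ∞ω}
    {χ : E → ℝ} {Y : E → F} {K : Set E} (hK : IsClosed K) (hχ : ContDiff ℝ n χ)
    (h0 : ∀ z, z ∉ K → χ z = 0) (hY : ∀ z ∈ K, ContDiffAt ℝ n Y z) :
    ContDiff ℝ n fun z => χ z • Y z := by
  rw [contDiff_iff_contDiffAt]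
  intro z
  by_cases hz : z ∈ K
  · exact hχ.contDiffAt.smul (hY z hz)
  · refine (contDiffAt_const (c := (0 : F))).congr_of_eventuallyEq ?_
    filter_upwards [hK.isOpen_compl.mem_nhds hz] with w hw
    rw [h0 w hw, zero_smul]

lemma exists_bounds {F : Type} [NormedAddCommGroup F] [NormedSpace ℝ F] {X : E → F}
    (hX : ContDiff ℝ 1 X) {K : Set E} (hK : IsCompact K) (hs : ∀ z, z ∉ K → X z = 0) :
    ∃ L > 0, ∀ z, ‖X z‖ ≤ L ∧ ‖fderiv ℝ X z‖ ≤ L := by
  have hc : HasCompactSupport X := HasCompactSupport.intro hK hs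
  obtain ⟨a, ha⟩ := hX.continuous.bounded_above_of_compact_support hc
  obtain ⟨b, hb⟩ := (hX.continuous_fderiv one_ne_zero).bounded_above_of_compact_support
    (hc.fderiv (𝕜 := ℝ))
  exact ⟨max 1 (max a b), lt_max_of_lt_left one_pos, fun z =>
    ⟨(ha z).trans (le_max_of_le_right (le_max_left _ _)),
      (hb z).trans (le_max_of_le_right (le_max_right _ _))⟩⟩

/-- A small step along a gradient like vector field. -/
lemma exists_descent {u : E → ℝ} {V K : Set E} (hV : IsOpen V) (hK : IsCompact K) (hKV : K ⊆ V)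
    (hu : ∀ z ∈ V, ContDiffAt ℝ ∞ u z) {X : E → E} (hX : ContDiff ℝ 1 X)
    (hs : ∀ z, z ∉ K → X z = 0) (hc : ∀ z ∈ K, ‖X z‖ ^ 2 ≤ 4 * fderiv ℝ u z (X z)) {η : ℝ}
    (hη : 0 < η) : ∃ ε > 0, ε ≤ η ∧ (∀ z, ‖ε • fderiv ℝ X z‖ ≤ 1 / 2) ∧ (∀ z, ‖ε • X z‖ ≤ η) ∧
      (∀ z, X z ≠ 0 → StrictAntiOn (fun θ : ℝ => u (z - θ • X z)) (Icc 0 ε)) ∧
      ∃ Φ : Equiv.Perm E, (∀ z, Φ z = z - ε • X z) ∧ ContDiff ℝ 1 Φ ∧
        ContDiff ℝ 1 (Φ⁻¹ : Equiv.Perm E) := by
  obtain ⟨L, hL, hb⟩ := exists_bounds hX hK hs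
  obtain ⟨δ, hδ, hδV⟩ := hK.exists_cthickening_subset_open hV hKV
  obtain ⟨B, hB⟩ := LocallyLipschitzOn.exists_lipschitzOnWith_of_compact (f := fderiv ℝ u)
    (hK.cthickening (r := δ)) fun z hz => by
      obtain ⟨C, t, ht, h⟩ :=
        ((hu z (hδV hz)).fderiv_right (m := 1) (by norm_cast)).exists_lipschitzOnWith
      exact ⟨C, t, mem_nhdsWithin_of_mem_nhds ht, h⟩
  have t1 : Tendsto (fun ε : ℝ => ε * L) (𝓝 0) (𝓝 0) := by
    simpa using (tendsto_id (x := 𝓝 (0 : ℝ))).mul_const L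
  have t2 : Tendsto (fun ε : ℝ => ε * B) (𝓝 0) (𝓝 0) := by
    simpa using (tendsto_id (x := 𝓝 (0 : ℝ))).mul_const (B : ℝ)
  obtain ⟨ε, ⟨⟨e1, e2⟩, e3⟩, hε⟩ := (((((t1.eventually_lt_const (lt_min (lt_min hη hδ)
    (show (0 : ℝ) < 1 / 2 by norm_num))).and (t2.eventually_lt_const
    (show (0 : ℝ) < 1 / 4 by norm_num))).and (Iio_mem_nhds hη)).filter_mono
    nhdsWithin_le_nhds).and (self_mem_nhdsWithin (a := (0 : ℝ)) (s := Ioi 0))).exists
  have hε : 0 < ε := hε
  rw [lt_min_iff, lt_min_iff] at e1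
  have n1 : ∀ θ ∈ Icc 0 ε, ∀ z, ‖θ • X z‖ ≤ ε * L := fun θ hθ z => by
    rw [norm_smul, Real.norm_of_nonneg hθ.1]
    exact mul_le_mul hθ.2 (hb z).1 (norm_nonneg _) hε.le
  have n2 : ∀ z, ‖ε • fderiv ℝ X z‖ ≤ 1 / 2 := fun z => by
    rw [norm_smul, Real.norm_of_nonneg hε.le]
    exact (mul_le_mul_of_nonneg_left (hb z).2 hε.le).trans e1.2.le
  refine ⟨ε, hε, le_of_lt e3, n2, fun z => (n1 ε ⟨hε.le, le_rfl⟩ z).trans e1.1.1.le,
    fun z hz => ?_, ?_⟩
  · have hzK : z ∈ K := by_contra fun h => hz (hs z h)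
    have hm : ∀ θ ∈ Icc 0 ε, z - θ • X z ∈ cthickening δ K := fun θ hθ =>
      mem_cthickening_of_dist_le _ z _ _ hzK (by
        rw [dist_eq_norm, sub_sub_cancel_left, norm_neg]; exact (n1 θ hθ z).trans e1.1.2.le)
    have hd : ∀ θ ∈ Icc 0 ε, HasDerivAt (fun θ : ℝ => u (z - θ • X z))
        (fderiv ℝ u (z - θ • X z) (-X z)) θ := fun θ hθ => by
      have a1 : HasDerivAt (fun θ : ℝ => z - θ • X z) (-X z) θ := by
        simpa using ((hasDerivAt_id θ).smul_const (X z)).const_sub z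
      exact ((hu _ (hδV (hm θ hθ))).differentiableAt
        (by simp)).hasFDerivAt.comp_hasDerivAt θ a1
    refine strictAntiOn_of_deriv_neg (convex_Icc 0 ε)
      (fun θ hθ => (hd θ hθ).continuousAt.continuousWithinAt) fun θ hθ => ?_
    have hθ := interior_subset hθ
    rw [(hd θ hθ).deriv, map_neg]
    have a1 := hB.norm_sub_le (self_subset_cthickening _ hzK) (hm θ hθ)
    rw [sub_sub_cancel, norm_smul, Real.norm_of_nonneg hθ.1] at a1
    have a2 := (fderiv ℝ u z - fderiv ℝ u (z - θ • X z)).le_opNorm (X z)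
    have a3 := le_abs_self ((fderiv ℝ u z - fderiv ℝ u (z - θ • X z)) (X z))
    rw [← Real.norm_eq_abs] at a3
    have a4 : 0 < ‖X z‖ := norm_pos_iff.2 hz
    have a5 : ‖fderiv ℝ u z - fderiv ℝ u (z - θ • X z)‖ * ‖X z‖ ≤ ε * B * ‖X z‖ ^ 2 := by
      calc _ ≤ B * (ε * ‖X z‖) * ‖X z‖ := by
            gcongr
            exact a1.trans (by gcongr; exact hθ.2)
        _ = _ := by ring
    have a6 := mul_lt_mul_of_pos_right e2 (pow_pos a4 2)
    rw [ContinuousLinearMap.sub_apply] at a2 a3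
    linarith [hc z hzK]
  · obtain ⟨Φ, h1, h2, h3⟩ := exists_perm_of_small (U := fun z => -(ε • X z))
      (hX.const_smul ε).neg fun z => by
        rw [fderiv_fun_neg, norm_neg, fderiv_fun_const_smul (hX.differentiable one_ne_zero z)]
        exact n2 z
    exact ⟨Φ, fun z => by rw [h1, sub_eq_add_neg], h2, h3⟩

/-- Convergence of orbits in a compact invariant set with a strict Lyapunov function. -/
lemma tendsto_of_lyap {Φ : Equiv.Perm E} (hΦ : Continuous Φ) {Q : Set E} (hQ : IsCompact Q)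
    (hm : MapsTo Φ Q Q) {u : E → ℝ} (hu : Continuous u) {p : E} (hp : Φ p = p)
    (h : ∀ z ∈ Q, z ≠ p → u (Φ z) < u z) {x : E} (hx : x ∈ Q) :
    Tendsto (fun n : ℕ => (Φ ^ n) x) atTop (𝓝 p) := by
  have hq : ∀ n : ℕ, (Φ ^ n) x ∈ Q := fun n => by
    rw [← Equiv.Perm.iterate_eq_pow]; exact hm.iterate n hx
  have ha : Antitone fun n : ℕ => u ((Φ ^ n) x) := antitone_nat_of_succ_le fun n => by
    rw [pow_succ', Equiv.Perm.mul_apply]
    by_cases e : (Φ ^ n) x = p
    · rw [e, hp]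
    · exact (h _ (hq n) e).le
  obtain ⟨B, hB⟩ := (hQ.image hu).bddBelow
  have ht := tendsto_atTop_ciInf ha ⟨B, by rintro _ ⟨n, rfl⟩; exact hB ⟨_, hq n, rfl⟩⟩
  refine hQ.tendsto_nhds_of_unique_mapClusterPt (Eventually.of_forall hq) fun w hw hc => ?_
  obtain ⟨φ, hφ, hφ'⟩ := hc.tendsto_subseq
  have e1 := tendsto_nhds_unique ((hu.tendsto w).comp hφ') (ht.comp hφ.tendsto_atTop)
  have e2 := tendsto_nhds_unique (((hu.comp hΦ).tendsto w).comp hφ')
    ((ht.comp ((tendsto_add_atTop_nat 1).comp hφ.tendsto_atTop)).congr fun n => by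
      simp [pow_succ'])
  by_contra hne
  exact (h w hw hne).ne (e2.trans e1.symm)

end Pool.Agent.Lib.MP_fe72db_an.Surf
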