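import Pool.Agent.Lib.MP_fe72db_an.Surf.Chart

/-! The `C^1` topology read in a chart. -/

open Filter Topology Set Bundle
open scoped Manifold ContDiff

namespace Pool.Agent.Lib.MP_fe72db_an.Surf

set_option linter.unusedSectionVars false

variable {𝕍 M : Type} [NormedAddCommGroup 𝕍] [NormedSpace ℝ 𝕍] [FiniteDimensional ℝ 𝕍]
  [TopologicalSpace M] [ChartedSpace 𝕍 M] [IsManifold 𝓘(ℝ, 𝕍) ∞ M]

lemma tmap_apply (f : Diff1 𝕍 M) (p : TangentBundle 𝓘(ℝ, 𝕍) M) :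
    tmap f p = ⟨f.1 p.1, D 𝕍 f.1 p.1 p.2⟩ := rfl

lemma tmap_mul (f k : Diff1 𝕍 M) : tmap (f * k) = (tmap f).comp (tmap k) := by
  ext1 p
  rw [ContinuousMap.comp_apply, tmap_apply, tmap_apply, tmap_apply]
  change (⟨f.1 (k.1 p.1), D 𝕍 (f.1 * k.1 : Equiv.Perm M) p.1 p.2⟩ : TangentBundle 𝓘(ℝ, 𝕍) M) = _
  rw [D_mul f.2 k.2]
  rfl

lemma tmap_one (p : TangentBundle 𝓘(ℝ, 𝕍) M) : tmap (1 : Diff1 𝕍 M) p = p := by
  rw [tmap_apply]
  change (⟨p.1, D 𝕍 (1 : Equiv.Perm M) p.1 p.2⟩ : TangentBundle 𝓘(ℝ, 𝕍) M) = _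
  rw [D_one]
  rfl

lemma continuous_tmap : Continuous (tmap : Diff1 𝕍 M → _) := continuous_induced_dom

lemma continuous_mul_left' (f : Diff1 𝕍 M) : Continuous fun k : Diff1 𝕍 M => f * k := by
  refine continuous_induced_rng.2 ?_
  have : (tmap ∘ fun k : Diff1 𝕍 M => f * k) = fun k => (tmap f).comp (tmap k) :=
    funext fun k => tmap_mul f k
  rw [this]
  exact (ContinuousMap.continuous_postcomp (tmap f)).comp continuous_tmap

namespace Ch

variable (c : Ch 𝕍 M)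

/-- The derivative of `k` read in the chart. -/
noncomputable def rd (k : M → M) (z u : E) : E :=
  c.dch (k (c.e.symm z)) (D 𝕍 k (c.e.symm z) (c.dsym z u))

lemma rd_conj {f : M → M} {F : E → E} {z : E} {A : E →L[ℝ] E} (hz : z ∈ c.e.target)
    (hFz : F z ∈ c.e.target) (hF : HasFDerivAt F A z)
    (h : ∀ᶠ w in 𝓝 z, f (c.e.symm w) = c.e.symm (F w)) (u : E) : c.rd f z u = A u := by
  rw [rd, c.D_conj hz hFz hF h, h.self_of_nhds, c.dch_dsym hFz]

/-- Diffeomorphisms close to the identity are close to the identity in the chart. -/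
lemma eventually_small {K : Set E} (hK : IsCompact K) (hKt : K ⊆ c.e.target) {η : ℝ}
    (hη : 0 < η) : ∀ᶠ k : Diff1 𝕍 M in 𝓝 1, ∀ z ∈ K, k.1 (c.e.symm z) ∈ c.e.source ∧
      ‖c.e (k.1 (c.e.symm z)) - z‖ < η ∧ ∀ u, ‖u‖ ≤ 1 → ‖c.rd k.1 z u - u‖ < η := by
  have := FiniteDimensional.proper_real 𝕍
  have : LocallyCompactSpace (ModelProd 𝕍 𝕍) := inferInstanceAs (LocallyCompactSpace (𝕍 × 𝕍))
  have : LocallyCompactSpace (TangentBundle 𝓘(ℝ, 𝕍) M) :=
    ChartedSpace.locallyCompactSpace (ModelProd 𝕍 𝕍) _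
  have key := (hK.prod (isCompact_closedBall (0 : E) 1)).eventually_forall_of_forall_eventually
    (x₀ := (1 : Diff1 𝕍 M)) (P := fun k q => (tmap k (c.tsym q)).1 ∈ c.e.source ∧
      dist (c.tch (tmap k (c.tsym q))) q < η) ?_
  · filter_upwards [key] with k hk z hz
    have h0 := hk (z, 0) ⟨hz, by simp⟩
    refine ⟨h0.1, ?_, fun u hu => ?_⟩
    · have := h0.2
      rw [Prod.dist_eq, max_lt_iff, dist_eq_norm] at this
      exact this.1
    · have := (hk (z, u) ⟨hz, by simpa using hu⟩).2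
      rw [Prod.dist_eq, max_lt_iff, dist_eq_norm, dist_eq_norm] at this
      exact this.2
  · intro q hq
    have hqt := hKt hq.1
    have h1 : ContinuousAt (fun r : Diff1 𝕍 M × (E × E) => tmap r.1 (c.tsym r.2)) (1, q) :=
      continuous_eval.continuousAt.comp₂ (continuous_tmap.comp continuous_fst).continuousAt
        (ContinuousAt.comp (f := Prod.snd) (c.continuousAt_tsym hqt) continuousAt_snd)
    have e1 : tmap (1 : Diff1 𝕍 M) (c.tsym q) = c.tsym q := tmap_one _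
    have hs : (tmap (1 : Diff1 𝕍 M) (c.tsym q)).1 ∈ c.e.source := by
      rw [e1]; exact c.e.map_target hqt
    have h2 : ContinuousAt (fun r : Diff1 𝕍 M × (E × E) =>
        dist (c.tch (tmap r.1 (c.tsym r.2))) r.2) (1, q) :=
      (ContinuousAt.comp (f := fun r : Diff1 𝕍 M × (E × E) => tmap r.1 (c.tsym r.2))
        (c.continuousAt_tch hs) h1).dist continuousAt_snd
    have e2 : c.tch (tmap (1 : Diff1 𝕍 M) (c.tsym q)) = q := by
      rw [e1]
      exact Prod.ext (c.e.right_inv hqt) (c.dch_dsym hqt _)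
    refine (((FiberBundle.continuous_proj 𝕍 (TangentSpace 𝓘(ℝ, 𝕍))).continuousAt.comp
      h1).eventually (c.e.open_source.mem_nhds hs)).and (h2.eventually_lt continuousAt_const ?_)
    simp only [e2, dist_self]
    exact hη

variable [T2Space M]

/-- Diffeomorphisms supported in a compact part of the chart and small there are close to the
identity. -/
lemma exists_small {K : Set E} (hK : IsCompact K) (hKt : K ⊆ c.e.target) {N : Set (Diff1 𝕍 M)}
    (hN : N ∈ 𝓝 1) : ∃ η > 0, ∀ k : Diff1 𝕍 M, (∀ x, x ∉ c.e.symm '' K → k.1 x = x) →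
      (∀ z ∈ K, k.1 (c.e.symm z) ∈ c.e.source ∧ ‖c.e (k.1 (c.e.symm z)) - z‖ ≤ η ∧
        ∀ u, ‖c.rd k.1 z u - u‖ ≤ η * ‖u‖) → k ∈ N := by
  let S : ℝ → Set (Diff1 𝕍 M) := fun η => {k | (∀ x, x ∉ c.e.symm '' K → k.1 x = x) ∧
    ∀ z ∈ K, k.1 (c.e.symm z) ∈ c.e.source ∧ ‖c.e (k.1 (c.e.symm z)) - z‖ ≤ η ∧
      ∀ u, ‖c.rd k.1 z u - u‖ ≤ η * ‖u‖}
  have hmono : ∀ {a b : ℝ}, a ≤ b → S a ⊆ S b := fun hab k hk =>
    ⟨hk.1, fun z hz => ⟨(hk.2 z hz).1, (hk.2 z hz).2.1.trans hab, fun u =>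
      ((hk.2 z hz).2.2 u).trans (mul_le_mul_of_nonneg_right hab (norm_nonneg u))⟩⟩
  have hb : (⨅ η ∈ Ioi (0 : ℝ), 𝓟 (S η)).HasBasis (fun η => η ∈ Ioi (0 : ℝ)) S :=
    hasBasis_biInf_principal (fun a ha b hb => ⟨min a b, mem_Ioi.2 (lt_min ha hb), hmono (min_le_left a b),
      hmono (min_le_right a b)⟩) ⟨1, mem_Ioi.2 one_pos⟩
  suffices h : Tendsto tmap (⨅ η ∈ Ioi (0 : ℝ), 𝓟 (S η)) (𝓝 (tmap (1 : Diff1 𝕍 M))) by
    have h2 : (⨅ η ∈ Ioi (0 : ℝ), 𝓟 (S η)) ≤ 𝓝 (1 : Diff1 𝕍 M) := by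
      rw [nhds_induced]; exact h.le_comap
    obtain ⟨η, hη, h3⟩ := hb.mem_iff.1 (h2 hN)
    exact ⟨η, hη, fun k a b => h3 ⟨a, b⟩⟩
  rw [ContinuousMap.tendsto_nhds_compactOpen]
  intro Q hQ U hU hQU
  have hcl := (c.isCompact_image hK hKt).isClosed
  have hQ' : IsCompact (Q ∩ {p | p.1 ∈ c.e.symm '' K}) :=
    hQ.inter_right (hcl.preimage (FiberBundle.continuous_proj 𝕍 (TangentSpace 𝓘(ℝ, 𝕍))))
  have hsrc : ∀ p ∈ Q ∩ {p | p.1 ∈ c.e.symm '' K}, p.1 ∈ c.e.source := by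
    rintro p ⟨-, z, hz, e⟩
    rw [← e]; exact c.e.map_target (hKt hz)
  have hI := hQ'.image_of_continuousOn fun p hp =>
    (c.continuousAt_tch (hsrc p hp)).continuousWithinAt
  have hst : ∀ p : TangentBundle 𝓘(ℝ, 𝕍) M, p.1 ∈ c.e.source → c.tsym (c.tch p) = p := by
    have aux : ∀ (x y : M) (v w : 𝕍), x = y → v = w →
        (⟨x, v⟩ : TangentBundle 𝓘(ℝ, 𝕍) M) = ⟨y, w⟩ := by
      rintro x _ v _ rfl rfl; rfl
    exact fun p hp => aux _ _ _ _ (c.e.left_inv hp) (c.dsym_dch hp p.2)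
  obtain ⟨δ, hδ, hδ'⟩ := hI.exists_cthickening_subset_open
    (t := interior (c.tsym ⁻¹' U)) isOpen_interior (by
      rintro _ ⟨p, hp, rfl⟩
      rw [mem_interior_iff_mem_nhds]
      refine (c.continuousAt_tsym (q := c.tch p) (c.e.map_source (hsrc p hp))).preimage_mem_nhds
        (hU.mem_nhds ?_)
      rw [hst p (hsrc p hp), ← tmap_one p]
      exact hQU hp.1)
  obtain ⟨B, hB⟩ := hI.isBounded.exists_norm_le
  refine hb.eventually_iff.2 ⟨δ / (max B 1), mem_Ioi.2 (by positivity), fun k hk p hp => ?_⟩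
  by_cases hpK : p.1 ∈ c.e.symm '' K
  · have hps := hsrc p ⟨hp, hpK⟩
    obtain ⟨z, hz, e⟩ := hpK
    have ez : c.e p.1 = z := by rw [← e]; exact c.e.right_inv (hKt hz)
    obtain ⟨a1, a2, a3⟩ := hk.2 z hz
    have hu : ‖c.dch p.1 p.2‖ ≤ B := (norm_snd_le (c.tch p)).trans (hB _ ⟨p, ⟨hp, z, hz, e⟩, rfl⟩)
    have h1 : δ / max B 1 ≤ δ := div_le_self hδ.le (le_max_right _ _)
    have h2 : δ / max B 1 * ‖c.dch p.1 p.2‖ ≤ δ := by
      rw [div_mul_eq_mul_div, div_le_iff₀ (by positivity)]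
      exact mul_le_mul_of_nonneg_left (hu.trans (le_max_left _ _)) hδ.le
    have e3 : c.tch (tmap k p) = (c.e (k.1 (c.e.symm z)), c.rd k.1 z (c.dch p.1 p.2)) := by
      have e4 : c.dsym z (c.dch p.1 p.2) = p.2 := by rw [← ez]; exact c.dsym_dch hps p.2
      rw [rd, e4, e]; rfl
    have h3 : c.tch (tmap k p) ∈ Metric.cthickening δ
        (c.tch '' (Q ∩ {p | p.1 ∈ c.e.symm '' K})) := by
      refine Metric.mem_cthickening_of_dist_le _ (c.tch p) δ _ ⟨p, ⟨hp, z, hz, e⟩, rfl⟩ ?_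
      rw [e3, Prod.dist_eq, dist_eq_norm, dist_eq_norm]
      exact max_le (by rw [show (c.tch p).1 = z from ez]; exact a2.trans h1) ((a3 _).trans h2)
    have h4 := interior_subset (hδ' h3)
    rwa [mem_preimage, hst _ (by rw [e] at a1; exact a1)] at h4
  · have h1 : k.1 =ᶠ[𝓝 p.1] id := by
      filter_upwards [hcl.isOpen_compl.mem_nhds hpK] with y hy using hk.1 y hy
    have e : tmap k p = p := by
      rw [tmap_apply, D_eq_one h1, hk.1 _ hpK]; rfl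
    rw [e, ← tmap_one p]
    exact hQU hp

end Ch

end Pool.Agent.Lib.MP_fe72db_an.Surf
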