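import Pool.Agent.Lib.MP_fe72db_an.Surf.Top
import Pool.Agent.Lib.MP_fe72db_an.Surf.Local

/-! Identification of a disc of the surface with a disc of the torus. -/

open Filter Topology Set Metric
open scoped Manifold ContDiff

namespace Pool.Agent.Lib.MP_fe72db_an.Surf

set_option linter.unusedSectionVars false

open Pool.Agent.Lib.MP_fe72db_an renaming D → TD, Diff1 → TDiff

/-- The open square of the torus around the origin. -/
def Sq : Set T := ball 0 (1 / 2)

lemma isOpen_Sq : IsOpen Sq := isOpen_ball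

lemma lift_mem {x : T} (hx : x ∈ Sq) : lift x ∈ ball (0 : E) (1 / 2) := by
  rw [mem_ball_zero_iff, norm_lift]; exact mem_ball_zero_iff.1 hx

lemma proj_mem {z : E} (hz : z ∈ ball (0 : E) (1 / 2)) : proj z ∈ Sq :=
  mem_ball_zero_iff.2 ((norm_proj_le z).trans_lt (mem_ball_zero_iff.1 hz))

lemma lift_proj' {z : E} (hz : z ∈ ball (0 : E) (1 / 2)) : lift (proj z) = z :=
  lift_proj (mem_ball_zero_iff.1 hz)

/-- The projection as a chart. -/
noncomputable def prj : OpenPartialHomeomorph E T :=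
  OpenPartialHomeomorph.ofContinuousOpen
    { toFun := proj
      invFun := lift
      source := ball 0 (1 / 2)
      target := Sq
      map_source' := fun _ => proj_mem
      map_target' := fun _ => lift_mem
      left_inv' := fun _ => lift_proj'
      right_inv' := fun x _ => proj_lift x }
    continuous_proj.continuousOn isOpenMap_proj isOpen_ball

lemma continuousAt_lift {x : T} (hx : x ∈ Sq) : ContinuousAt lift x := prj.continuousAt_symm hx

variable {𝕍 M : Type} [NormedAddCommGroup 𝕍] [NormedSpace ℝ 𝕍] [FiniteDimensional ℝ 𝕍]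
  [TopologicalSpace M] [ChartedSpace 𝕍 M] [IsManifold 𝓘(ℝ, 𝕍) ∞ M]

namespace Ch

variable (c : Ch 𝕍 M)

/-- The embedding of the open square of the torus in the surface. -/
noncomputable def j (x : T) : M := c.e.symm (lift x)

/-- The chart is onto the square. -/
def Big : Prop := ball (0 : E) (1 / 2) ⊆ c.e.target

variable {c}

lemma j_proj {z : E} (hz : z ∈ ball (0 : E) (1 / 2)) : c.j (proj z) = c.e.symm z := by
  rw [j, lift_proj' hz]

lemma Big.tgt (hc : c.Big) : (c.e.trans prj).target = Sq :=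
  inter_eq_left.2 fun _ hx => hc (lift_mem hx)

lemma Big.injOn (hc : c.Big) : InjOn c.j Sq := hc.tgt ▸ (c.e.trans prj).symm.injOn

lemma Big.continuousAt (hc : c.Big) {x : T} (hx : x ∈ Sq) : ContinuousAt c.j x :=
  (c.e.trans prj).continuousAt_symm (hc.tgt ▸ hx)

lemma Big.isOpen_image (hc : c.Big) {U : Set T} (hU : IsOpen U) (h : U ⊆ Sq) :
    IsOpen (c.j '' U) :=
  (c.e.trans prj).isOpen_image_symm_of_subset_target hU (hc.tgt ▸ h)

lemma Big.isCompact_image (hc : c.Big) {K : Set T} (hK : IsClosed K) (h : K ⊆ Sq) :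
    IsCompact (c.j '' K) :=
  hK.isCompact.image_of_continuousOn fun _ hx => (hc.continuousAt (h hx)).continuousWithinAt

lemma exists_rep {f : M → M} {G : T → T} (hG : IsC1 G) {x : T} (hx : x ∈ Sq) (hGx : G x ∈ Sq)
    (h : ∀ᶠ y in 𝓝 x, f (c.j y) = c.j (G y)) :
    ∃ F : E → E, ContDiff ℝ 1 F ∧ F (lift x) = lift (G x) ∧ HasFDerivAt F (TD G x) (lift x) ∧
      ∀ᶠ w in 𝓝 (lift x), f (c.e.symm w) = c.e.symm (F w) := by
  obtain ⟨H, hH, h0, h1, h2⟩ := hG.exists_lift_at x
  have hF : ContDiff ℝ 1 fun w => lift (G x) + H (w - lift x) :=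
    contDiff_const.add (hH.comp (contDiff_id.sub contDiff_const))
  refine ⟨_, hF, by simp [h0], ?_, ?_⟩
  · have d1 : HasFDerivAt H (TD G x) (lift x - lift x) := by
      have := (hH.differentiable one_ne_zero (lift x - lift x)).hasFDerivAt
      rwa [h2, sub_self, proj_zero, add_zero, ← sub_self (lift x)] at this
    have d2 : HasFDerivAt (fun w : E => w - lift x) (ContinuousLinearMap.id ℝ E) (lift x) :=
      (hasFDerivAt_id (lift x)).sub_const (lift x)
    simpa using (HasFDerivAt.comp (f := fun w : E => w - lift x) (lift x) d1 d2).const_add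
      (lift (G x))
  · have t1 : Tendsto proj (𝓝 (lift x)) (𝓝 x) := by
      simpa only [proj_lift] using continuous_proj.tendsto (lift x)
    have t2 : ∀ᶠ w in 𝓝 (lift x), lift (G x) + H (w - lift x) ∈ ball (0 : E) (1 / 2) :=
      hF.continuous.continuousAt.eventually (isOpen_ball.mem_nhds (by simpa [h0] using lift_mem hGx))
    filter_upwards [t1.eventually h, t2, isOpen_ball.mem_nhds (lift_mem hx)] with w a1 a2 a3
    rw [← j_proj a3, a1, ← j_proj a2, proj_add, proj_lift, ← h1, proj_sub, proj_lift,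
      add_sub_cancel]

lemma Big.D_j (hc : c.Big) {f : M → M} {G : T → T} (hG : IsC1 G) {x : T} (hx : x ∈ Sq)
    (hGx : G x ∈ Sq) (h : ∀ᶠ y in 𝓝 x, f (c.j y) = c.j (G y)) (u : E) :
    D 𝕍 f (c.j x) (c.dsym (lift x) u) = c.dsym (lift (G x)) (TD G x u) := by
  obtain ⟨F, -, h1, h2, h3⟩ := exists_rep hG hx hGx h
  rw [← h1]
  exact c.D_conj (hc (lift_mem hx)) (h1 ▸ hc (lift_mem hGx)) h2 h3 u

lemma Big.rd_j (hc : c.Big) {f : M → M} {G : T → T} (hG : IsC1 G) {x : T} (hx : x ∈ Sq)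
    (hGx : G x ∈ Sq) (h : ∀ᶠ y in 𝓝 x, f (c.j y) = c.j (G y)) (u : E) :
    c.rd f (lift x) u = TD G x u := by
  obtain ⟨F, -, h1, h2, h3⟩ := exists_rep hG hx hGx h
  exact c.rd_conj (hc (lift_mem hx)) (h1 ▸ hc (lift_mem hGx)) h2 h3 u

lemma Big.contMDiffAt_j (hc : c.Big) {f : M → M} {G : T → T} (hG : IsC1 G) {x : T} (hx : x ∈ Sq)
    (hGx : G x ∈ Sq) (h : ∀ᶠ y in 𝓝 x, f (c.j y) = c.j (G y)) :
    ContMDiffAt 𝓘(ℝ, 𝕍) 𝓘(ℝ, 𝕍) 1 f (c.j x) := by
  obtain ⟨F, h0, h1, h2, h3⟩ := exists_rep hG hx hGx h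
  exact c.contMDiffAt_conj (hc (lift_mem hx)) (h1 ▸ hc (lift_mem hGx)) h0.contDiffAt h3

lemma isCompact_lift {K : Set T} (hK : IsClosed K) (h : K ⊆ Sq) : IsCompact (lift '' K) :=
  hK.isCompact.image_of_continuousOn fun _ hx => (continuousAt_lift (h hx)).continuousWithinAt

lemma Big.lift_subset (hc : c.Big) {K : Set T} (h : K ⊆ Sq) : lift '' K ⊆ c.e.target := by
  rintro _ ⟨x, hx, rfl⟩
  exact hc (lift_mem (h hx))

variable [T2Space M]

/-- Transplant of a diffeomorphism of the torus supported in the open square. -/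
lemma Big.exists_tp (hc : c.Big) {G : Equiv.Perm T} (hG : G ∈ TDiff) {K : Set T} (hK : IsClosed K)
    (hKS : K ⊆ Sq) (hs : ∀ x, x ∉ K → G x = x) :
    ∃ k ∈ Diff1 𝕍 M, (∀ x ∈ Sq, G x ∈ Sq ∧ k (c.j x) = c.j (G x)) ∧
      (∀ x ∈ Sq, G⁻¹ x ∈ Sq ∧ k⁻¹ (c.j x) = c.j (G⁻¹ x)) ∧ ∀ y, y ∉ c.j '' K → k y = y := by
  obtain ⟨k, a1, a2, a3, a4⟩ := exists_tr (c.e.trans prj) G (hc.tgt ▸ hKS) hs
  rw [hc.tgt] at a1 a2
  have e : c.e.symm '' (lift '' K) = (c.e.trans prj).symm '' K := image_image _ _ _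
  refine ⟨k, ⟨c.contMDiff_of_supp (isCompact_lift hK hKS) (hc.lift_subset hKS) (e ▸ a3) ?_,
    c.contMDiff_of_supp (isCompact_lift hK hKS) (hc.lift_subset hKS) (e ▸ a4) ?_⟩, a1, a2, a3⟩
  · rintro _ ⟨x, hx, rfl⟩
    refine hc.contMDiffAt_j hG.1 (hKS hx) (a1 x (hKS hx)).1 ?_
    filter_upwards [isOpen_Sq.mem_nhds (hKS hx)] with y hy using (a1 y hy).2
  · rintro _ ⟨x, hx, rfl⟩
    refine hc.contMDiffAt_j hG.2 (hKS hx) (a2 x (hKS hx)).1 ?_
    filter_upwards [isOpen_Sq.mem_nhds (hKS hx)] with y hy using (a2 y hy).2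

/-- Transplants of small diffeomorphisms are small. -/
lemma Big.exists_small (hc : c.Big) {K : Set T} (hK : IsClosed K) (hKS : K ⊆ Sq)
    {N : Set (Diff1 𝕍 M)} (hN : N ∈ 𝓝 1) : ∃ η > 0, ∀ (k : Diff1 𝕍 M), ∀ G ∈ TDiff, Near G 1 η →
      (∀ x ∈ Sq, G x ∈ Sq ∧ k.1 (c.j x) = c.j (G x)) → (∀ y, y ∉ c.j '' K → k.1 y = y) →
      k ∈ N := by
  obtain ⟨η, hη, H⟩ := c.exists_small (isCompact_lift hK hKS) (hc.lift_subset hKS) hN
  obtain ⟨δ, hδ, hδ'⟩ := Metric.uniformContinuousOn_iff.1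
    ((hK.isCompact.exists_cthickening_subset_open isOpen_Sq hKS).choose_spec.2 |> fun h =>
      (hK.isCompact.cthickening).uniformContinuousOn_of_continuous fun x hx =>
        (continuousAt_lift (h hx)).continuousWithinAt) η hη
  have hr := (hK.isCompact.exists_cthickening_subset_open isOpen_Sq hKS).choose_spec.1
  refine ⟨min (min δ η) _, lt_min (lt_min hδ hη) hr, fun k G hG hn h1 h2 => H k ?_ ?_⟩
  · rwa [image_image]
  · rintro _ ⟨x, hx, rfl⟩
    have hxS := hKS hx
    have e : k.1 (c.e.symm (lift x)) = c.e.symm (lift (G x)) := (h1 x hxS).2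
    have ht := hc (lift_mem (h1 x hxS).1)
    have hd := (hn x).1
    rw [lt_min_iff, lt_min_iff] at hd
    refine ⟨e ▸ c.e.map_target ht, ?_, fun u => ?_⟩
    · rw [e, c.e.right_inv ht, ← dist_eq_norm]
      exact (hδ' _ (mem_cthickening_of_dist_le _ x _ _ hx hd.2.le) _
        (self_subset_cthickening _ hx) hd.1.1).le
    · rw [hc.rd_j hG.1 hxS (h1 x hxS).1 (by
        filter_upwards [isOpen_Sq.mem_nhds hxS] with y hy using (h1 y hy).2)]
      have h3 := (hn x).2
      rw [MP_fe72db_an.D_one] at h3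
      exact ((TD G x - 1).le_opNorm u).trans (mul_le_mul_of_nonneg_right
        (h3.le.trans ((min_le_left _ _).trans (min_le_right _ _))) (norm_nonneg u))

omit [T2Space M] in
/-- Diffeomorphisms close to the identity agree on a compact part of the square with a
diffeomorphism of the torus close to the identity. -/
lemma Big.eventually_ext (hc : c.Big) {K : Set T} (hK : IsClosed K) (hKS : K ⊆ Sq) {η : ℝ}
    (hη : 0 < η) : ∀ᶠ k : Diff1 𝕍 M in 𝓝 1, ∃ G ∈ TDiff, Near G 1 η ∧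
      ∀ x ∈ K, G x ∈ Sq ∧ k.1 (c.j x) = c.j (G x) := by
  obtain ⟨r, hr0, hr⟩ : ∃ r : ℝ, r < 1 / 2 ∧ ∀ x ∈ K, ‖x‖ ≤ r := by
    rcases K.eq_empty_or_nonempty with rfl | hne
    · exact ⟨0, by norm_num, by simp⟩
    · obtain ⟨x, hx, h⟩ := hK.isCompact.exists_isMaxOn hne continuous_norm.continuousOn
      exact ⟨‖x‖, mem_ball_zero_iff.1 (hKS hx), fun y hy => h hy⟩
  set r₁ := max r (1 / 4) with hr₁
  have h1 : r₁ < 1 / 2 := max_lt hr0 (by norm_num)
  have h2 : 1 / 4 ≤ r₁ := le_max_right _ _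
  let b : ContDiffBump (0 : E) := ⟨r₁, (r₁ + 1 / 2) / 2, by linarith, by linarith⟩
  have hb : ContDiff ℝ 1 b := b.contDiff
  obtain ⟨L, hL⟩ : ∃ L, ∀ z, ‖fderiv ℝ b z‖ ≤ L :=
    (hb.continuous_fderiv one_ne_zero).bounded_above_of_compact_support
      (b.hasCompactSupport.fderiv (𝕜 := ℝ))
  have hL0 : 0 ≤ L := (norm_nonneg _).trans (hL 0)
  have hsub : closedBall (0 : E) b.rOut ⊆ c.e.target :=
    (closedBall_subset_ball (by simp only [b]; linarith)).trans hc
  set θ := min (η / 2) (1 / 2) with hθ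
  have hθ0 : 0 < θ := by positivity
  filter_upwards [c.eventually_small (isCompact_closedBall 0 b.rOut) hsub
    (show 0 < θ / (1 + L) by positivity)] with k hk
  have hθL : θ / (1 + L) ≤ θ := div_le_self hθ0.le (by linarith)
  let w : E → E := fun z => c.e (k.1 (c.e.symm z)) - z
  have hw : ∀ z ∈ closedBall (0 : E) b.rOut, ContDiffAt ℝ 1 w z ∧ ‖fderiv ℝ w z‖ ≤ θ / (1 + L) := by
    intro z hz
    have a1 := c.contDiffAt_rep k.2.1 (hsub hz) (hk z hz).1
    have a2 := (a1.differentiableAt one_ne_zero).hasFDerivAt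
    refine ⟨a1.sub contDiffAt_id, ?_⟩
    have a4 : HasFDerivAt w (fderiv ℝ (fun w => c.e (k.1 (c.e.symm w))) z -
      ContinuousLinearMap.id ℝ E) z := a2.sub (hasFDerivAt_id z)
    rw [a4.fderiv]
    refine ContinuousLinearMap.opNorm_le_of_unit_norm (by positivity) fun u hu => ?_
    have a3 := (hk z hz).2.2 u hu.le
    rw [c.rd_conj (hsub hz) (c.e.map_source (hk z hz).1) a2
      (c.rep_conj k.2.1.continuous (hsub hz) (hk z hz).1)] at a3
    exact a3.le
  have hout : ∀ z, z ∉ closedBall (0 : E) b.rOut → (fun z => b z • w z) =ᶠ[𝓝 z] fun _ => 0 := by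
    intro z hz
    filter_upwards [isClosed_closedBall.isOpen_compl.mem_nhds hz] with y hy
    rw [b.zero_of_le_dist (not_le.1 fun h => hy (mem_closedBall.2 h)).le, zero_smul]
  have hU : ContDiff ℝ 1 fun z => b z • w z := by
    rw [contDiff_iff_contDiffAt]
    intro z
    by_cases hz : z ∈ closedBall (0 : E) b.rOut
    · exact hb.contDiffAt.smul (hw z hz).1
    · exact contDiffAt_const.congr_of_eventuallyEq (hout z hz)
  have hUb : ∀ z, ‖fderiv ℝ (fun z => b z • w z) z‖ ≤ θ := by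
    intro z
    by_cases hz : z ∈ closedBall (0 : E) b.rOut
    · rw [fderiv_fun_smul (hb.differentiable one_ne_zero z)
        ((hw z hz).1.differentiableAt one_ne_zero)]
      refine (norm_add_le _ _).trans ?_
      rw [norm_smul, ContinuousLinearMap.norm_smulRight_apply, Real.norm_of_nonneg b.nonneg]
      calc _ ≤ 1 * (θ / (1 + L)) + L * (θ / (1 + L)) := by
            gcongr
            exacts [b.le_one, (hw z hz).2, hL z, (hk z hz).2.1.le]
        _ = θ := by field_simp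
    · rw [(hout z hz).fderiv_eq]; simpa using hθ0.le
  have hUn : ∀ z, ‖b z • w z‖ ≤ θ := by
    intro z
    by_cases hz : z ∈ closedBall (0 : E) b.rOut
    · rw [norm_smul, Real.norm_of_nonneg b.nonneg]
      exact (mul_le_of_le_one_left (norm_nonneg _) b.le_one).trans ((hk z hz).2.1.le.trans hθL)
    · have := (hout z hz).self_of_nhds
      simp only at this
      rw [this]; simpa using hθ0.le
  obtain ⟨Φ, hΦ, hΦ1, hΦ2⟩ := exists_perm_of_small hU fun v => (hUb v).trans (min_le_right _ _)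
  have hS : Supp Φ := ⟨b.rOut, by simp only [b]; linarith, fun v hv => by
    rw [hΦ, b.zero_of_le_dist (by simpa using hv), zero_smul, add_zero]⟩
  have hθη : θ < η := (min_le_left _ _).trans_lt (half_lt_self hη)
  have hap : ∀ x, tpPerm 0 Φ hS x = proj (Φ (lift x)) := fun x => by
    rw [tpPerm_apply, tp, sub_zero, zero_add]
  refine ⟨tpPerm 0 Φ hS, tpPerm_mem 0 hS hΦ1 hΦ2, fun x => ⟨?_, ?_⟩, fun x hx => ?_⟩
  · rw [hap, hΦ, proj_add, proj_lift]
    exact ((dist_add_proj_le _ _).trans (hUn _)).trans_lt hθη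
  · have e1 : TD (tpPerm 0 Φ hS) x = fderiv ℝ Φ (lift (x - 0)) := D_tp 0 hΦ1 hS x
    have e2 : (Φ : E → E) = fun v => v + b v • w v := funext hΦ
    have e3 : HasFDerivAt (fun v => v + b v • w v) (ContinuousLinearMap.id ℝ E +
        fderiv ℝ (fun z => b z • w z) (lift (x - 0))) (lift (x - 0)) :=
      (hasFDerivAt_id _).add (hU.differentiable one_ne_zero _).hasFDerivAt
    rw [e1, e2, MP_fe72db_an.D_one, e3.fderiv]
    exact (le_of_eq (congrArg norm (add_sub_cancel_left _ _))).trans_lt ((hUb _).trans_lt hθη)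
  · have hx1 : ‖lift x‖ ≤ r₁ := by rw [norm_lift]; exact (hr x hx).trans (le_max_left _ _)
    have hx2 : lift x ∈ closedBall (0 : E) b.rOut :=
      mem_closedBall_zero_iff.2 (hx1.trans b.rIn_lt_rOut.le)
    have e : Φ (lift x) = c.e (k.1 (c.e.symm (lift x))) := by
      rw [hΦ, b.one_of_mem_closedBall (mem_closedBall_zero_iff.2 hx1), one_smul, add_sub_cancel]
    have hin : Φ (lift x) ∈ ball (0 : E) (1 / 2) := by
      by_contra hcon
      obtain ⟨ρ, hρ, hρ'⟩ := hS
      have h3 := Φ.injective (hρ' _ (hρ.le.trans (by simpa using hcon)))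
      rw [h3] at hcon
      exact hcon (lift_mem (hKS hx))
    rw [hap, j_proj hin, e, c.e.left_inv (hk _ hx2).1]
    exact ⟨e ▸ proj_mem hin, rfl⟩

end Ch

end Pool.Agent.Lib.MP_fe72db_an.Surf
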