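import Pool.Agent.Lib.MP_fe72db_an.Surf.Calc

/-! Stability of the class `O` under inversion and under modification in the basin of a sink. -/

open Filter Topology Set
open scoped Manifold ContDiff

namespace Pool.Agent.Lib.MP_fe72db_an.Surf

set_option linter.unusedSectionVars false

variable {𝕍 M : Type} [NormedAddCommGroup 𝕍] [NormedSpace ℝ 𝕍]
  [TopologicalSpace M] [ChartedSpace 𝕍 M] [IsManifold 𝓘(ℝ, 𝕍) ∞ M] [T2Space M]
  [CompactSpace M] {g : RMetric 𝕍 M}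

/-- The class `O` as a set of permutations. -/
def OP (g : RMetric 𝕍 M) : Set (Equiv.Perm M) :=
  {f | f ∈ Diff1 𝕍 M ∧ AxiomA g f ∧ NoCycles f ∧ ∃ p ∈ Function.periodicPts f,
    IsHyperbolic g f (orbit f p) ∧ homoclinicClass g f p ≠ orbit f p}

lemma mem_periodicPts_iff {f : Equiv.Perm M} {x : M} :
    x ∈ Function.periodicPts f ↔ ∃ n : ℕ, 0 < n ∧ (f ^ n) x = x := by
  simp only [Function.periodicPts, Function.IsPeriodicPt, Function.IsFixedPt, mem_ofPred_eq,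
    Equiv.Perm.iterate_eq_pow, gt_iff_lt]

lemma inv_pow_apply_eq_iff {f : Equiv.Perm M} {n : ℕ} {x y : M} :
    (f⁻¹ ^ n) x = y ↔ (f ^ n) y = x := by
  rw [inv_pow, Equiv.Perm.inv_eq_iff_eq, eq_comm]

lemma periodicPts_inv (f : Equiv.Perm M) :
    Function.periodicPts (f⁻¹ : Equiv.Perm M) = Function.periodicPts f := by
  ext x
  simp only [mem_periodicPts_iff, inv_pow_apply_eq_iff]

lemma orbit_inv (f : Equiv.Perm M) (x : M) : orbit f⁻¹ x = orbit f x := by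
  ext y
  constructor <;> rintro ⟨n, rfl⟩ <;> exact ⟨-n, by simp⟩

lemma mem_orbit_self (f : Equiv.Perm M) (x : M) : x ∈ orbit f x := ⟨0, by simp⟩

lemma zpow_mem_orbit {f : Equiv.Perm M} {x y : M} (h : y ∈ orbit f x) (n : ℤ) :
    (f ^ n) y ∈ orbit f x := by
  obtain ⟨m, rfl⟩ := h
  exact ⟨n + m, by simp [zpow_add]⟩

lemma apply_mem_orbit {f : Equiv.Perm M} {x y : M} (h : y ∈ orbit f x) : f y ∈ orbit f x := by
  simpa using zpow_mem_orbit h 1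

lemma inv_apply_mem_orbit {f : Equiv.Perm M} {x y : M} (h : y ∈ orbit f x) :
    f⁻¹ y ∈ orbit f x := by
  have := zpow_mem_orbit h (-1)
  rwa [zpow_neg_one] at this

lemma orbit_subset {f : Equiv.Perm M} {Λ : Set M} (h1 : ∀ x ∈ Λ, f x ∈ Λ)
    (h2 : ∀ x ∈ Λ, f⁻¹ x ∈ Λ) {x : M} (hx : x ∈ Λ) : orbit f x ⊆ Λ := by
  rintro _ ⟨n, rfl⟩
  induction n using Int.induction_on with
  | zero => simpa using hx
  | succ n ih => simp only [add_comm (n : ℤ) 1, zpow_one_add]; exact h1 _ ih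
  | pred n ih =>
    have : f ^ (-(n : ℤ) - 1) = f⁻¹ * f ^ (-(n : ℤ)) := by group
    simp only [this]; exact h2 _ ih

lemma orbit_fixed {f : Equiv.Perm M} {p : M} (h : f p = p) : orbit f p = {p} := by
  apply Subset.antisymm
  · apply orbit_subset (Λ := {p})
    · rintro _ rfl; exact h
    · rintro _ rfl; exact Equiv.Perm.inv_eq_iff_eq.2 h.symm
    · rfl
  · rintro _ rfl; exact mem_orbit_self _ _

lemma eq_of_mem_orbit_fixed {f : Equiv.Perm M} {p y : M} (h : f p = p) (hy : p ∈ orbit f y) :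
    y = p := by
  obtain ⟨n, hn⟩ := hy
  have h1 : (f ^ (-n)) p ∈ orbit f p := ⟨-n, rfl⟩
  rw [orbit_fixed h] at h1
  have h2 : (f ^ (-n)) p = y := by rw [← hn]; simp
  exact h2 ▸ h1

lemma finite_orbit {f : Equiv.Perm M} {p : M} (h : p ∈ Function.periodicPts f) :
    (orbit f p).Finite := by
  obtain ⟨n, hn, h⟩ := mem_periodicPts_iff.1 h
  apply ((finite_Iio n).image fun k : ℕ => (f ^ k) p).subset
  apply orbit_subset
  · rintro _ ⟨k, hk, rfl⟩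
    rcases lt_or_eq_of_le (Nat.succ_le_of_lt hk) with h1 | h1
    · exact ⟨k + 1, h1, by simp [pow_succ']⟩
    · refine ⟨0, hn, ?_⟩
      have : f ((f ^ k) p) = (f ^ n) p := by rw [← h1, pow_succ']; rfl
      simp [this, h]
  · rintro _ ⟨k, hk, rfl⟩
    rcases k with _ | k
    · obtain ⟨m, rfl⟩ := Nat.exists_eq_succ_of_ne_zero hn.ne'
      refine ⟨m, Nat.lt_succ_self m, ?_⟩
      rw [eq_comm, Equiv.Perm.inv_eq_iff_eq]
      rw [pow_succ'] at h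
      exact h.symm
    · exact ⟨k, (Nat.lt_succ_self k).trans hk, by simp [pow_succ']⟩
  · exact ⟨0, hn, by simp⟩

lemma nonwandering_inv (f : Equiv.Perm M) : nonwandering f⁻¹ = nonwandering f := by
  have : ∀ k : Equiv.Perm M, nonwandering k⁻¹ ⊆ nonwandering k := by
    intro k x hx U hU
    obtain ⟨n, hn, y, hy, h⟩ := hx U hU
    exact ⟨n, hn, _, h, by rwa [inv_pow_apply_eq_iff.1 rfl]⟩
  exact Subset.antisymm (this f) (by simpa using this f⁻¹)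

lemma periodic_mem_nonwandering {f : Equiv.Perm M} {x : M} (h : x ∈ Function.periodicPts f) :
    x ∈ nonwandering f := by
  obtain ⟨n, hn, h⟩ := mem_periodicPts_iff.1 h
  exact fun U hU => ⟨n, hn, x, mem_of_mem_nhds hU, by rw [h]; exact mem_of_mem_nhds hU⟩

lemma fixed_mem_periodic {f : Equiv.Perm M} {x : M} (h : f x = x) : x ∈ Function.periodicPts f :=
  mem_periodicPts_iff.2 ⟨1, one_pos, by simpa using h⟩

lemma isClosed_nonwandering (f : Equiv.Perm M) : IsClosed (nonwandering f) := by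
  rw [← closure_subset_iff_isClosed]
  intro x hx U hU
  obtain ⟨y, hy, hy'⟩ := mem_closure_iff_nhds.1 hx _ (interior_mem_nhds.2 hU)
  exact hy' U (mem_interior_iff_mem_nhds.1 hy)

lemma apply_mem_nonwandering {f : Equiv.Perm M} (hf : f ∈ Diff1 𝕍 M) {x : M}
    (hx : x ∈ nonwandering f) : f x ∈ nonwandering f := by
  intro U hU
  obtain ⟨n, hn, y, hy, h⟩ := hx _ ((continuous_of_Diff1 hf).continuousAt.preimage_mem_nhds hU)
  refine ⟨n, hn, f y, hy, ?_⟩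
  have : (f ^ n) (f y) = f ((f ^ n) y) := by
    rw [← Equiv.Perm.mul_apply, ← pow_succ, pow_succ', Equiv.Perm.mul_apply]
  rw [this]; exact h

lemma inv_apply_mem_nonwandering {f : Equiv.Perm M} (hf : f ∈ Diff1 𝕍 M) {x : M}
    (hx : x ∈ nonwandering f) : f⁻¹ x ∈ nonwandering f := by
  rw [← nonwandering_inv] at hx ⊢
  exact apply_mem_nonwandering (inv_mem_Diff1 hf) hx

lemma notMem_nonwandering {f : Equiv.Perm M} (hf : f ∈ Diff1 𝕍 M) {x : M} {V : Set M} (hV : V ∈ 𝓝 x)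
    (h : ∀ᶠ n : ℕ in atTop, ∀ y ∈ V, (f ^ n) y ∉ V) : x ∉ nonwandering f := by
  obtain ⟨N, hN⟩ := eventually_atTop.1 h
  have hper : ∀ n : ℕ, 1 ≤ n → (f ^ n) x ≠ x := by
    intro n hn e
    have h1 : ∀ k : ℕ, (f ^ (n * k)) x = x := by
      intro k
      induction k with
      | zero => simp
      | succ k ih => rw [Nat.mul_succ, pow_add, Equiv.Perm.mul_apply, e, ih]
    have := hN (n * N) (Nat.le_mul_of_pos_left N hn) x (mem_of_mem_nhds hV)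
    rw [h1] at this
    exact this (mem_of_mem_nhds hV)
  have hloc : ∀ n : ℕ, ∃ W ∈ 𝓝 x, 1 ≤ n → ∀ y ∈ W, (f ^ n) y ∉ W := by
    intro n
    by_cases hn : 1 ≤ n
    · obtain ⟨A, B, hA, hB, hxA, hxB, hAB⟩ := t2_separation (hper n hn)
      refine ⟨B ∩ (f ^ n) ⁻¹' A, inter_mem (hB.mem_nhds hxB)
        ((continuous_of_Diff1 (pow_mem_Diff1 hf n)).continuousAt.preimage_mem_nhds
          (hA.mem_nhds hxA)), fun _ y hy hy' => ?_⟩
      exact Set.disjoint_left.1 hAB hy.2 hy'.1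
    · exact ⟨univ, univ_mem, fun h => absurd h hn⟩
  choose W hW hW' using hloc
  intro hx
  obtain ⟨n, hn, y, hy, hy'⟩ := hx (V ∩ ⋂ n ∈ Iio N, W n)
    (inter_mem hV ((biInter_mem (finite_Iio N)).2 fun n _ => hW n))
  rcases lt_or_ge n N with h1 | h1
  · exact hW' n hn y (mem_iInter₂.1 hy.2 n h1) (mem_iInter₂.1 hy'.2 n h1)
  · exact hN n h1 y hy.1 hy'.1

lemma IsHyperbolic.inv {f : Equiv.Perm M} (hf : f ∈ Diff1 𝕍 M) {Λ : Set M}
    (hΛ : ∀ x ∈ Λ, f⁻¹ x ∈ Λ) (h : IsHyperbolic g f Λ) : IsHyperbolic g f⁻¹ Λ := by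
  obtain ⟨Es, Eu, C, lam, hC, h0, h1, H⟩ := h
  have key : ∀ (F : M → Submodule ℝ 𝕍) (x : M),
      (F (f⁻¹ x)).map (D 𝕍 f (f⁻¹ x)).toLinearMap = F (f (f⁻¹ x)) →
      (F x).map (D 𝕍 (f⁻¹ : Equiv.Perm M) x).toLinearMap = F (f⁻¹ x) := by
    intro F x hx
    have e := D_inv_mul hf (f⁻¹ x)
    rw [show f (f⁻¹ x) = x by simp] at hx e
    rw [← hx, ← Submodule.map_comp]
    have : (D 𝕍 (f⁻¹ : Equiv.Perm M) x).toLinearMap ∘ₗ (D 𝕍 f (f⁻¹ x)).toLinearMap = LinearMap.id :=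
      congrArg ContinuousLinearMap.toLinearMap e
    rw [this, Submodule.map_id]
  refine ⟨Eu, Es, C, lam, hC, h0, h1, fun x hx => ⟨(H x hx).1.symm,
    key Eu x (H _ (hΛ x hx)).2.2.1, key Es x (H _ (hΛ x hx)).2.1, fun n => ⟨?_, ?_⟩⟩⟩
  · exact ((H x hx).2.2.2 n).2
  · rw [inv_inv]; exact ((H x hx).2.2.2 n).1

lemma IsHyperbolic.mono {f : Equiv.Perm M} {Λ Λ' : Set M} (h : IsHyperbolic g f Λ) (hs : Λ' ⊆ Λ) :
    IsHyperbolic g f Λ' := by
  obtain ⟨Es, Eu, C, lam, hC, h0, h1, H⟩ := h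
  exact ⟨Es, Eu, C, lam, hC, h0, h1, fun x hx => H x (hs hx)⟩

lemma homoclinicClass_inv (f : Equiv.Perm M) (p : M) :
    homoclinicClass g f⁻¹ p = homoclinicClass g f p := by
  unfold homoclinicClass
  congr 1
  ext x
  simp only [orbit_inv, inv_inv, mem_ofPred_eq]
  constructor <;> rintro ⟨h1, h2, h3⟩ <;> refine ⟨h2, h1, fun w => ?_⟩ <;>
    obtain ⟨v, hv, v', hv', rfl⟩ := h3 w <;> exact ⟨v', hv', v, hv, add_comm _ _⟩

lemma inv_mem_O {f : Equiv.Perm M} (hf : f ∈ OP g) : f⁻¹ ∈ OP g := by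
  obtain ⟨hD, ⟨hH, hP⟩, ⟨k, Λ, h1, h2, h3, h4⟩, p, hp, hp1, hp2⟩ := hf
  refine ⟨inv_mem_Diff1 hD, ⟨?_, ?_⟩, ⟨k, Λ, fun i => ⟨(h1 i).1, ?_, ?_⟩, h2, ?_, fun i hi => ?_⟩,
    p, ?_, ?_, ?_⟩
  · rw [nonwandering_inv]
    exact hH.inv hD fun x hx => inv_apply_mem_nonwandering hD hx
  · rwa [nonwandering_inv, periodicPts_inv]
  · conv_lhs => rw [← (h1 i).2.1]
    rw [image_image]; simp
  · simpa only [orbit_inv] using (h1 i).2.2
  · rwa [nonwandering_inv]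
  · apply h4 i
    have := Relation.transGen_swap.2 hi
    refine Relation.TransGen.mono ?_ _ _ this
    rintro a b ⟨hab, x, ⟨hx1, hx2⟩, hx3⟩
    rw [inv_inv] at hx1
    rw [nonwandering_inv] at hx3
    exact ⟨hab.symm, x, ⟨hx2, hx1⟩, hx3⟩
  · rwa [periodicPts_inv]
  · rw [orbit_inv]; exact hp1.inv hD fun x hx => inv_apply_mem_orbit hx
  · rwa [orbit_inv, homoclinicClass_inv]

/-- Transverse homoclinic points. -/
def IsTransHom (g : RMetric 𝕍 M) (f : Equiv.Perm M) (p x : M) : Prop :=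
  x ∈ Ws f (orbit f p) ∧ x ∈ Ws f⁻¹ (orbit f p) ∧
    ∀ w : 𝕍, ∃ v ∈ stableVec g f x, ∃ v' ∈ stableVec g f⁻¹ x, w = v + v'

lemma mem_Ws_of_forall {f : Equiv.Perm M} {Λ : Set M} {x : M} (h : ∀ n : ℕ, (f ^ n) x ∈ Λ) :
    x ∈ Ws f Λ := by
  intro U hU
  exact mem_map.2 (Eventually.of_forall fun n => subset_of_mem_nhdsSet hU (h n))

lemma tendsto_of_geom {u : ℕ → ℝ} {C lam B : ℝ} (h0 : 0 < lam) (h1 : lam < 1)
    (hu : ∀ n, 0 ≤ u n) (h : ∀ n, u n ≤ C * lam ^ n * B) : Tendsto u atTop (𝓝 0) := by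
  apply squeeze_zero hu h
  have := ((tendsto_pow_atTop_nhds_zero_of_lt_one h0.le h1).const_mul C).mul_const B
  simpa using this

lemma IsHyperbolic.trans_vec {f : Equiv.Perm M} {Λ : Set M} (h : IsHyperbolic g f Λ) {x : M}
    (hx : x ∈ Λ) (w : 𝕍) : ∃ v ∈ stableVec g f x, ∃ v' ∈ stableVec g f⁻¹ x, w = v + v' := by
  obtain ⟨Es, Eu, C, lam, hC, h0, h1, H⟩ := h
  obtain ⟨hc, -, -, H⟩ := H x hx
  have : w ∈ Es x ⊔ Eu x := by rw [hc.sup_eq_top]; trivial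
  obtain ⟨v, hv, v', hv', rfl⟩ := Submodule.mem_sup.1 this
  exact ⟨v, tendsto_of_geom h0 h1 (fun n => nrm_nonneg _ _ _) fun n => (H n).1 v hv, v',
    tendsto_of_geom h0 h1 (fun n => nrm_nonneg _ _ _) fun n => (H n).2 v' hv', rfl⟩

lemma homoclinicClass_ne_iff {f : Equiv.Perm M} {p : M} (hp : p ∈ Function.periodicPts f)
    (hh : IsHyperbolic g f (orbit f p)) :
    homoclinicClass g f p ≠ orbit f p ↔ ∃ x, x ∉ orbit f p ∧ IsTransHom g f p x := by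
  constructor
  · intro h
    by_contra hc
    push Not at hc
    apply h
    apply Subset.antisymm
    · apply closure_minimal _ (finite_orbit hp).isClosed
      intro x hx
      by_contra hx'
      exact hc x hx' hx
    · intro x hx
      apply subset_closure
      refine ⟨mem_Ws_of_forall fun n => ?_, mem_Ws_of_forall fun n => ?_, hh.trans_vec hx⟩
      · simpa using zpow_mem_orbit hx n
      · simpa using zpow_mem_orbit hx (-n)
  · rintro ⟨x, hx, hx'⟩ h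
    exact hx (h ▸ subset_closure hx')

/-! Agreement along invariant sets -/

lemma agree_pow {f f' : Equiv.Perm M} (hf : f ∈ Diff1 𝕍 M) (hf' : f' ∈ Diff1 𝕍 M) {Λ : Set M}
    (h1 : ∀ x ∈ Λ, f x ∈ Λ) (h : ∀ x ∈ Λ, f' x = f x ∧ D 𝕍 f' x = D 𝕍 f x) (n : ℕ) {x : M}
    (hx : x ∈ Λ) : (f ^ n) x ∈ Λ ∧ (f' ^ n) x = (f ^ n) x ∧
      D 𝕍 (f' ^ n : Equiv.Perm M) x = D 𝕍 (f ^ n : Equiv.Perm M) x := by
  induction n with
  | zero => simpa using hx
  | succ n ih =>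
    rw [D_pow_succ hf, D_pow_succ hf', ih.2.1, ih.2.2, (h _ ih.1).2, pow_succ', pow_succ',
      Equiv.Perm.mul_apply, Equiv.Perm.mul_apply, ih.2.1, (h _ ih.1).1]
    exact ⟨h1 _ ih.1, rfl, rfl⟩

lemma agree_inv {f f' : Equiv.Perm M} (hf : f ∈ Diff1 𝕍 M) (hf' : f' ∈ Diff1 𝕍 M) {Λ : Set M}
    (h2 : ∀ x ∈ Λ, f⁻¹ x ∈ Λ) (h : ∀ x ∈ Λ, f' x = f x ∧ D 𝕍 f' x = D 𝕍 f x) {x : M}
    (hx : x ∈ Λ) : f'⁻¹ x = f⁻¹ x ∧ D 𝕍 (f'⁻¹ : Equiv.Perm M) x = D 𝕍 (f⁻¹ : Equiv.Perm M) x := by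
  obtain ⟨y, rfl⟩ := f.surjective x
  have hy : y ∈ Λ := by simpa using h2 _ hx
  have e1 := D_inv_mul hf' y
  have e2 := D_mul_inv' hf y
  rw [(h y hy).1, (h y hy).2] at e1
  refine ⟨by rw [Equiv.Perm.inv_eq_iff_eq]; simp [(h y hy).1], ?_⟩
  calc D 𝕍 (f'⁻¹ : Equiv.Perm M) (f y) = D 𝕍 (f'⁻¹ : Equiv.Perm M) (f y) * (D 𝕍 f y *
      D 𝕍 (f⁻¹ : Equiv.Perm M) (f y)) := by rw [e2, mul_one]
    _ = _ := by rw [← mul_assoc, e1, one_mul]

lemma agree_orbit {f f' : Equiv.Perm M} (hf : f ∈ Diff1 𝕍 M) (hf' : f' ∈ Diff1 𝕍 M) {Λ : Set M}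
    (h1 : ∀ x ∈ Λ, f x ∈ Λ) (h2 : ∀ x ∈ Λ, f⁻¹ x ∈ Λ)
    (h : ∀ x ∈ Λ, f' x = f x ∧ D 𝕍 f' x = D 𝕍 f x) {x : M} (hx : x ∈ Λ) :
    orbit f' x = orbit f x := by
  unfold orbit
  congr 1
  funext n
  obtain ⟨m, rfl | rfl⟩ := n.eq_nat_or_neg
  · simpa using (agree_pow hf hf' h1 h m hx).2.1
  · simpa using (agree_pow (inv_mem_Diff1 hf) (inv_mem_Diff1 hf') h2
      (fun y hy => agree_inv hf hf' h2 h hy) m hx).2.1

lemma IsHyperbolic.agree {f f' : Equiv.Perm M} (hf : f ∈ Diff1 𝕍 M) (hf' : f' ∈ Diff1 𝕍 M) {Λ : Set M}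
    (h1 : ∀ x ∈ Λ, f x ∈ Λ) (h2 : ∀ x ∈ Λ, f⁻¹ x ∈ Λ)
    (h : ∀ x ∈ Λ, f' x = f x ∧ D 𝕍 f' x = D 𝕍 f x) (hh : IsHyperbolic g f Λ) : IsHyperbolic g f' Λ := by
  obtain ⟨Es, Eu, C, lam, hC, h0, hl, H⟩ := hh
  refine ⟨Es, Eu, C, lam, hC, h0, hl, fun x hx => ?_⟩
  rw [(h x hx).1, (h x hx).2]
  refine ⟨(H x hx).1, (H x hx).2.1, (H x hx).2.2.1, fun n => ?_⟩
  have a1 := agree_pow hf hf' h1 h n hx
  have a2 := agree_pow (inv_mem_Diff1 hf) (inv_mem_Diff1 hf') h2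
    (fun y hy => agree_inv hf hf' h2 h hy) n hx
  rw [a1.2.2, a2.2.2, a1.2.1, a2.2.1]
  exact (H x hx).2.2.2 n

lemma agree_Ws (g : RMetric 𝕍 M) {f f' : Equiv.Perm M} (hf : f ∈ Diff1 𝕍 M) (hf' : f' ∈ Diff1 𝕍 M) {Λ : Set M}
    (h1 : ∀ x ∈ Λ, f x ∈ Λ) (h : ∀ x ∈ Λ, f' x = f x ∧ D 𝕍 f' x = D 𝕍 f x) {x : M} (hx : x ∈ Λ) :
    (∀ A, x ∈ Ws f A → x ∈ Ws f' A) ∧ stableVec g f' x = stableVec g f x := by
  constructor
  · intro A hA
    simp only [Ws, mem_ofPred_eq, fun n => (agree_pow hf hf' h1 h n hx).2.1]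
    exact hA
  · simp only [stableVec, fun n => (agree_pow hf hf' h1 h n hx).2.2,
      fun n => (agree_pow hf hf' h1 h n hx).2.1]

/-! Modification inside the basin of a sink -/

/-- All points of `U` converge uniformly to `p`. -/
def Attr (f : Equiv.Perm M) (p : M) (U : Set M) : Prop :=
  ∀ V ∈ 𝓝 p, ∀ᶠ n : ℕ in atTop, ∀ x ∈ U, (f ^ n) x ∈ V

lemma Attr.eq_of_nonwandering {f : Equiv.Perm M} (hf : f ∈ Diff1 𝕍 M) {p : M} {U : Set M}
    (hU : IsOpen U) (h : Attr f p U) {x : M} (hx : x ∈ U) (hx' : x ∈ nonwandering f) : x = p := by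
  by_contra hne
  obtain ⟨A, B, hA, hB, hxA, hpB, hAB⟩ := t2_separation hne
  refine notMem_nonwandering hf (inter_mem (hU.mem_nhds hx) (hA.mem_nhds hxA)) ?_ hx'
  filter_upwards [h _ (hB.mem_nhds hpB)] with n hn y hy hy'
  exact Set.disjoint_left.1 hAB hy'.2 (hn y hy.1)

lemma Attr.tendsto {f : Equiv.Perm M} {p : M} {U : Set M} (h : Attr f p U) {x : M} {m : ℕ}
    (hx : (f ^ m) x ∈ U) : Tendsto (fun n : ℕ => (f ^ n) x) atTop (𝓝 p) := by
  rw [← tendsto_add_atTop_iff_nat m]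
  intro V hV
  rw [mem_map]
  filter_upwards [h V hV] with n hn
  rw [mem_preimage, pow_add]; exact hn _ hx

lemma Attr.eq_of_tendsto_inv {f : Equiv.Perm M} {p : M} {U : Set M} (h : Attr f p U)
    (hU : U ∈ 𝓝 p) {x : M} (hx : Tendsto (fun n : ℕ => (f⁻¹ ^ n) x) atTop (𝓝 p)) : x = p := by
  by_contra hne
  obtain ⟨n, h1, h2⟩ := ((h _ (compl_singleton_mem_nhds (Ne.symm hne))).and
    (hx.eventually hU)).exists
  have := h1 _ h2
  rw [inv_pow_apply_eq_iff.1 rfl] at this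
  exact this rfl

lemma Attr.eq_of_mem_Ws {f : Equiv.Perm M} {p : M} {U : Set M} (h : Attr f p U)
    (hU : U ∈ 𝓝 p) {x : M} (hx : x ∈ Ws f⁻¹ {p}) : x = p := by
  apply h.eq_of_tendsto_inv hU
  simpa [Ws] using hx

lemma pow_mapsTo {f : Equiv.Perm M} {K : Set M} (h : MapsTo f K K) (n : ℕ) :
    MapsTo (f ^ n : Equiv.Perm M) K K := by
  rw [← Equiv.Perm.iterate_eq_pow]; exact h.iterate n

lemma Attr.avoid {f : Equiv.Perm M} {p : M} {U K Λ : Set M} (h : Attr f p U) (hK : K ⊆ U)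
    (hm : MapsTo f K K) (hΛ : IsClosed Λ) (hne : Λ.Nonempty) (hp : p ∉ Λ) {x : M}
    (hx : x ∈ Ws f Λ) : ∀ y ∈ orbit f x, y ∉ K := by
  have key : ∀ m : ℕ, (f ^ m) x ∉ K := by
    intro m hm'
    have hd : Disjoint (𝓝 p) (𝓝ˢ Λ) := disjoint_nhds_nhdsSet.2 (by rwa [hΛ.closure_eq])
    exact (h.tendsto (hK hm')).not_tendsto hd hx
  rintro _ ⟨n, rfl⟩ hy
  obtain ⟨m, rfl | rfl⟩ := n.eq_nat_or_neg
  · exact key m (by simpa using hy)
  · exact key 0 (by simpa using pow_mapsTo hm m hy)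

lemma pow_eq_of_notMem {f f' : Equiv.Perm M} {K : Set M} (hm : MapsTo f K K)
    (h : ∀ x, x ∉ K → f' x = f x) (n : ℕ) {y : M} (hy : (f ^ n) y ∉ K) :
    (f' ^ n) y = (f ^ n) y := by
  induction n with
  | zero => rfl
  | succ n ih =>
    rw [pow_succ', Equiv.Perm.mul_apply] at hy
    have h1 : (f ^ n) y ∉ K := fun hc => hy (hm hc)
    rw [pow_succ', pow_succ', Equiv.Perm.mul_apply, Equiv.Perm.mul_apply, ih h1, h _ h1]

lemma nonwandering_subset_of_modify {f f' : Equiv.Perm M} (hf : f ∈ Diff1 𝕍 M) {p : M} {K U : Set M}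
    (hK : IsClosed K) (hU : IsOpen U) (hKU : K ⊆ U) (hp' : f' p = p)
    (h : ∀ x, x ∉ K → f' x = f x) (hm : MapsTo f K K) (ha : Attr f p U) :
    nonwandering f ⊆ nonwandering f' := by
  intro x hx
  by_cases hxU : x ∈ U
  · rw [ha.eq_of_nonwandering hf hU hxU hx]
    exact periodic_mem_nonwandering (fixed_mem_periodic hp')
  · intro V hV
    obtain ⟨n, hn, y, hy, hy'⟩ := hx (V ∩ Kᶜ)
      (inter_mem hV (hK.isOpen_compl.mem_nhds fun hc => hxU (hKU hc)))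
    exact ⟨n, hn, y, hy.1, by rw [pow_eq_of_notMem hm h n hy'.2]; exact hy'.1⟩

theorem mem_O_of_modify {f f' : Equiv.Perm M} (hf : f ∈ OP g) (hD' : f' ∈ Diff1 𝕍 M) {p : M}
    {K U : Set M} (hK : IsClosed K) (hU : IsOpen U) (hKU : K ⊆ U) (hpU : p ∈ U) (hp : f p = p)
    (hp' : f' p = p) (hDp : D 𝕍 f' p = D 𝕍 f p) (h : ∀ x, x ∉ K → f' x = f x) (hm : MapsTo f K K)
    (hm' : MapsTo f' K K) (ha : Attr f p U) (ha' : Attr f' p U) : f' ∈ OP g := by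
  obtain ⟨hD, ⟨hH, hP⟩, ⟨k, Λ, h1, h2, h3, h4⟩, q, hq, hq1, hq2⟩ := hf
  have hΩ : nonwandering f' = nonwandering f := Subset.antisymm
    (nonwandering_subset_of_modify hD' hK hU hKU hp (fun x hx => (h x hx).symm) hm' ha')
    (nonwandering_subset_of_modify hD hK hU hKU hp' h hm ha)
  have hoff : ∀ x, x ∉ K → f' x = f x ∧ D 𝕍 f' x = D 𝕍 f x := fun x hx =>
    ⟨h x hx, D_congr (by filter_upwards [hK.isOpen_compl.mem_nhds hx] with y hy using h y hy)⟩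
  have hag : ∀ x ∈ nonwandering f, f' x = f x ∧ D 𝕍 f' x = D 𝕍 f x := by
    intro x hx
    by_cases hxU : x ∈ U
    · rw [ha.eq_of_nonwandering hD hU hxU hx]
      exact ⟨by rw [hp, hp'], hDp⟩
    · exact hoff x fun hc => hxU (hKU hc)
  have i1 : ∀ x ∈ nonwandering f, f x ∈ nonwandering f := fun x => apply_mem_nonwandering hD
  have i2 : ∀ x ∈ nonwandering f, f⁻¹ x ∈ nonwandering f := fun x => inv_apply_mem_nonwandering hD
  have hper : Function.periodicPts f ⊆ Function.periodicPts f' := by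
    intro x hx
    obtain ⟨n, hn, e⟩ := mem_periodicPts_iff.1 hx
    exact mem_periodicPts_iff.2 ⟨n, hn, by
      rw [(agree_pow hD hD' i1 hag n (periodic_mem_nonwandering hx)).2.1, e]⟩
  have hsub : ∀ i, Λ i ⊆ nonwandering f := fun i => h3 ▸ subset_iUnion Λ i
  have hqΩ := periodic_mem_nonwandering hq
  have hqo : orbit f' q = orbit f q := agree_orbit hD hD' i1 i2 hag hqΩ
  have hqh : IsHyperbolic g f' (orbit f' q) := by
    rw [hqo]
    exact hq1.agree hD hD' (fun x => apply_mem_orbit) (fun x => inv_apply_mem_orbit)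
      fun x hx => hag x (orbit_subset i1 i2 hqΩ hx)
  refine ⟨hD', ⟨?_, ?_⟩, ⟨k, Λ, fun i => ⟨(h1 i).1, ?_, ?_⟩, h2, by rw [hΩ, h3], fun i hi => ?_⟩,
    q, hper hq, hqh, ?_⟩
  · rw [hΩ]; exact hH.agree hD hD' i1 i2 hag
  · rw [hΩ]; exact hP.trans (closure_mono hper)
  · rw [image_congr fun x hx => (hag x (hsub i hx)).1]; exact (h1 i).2.1
  · obtain ⟨x, hx, hx'⟩ := (h1 i).2.2
    exact ⟨x, hx, by rwa [agree_orbit hD hD' i1 i2 hag (hsub i hx)]⟩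
  · set r' := fun a b => a ≠ b ∧ ((Ws f'⁻¹ (Λ a) ∩ Ws f' (Λ b)) \ nonwandering f').Nonempty
    set r := fun a b => a ≠ b ∧ ((Ws f⁻¹ (Λ a) ∩ Ws f (Λ b)) \ nonwandering f).Nonempty
    have c1 : ∀ a b, r' a b → p ∉ Λ a := by
      rintro a b ⟨-, x, ⟨hx1, -⟩, hx3⟩ hpa
      obtain ⟨y, hy, hy'⟩ := (h1 a).2.2
      obtain ⟨z, hz, hz'⟩ := mem_closure_iff_nhds.1 (hy' hpa) U (hU.mem_nhds hpU)
      have e1 : z = p := ha.eq_of_nonwandering hD hU hz (orbit_subset i1 i2 (hsub a hy) hz')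
      have e2 : y = p := eq_of_mem_orbit_fixed hp (e1 ▸ hz')
      rw [e2, orbit_fixed hp, closure_singleton] at hy'
      have e3 : Λ a = {p} := Subset.antisymm hy' (singleton_subset_iff.2 hpa)
      rw [e3] at hx1
      apply hx3
      rw [ha'.eq_of_mem_Ws (hU.mem_nhds hpU) hx1]
      exact periodic_mem_nonwandering (fixed_mem_periodic hp')
    have c2 : ∀ a b, r' a b → p ∉ Λ b → r a b := by
      rintro a b ⟨hab, x, ⟨hx1, hx2⟩, hx3⟩ hpb
      obtain ⟨y, hy, -⟩ := (h1 b).2.2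
      have hav := ha'.avoid hKU hm' (h1 b).1 ⟨y, hy⟩ hpb hx2
      have hag' : ∀ z ∈ orbit f' x, f z = f' z ∧ D 𝕍 f z = D 𝕍 f' z := fun z hz =>
        ⟨(hoff z (hav z hz)).1.symm, (hoff z (hav z hz)).2.symm⟩
      refine ⟨hab, x, ⟨?_, ?_⟩, by rwa [← hΩ]⟩
      · exact (agree_Ws g (inv_mem_Diff1 hD') (inv_mem_Diff1 hD) (fun z => inv_apply_mem_orbit)
          (fun z hz => agree_inv hD' hD (fun z => inv_apply_mem_orbit) hag' hz)
          (mem_orbit_self f' x)).1 _ hx1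
      · exact (agree_Ws g hD' hD (fun z => apply_mem_orbit) hag' (mem_orbit_self f' x)).1 _ hx2
    have c3 : ∀ a b, Relation.TransGen r' a b → p ∉ Λ b → Relation.TransGen r a b := by
      intro a b hab
      induction hab with
      | single hab => exact fun hb => .single (c2 _ _ hab hb)
      | tail _ hbc ih => exact fun hc => (ih (c1 _ _ hbc)).tail (c2 _ _ hbc hc)
    obtain ⟨j, hj, -⟩ := Relation.TransGen.head'_iff.1 hi
    exact h4 i (c3 i i hi (c1 i j hj))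
  · obtain ⟨x, hx, hx1, hx2, hx3⟩ := (homoclinicClass_ne_iff hq hq1).1 hq2
    have hpq : p ∉ orbit f q := by
      intro hc
      have e := eq_of_mem_orbit_fixed hp hc
      rw [e, orbit_fixed hp] at hx hx2
      exact hx (ha.eq_of_mem_Ws (hU.mem_nhds hpU) hx2)
    have hav := ha.avoid hKU hm (finite_orbit hq).isClosed ⟨q, mem_orbit_self f q⟩ hpq hx1
    have hag' : ∀ z ∈ orbit f x, f' z = f z ∧ D 𝕍 f' z = D 𝕍 f z := fun z hz => hoff z (hav z hz)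
    have a1 := agree_Ws g hD hD' (fun z => apply_mem_orbit) hag' (mem_orbit_self f x)
    have a2 := agree_Ws g (inv_mem_Diff1 hD) (inv_mem_Diff1 hD') (fun z => inv_apply_mem_orbit)
      (fun z hz => agree_inv hD hD' (fun z => inv_apply_mem_orbit) hag' hz) (mem_orbit_self f x)
    refine (homoclinicClass_ne_iff (hper hq) hqh).2 ⟨x, by rwa [hqo], ?_, ?_, ?_⟩
    · rw [hqo]; exact a1.1 _ hx1
    · rw [hqo]; exact a2.1 _ hx2
    · rw [a1.2, a2.2]; exact hx3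

lemma zpow_succ_apply (f : Equiv.Perm M) (n : ℤ) (x : M) : (f ^ (n + 1)) x = f ((f ^ n) x) := by
  rw [add_comm, zpow_one_add]; rfl

lemma zpow_mem_nonwandering {f : Equiv.Perm M} (hf : f ∈ Diff1 𝕍 M) {x : M}
    (hx : x ∈ nonwandering f) (n : ℤ) : (f ^ n) x ∈ nonwandering f :=
  orbit_subset (fun _ => apply_mem_nonwandering hf) (fun _ => inv_apply_mem_nonwandering hf) hx
    ⟨n, rfl⟩

lemma dichotomy {f : Equiv.Perm M} (hf : f ∈ Diff1 𝕍 M) {C : Set M} (hC : IsClosed C)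
    (hm : MapsTo f C C) (h2 : ∀ x ∈ C, f (f x) ∈ interior C) {x : M} (hx : x ∈ nonwandering f) :
    (∀ n : ℤ, (f ^ n) x ∈ C) ∨ ∀ n : ℤ, (f ^ n) x ∉ C := by
  have key : ∀ y ∈ nonwandering f, f y ∈ C → y ∈ C := by
    intro y hy hy'
    by_contra hc
    have hc3 : Continuous fun z => f (f (f z)) := by
      have := continuous_of_Diff1 hf
      fun_prop
    refine notMem_nonwandering hf (inter_mem (hC.isOpen_compl.mem_nhds hc)
      (hc3.continuousAt.preimage_mem_nhds (isOpen_interior.mem_nhds (h2 _ hy')))) ?_ hy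
    filter_upwards [eventually_ge_atTop 3] with n hn z hz hz'
    obtain ⟨m, rfl⟩ := Nat.exists_eq_add_of_le' hn
    apply hz'.1
    rw [pow_add, Equiv.Perm.mul_apply]
    exact pow_mapsTo hm m (interior_subset hz.2)
  have step : ∀ n : ℤ, (f ^ (n + 1)) x ∈ C ↔ (f ^ n) x ∈ C := fun n => by
    rw [zpow_succ_apply]
    exact ⟨key _ (zpow_mem_nonwandering hf hx n), fun h => hm h⟩
  have all : ∀ n : ℤ, (f ^ n) x ∈ C ↔ (f ^ (0 : ℤ)) x ∈ C := by
    intro n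
    induction n using Int.induction_on with
    | zero => rfl
    | succ n ih => rw [step, ih]
    | pred n ih => rw [← ih, ← step, sub_add_cancel]
  by_cases h0 : (f ^ (0 : ℤ)) x ∈ C
  · exact Or.inl fun n => (all n).2 h0
  · exact Or.inr fun n h => h0 ((all n).1 h)

lemma no_conn {f : Equiv.Perm M} {C A B : Set M} (hC : IsClosed C) (hm : MapsTo f C C)
    (hAC : A ⊆ interior C) (hBC : B ⊆ Cᶜ) {x : M} (h1 : x ∈ Ws f⁻¹ A) (h2 : x ∈ Ws f B) :
    False := by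
  obtain ⟨n, hn⟩ := (h1.eventually (isOpen_interior.mem_nhdsSet.2 hAC)).exists
  obtain ⟨m, hm'⟩ := (h2.eventually (hC.isOpen_compl.mem_nhdsSet.2 hBC)).exists
  apply hm'
  have e : (f ^ n) ((f⁻¹ ^ n) x) = x := inv_pow_apply_eq_iff.1 rfl
  exact pow_mapsTo hm m (e ▸ pow_mapsTo hm n (interior_subset hn))

lemma IsHyperbolic.union {f : Equiv.Perm M} {A B : Set M} (hA : IsHyperbolic g f A)
    (hB : IsHyperbolic g f B) (hi : ∀ x, f x ∈ A ↔ x ∈ A) : IsHyperbolic g f (A ∪ B) := by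
  classical
  obtain ⟨Es, Eu, C, lam, hC, h0, h1, H⟩ := hA
  obtain ⟨Es', Eu', C', lam', hC', h0', h1', H'⟩ := hB
  have m1 : ∀ (n : ℕ) (r : ℝ), 0 ≤ r → C * lam ^ n * r ≤ max C C' * max lam lam' ^ n * r :=
    fun n r hr => by gcongr <;> exact le_max_left _ _
  have m2 : ∀ (n : ℕ) (r : ℝ), 0 ≤ r → C' * lam' ^ n * r ≤ max C C' * max lam lam' ^ n * r :=
    fun n r hr => by gcongr <;> exact le_max_right _ _
  refine ⟨fun x => if x ∈ A then Es x else Es' x, fun x => if x ∈ A then Eu x else Eu' x,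
    max C C', max lam lam', lt_max_of_lt_left hC, lt_max_of_lt_left h0, max_lt h1 h1',
    fun x hx => ?_⟩
  by_cases hxA : x ∈ A
  · simp only [if_pos hxA, if_pos ((hi x).2 hxA)]
    obtain ⟨a1, a2, a3, a4⟩ := H x hxA
    exact ⟨a1, a2, a3, fun n => ⟨fun v hv => ((a4 n).1 v hv).trans (m1 n _ (nrm_nonneg _ _ _)),
      fun v hv => ((a4 n).2 v hv).trans (m1 n _ (nrm_nonneg _ _ _))⟩⟩
  · simp only [if_neg hxA, if_neg fun h => hxA ((hi x).1 h)]
    obtain ⟨a1, a2, a3, a4⟩ := H' x (hx.resolve_left hxA)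
    exact ⟨a1, a2, a3, fun n => ⟨fun v hv => ((a4 n).1 v hv).trans (m2 n _ (nrm_nonneg _ _ _)),
      fun v hv => ((a4 n).2 v hv).trans (m2 n _ (nrm_nonneg _ _ _))⟩⟩

end Pool.Agent.Lib.MP_fe72db_an.Surf
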